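import Pool.Agent.H324Z.A4.Rel

set_option autoImplicit false

namespace H324Z.A4

variable {G : Type} [Group G]

theorem cm_mul_mem {N : Subgroup G} (hN : N.Normal) {x y z : G} (h1 : cm x z ∈ N) (h2 : cm y z ∈ N) :
    cm (x * y) z ∈ N := by
  rw [cm_mul_left]; exact N.mul_mem (conj_mem' hN h1 _) h2

theorem cm_inv_mem {N : Subgroup G} (hN : N.Normal) {x z : G} (h1 : cm x z ∈ N) : cm x⁻¹ z ∈ N := by
  have : cm x⁻¹ z = x⁻¹⁻¹ * (cm x z)⁻¹ * x⁻¹ := by simp only [cm]; group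
  rw [this]; exact conj_mem' hN (N.inv_mem h1) _

theorem cm_symm_mem {N : Subgroup G} {x z : G} (h1 : cm x z ∈ N) : cm z x ∈ N := by
  rw [← cm_inv]; exact N.inv_mem h1

namespace Folder

variable (F : Folder G)

theorem cm_P_mem {N : Subgroup G} (hN : N.Normal) {z : G} (h : ∀ k ∈ F.K, ∀ g, cm (cm k g) z ∈ N)
    {p : G} (hp : p ∈ F.P) : cm p z ∈ N :=
  F.P_induction (p := fun p => cm p z ∈ N) h (by simp) (fun _ _ _ _ a b => cm_mul_mem hN a b)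
    (fun _ _ a => cm_inv_mem hN a) p hp

theorem key_P {u p : G} (huK : u ∈ F.K) (hu : u ∈ F.C2) (g : G) (hp : p ∈ F.P) :
    cm (cm u g) p = 1 := by
  apply cm_one_symm
  apply Subgroup.mem_bot.mp
  apply F.cm_P_mem inferInstance _ hp
  intro k hk b
  exact Subgroup.mem_bot.mpr (cm_one_symm (F.key huK hu hk g b))

theorem cm_C2_mul {u k k' : G} (hu : u ∈ F.C2) (hk : k ∈ F.K) (hk' : k' ∈ F.K) :
    cm u (k * k') = cm u k' * cm u k := by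
  rw [cm_mul_right, conj_of_cm (F.C_comm_K (F.C2_comm_K hu hk) hk')]

theorem cm_C2_Kd {u k : G} (hu : u ∈ F.C2) (hk : k ∈ F.Kd) : cm u k = 1 := by
  apply cm_one_symm
  apply Subgroup.mem_bot.mp
  refine F.Kd_induction (p := fun k => cm k u ∈ (⊥ : Subgroup G)) ?_ (by simp)
    (fun _ _ _ _ a b => cm_mul_mem inferInstance a b) (fun _ _ a => cm_inv_mem inferInstance a) k hk
  intro a ha b hb
  apply Subgroup.mem_bot.mpr
  apply cm_one_symm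
  have e1 := F.cm_C2_mul hu (F.K.mul_mem hb ha) (F.cm_mem_K a b)
  rw [← mul_eq_cm, F.cm_C2_mul hu ha hb, F.cm_C2_mul hu hb ha,
    ← cm_eq_one.mp (F.C_comm_K (F.C2_comm_K hu ha) (F.cm_mem_K u b))] at e1
  exact right_eq_mul.mp e1

/-- the hypothesis that the loop has class at most four -/
def Hyp : Prop := ∀ k ∈ F.K, F.π k ∈ F.quot.C2

variable {F}

theorem Hyp.h3 (hF : F.Hyp) {x k : G} (hx : x ∈ F.K) (hk : k ∈ F.K) : cm x k ∈ F.C2 := by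
  rw [mem_C2, map_cm]; exact F.quot.C2_comm_K (hF x hx) (F.quot_K hk)

theorem Hyp.h7 (hF : F.Hyp) {x : G} (hx : x ∈ F.K) (g : G) : cm (F.l x) g ∈ F.C2 := by
  rw [mem_C2, map_cm, ← F.quot_l]; exact F.quot.l_C2 (hF x hx) _

theorem h8 {h : G} (hh : h ∈ F.H) (hg : ∀ g, cm h g ∈ F.C2) : h ∈ F.C2 := by
  rw [mem_C2, ← F.quot.π_eq_one]
  apply F.quot.quot.central_H _ (F.quot.quot_H' (F.quot_H' hh))
  intro q
  obtain ⟨q, rfl⟩ := F.quot.π_surj q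
  obtain ⟨g, rfl⟩ := F.π_surj q
  rw [← map_cm, ← map_cm, F.quot.π_eq_one]; exact hg g

theorem Hyp.PP (hF : F.Hyp) {p p' : G} (hp : p ∈ F.P) (hp' : p' ∈ F.P) : cm p p' ∈ F.C := by
  apply F.cm_P_mem F.C_normal _ hp
  intro k hk a
  apply cm_symm_mem
  apply F.cm_P_mem F.C_normal _ hp'
  intro k' hk' b
  rw [← F.π_eq_one, map_cm, map_cm, map_cm]
  exact F.quot.key (F.quot_K hk') (hF k' hk') (F.quot_K hk) _ _

theorem Hyp.Kd_C2 (hF : F.Hyp) {x : G} (hx : x ∈ F.Kd) : x ∈ F.C2 :=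
  F.Kd_induction (p := fun x => x ∈ F.C2) (fun _ hk _ hg => hF.h3 hk hg) F.C2.one_mem
    (fun _ _ _ _ a b => F.C2.mul_mem a b) (fun _ _ a => F.C2.inv_mem a) x hx

theorem mem_C2_of_HP {k : G} (h1 : ∀ h ∈ F.H, cm k h ∈ F.C) (h2 : ∀ p ∈ F.P, cm k p ∈ F.C) :
    k ∈ F.C2 := by
  apply F.mem_C2_of
  intro k' hk'
  obtain ⟨h, hh, p, hp, rfl⟩ := F.K_eq hk'
  exact cm_symm_mem (cm_mul_mem F.C_normal (cm_symm_mem (h1 h hh)) (cm_symm_mem (h2 p hp)))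

theorem Hyp.good (hF : F.Hyp) (V : Sec F.K F.C2) : Good F V := by
  refine ⟨fun x hx k hk => hF.h3 hx hk, ?_⟩
  intro h hh p hp e
  have hu := (V.p_eq_iff (F.H_le_K hh) (F.P_le_K hp)).mp e
  apply V.p_zero (F.H_le_K hh)
  apply mem_C2_of_HP
  · intro h' hh'; rw [F.comm hh hh']; exact F.C.one_mem
  · intro p' hp'
    have : h = p * (p⁻¹ * h) := by group
    rw [this]
    exact cm_mul_mem F.C_normal (hF.PP hp hp') (F.C2_comm_K hu (F.P_le_K hp'))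

theorem HP_C2 (hF : F.Hyp) {h : G} (hh : h ∈ F.H) (hp : h ∈ F.P) : h ∈ F.C2 :=
  mem_C2_of_HP (fun h' hh' => by rw [F.comm hh hh']; exact F.C.one_mem) (fun _ hp' => hF.PP hp hp')

end Folder

/-- the sections and pairings used in the proof -/
structure Ctx (F : Folder G) where
  hF : F.Hyp
  V : Sec F.K F.C2
  U : Sec (F.K ⊓ F.C2) F.C
  M : Sec F.Kd ⊥
  br : V.M →+ V.M →+ U.M
  br_p : ∀ x ∈ F.K, ∀ y ∈ F.K, br (V.p x) (V.p y) = U.p (cm x y)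
  pr : G → U.M →+ M.M
  pr_p : ∀ k ∈ F.K, ∀ u ∈ F.K, u ∈ F.C2 → pr k (U.p u) = M.p (cm u k)
  T : V.M →+ V.M →+ V.M →+ M.M
  T_p : ∀ a b, ∀ k ∈ F.K, T a b (V.p k) = pr k (br a b)

theorem M_act_triv {F : Folder G} (M : Sec F.Kd ⊥) {x k : G} (hx : x ∈ F.Kd) (h : cm x k = 1) :
    M.act k (M.p x) = M.p x := by rw [M.act_p _ hx, conj_of_cm h]

theorem jacobi_K {F : Folder G} (hF : F.Hyp) (M : Sec F.Kd ⊥) {x y z : G} (hx : x ∈ F.K)
    (hy : y ∈ F.K) (hz : z ∈ F.K) :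
    M.p (cm (cm x z) y) = M.p (cm (cm y z) x) + M.p (cm (cm x y) z) := by
  have := M.jacobi x y z (F.cm_Kd hx hz) (F.cm_Kd hy hz) (F.cm_Kd (F.cm_mem_K _ _) hz) (by
    intro m
    obtain ⟨w, hw, rfl⟩ := M.surj m
    exact M_act_triv M hw (F.cm_C2_Kd (hF.Kd_C2 hw) (F.cm_Kd hx hy)))
  rwa [← M.p_cm (F.cm_Kd hx hz), ← M.p_cm (F.cm_Kd hy hz)] at this

theorem exists_ctx {F : Folder G} (hF : F.Hyp) : Nonempty (Ctx F) := by
  classical
  have nU : (F.K ⊓ F.C2).Normal := Subgroup.normal_inf_normal _ _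
  obtain ⟨V⟩ := exists_sec F.K F.C2 F.K_normal F.C2_normal (fun x hx y hy => hF.h3 hx hy)
  obtain ⟨U⟩ := exists_sec (F.K ⊓ F.C2) F.C nU F.C_normal (fun x hx y hy => F.C2_comm_K hx.2 hy.1)
  obtain ⟨M⟩ := exists_sec F.Kd ⊥ F.Kd_normal inferInstance (fun x hx y hy =>
    Subgroup.mem_bot.mpr (F.cm_C2_Kd (hF.Kd_C2 hx) hy))
  have cU : ∀ x ∈ F.K, ∀ y ∈ F.K, cm x y ∈ F.K ⊓ F.C2 := fun x hx y hy =>
    ⟨F.cm_mem_K _ _, hF.h3 hx hy⟩
  have aU : ∀ k ∈ F.K, ∀ m, U.act k m = m := fun k hk =>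
    U.act_triv fun x hx => F.C2_comm_K hx.2 hk
  obtain ⟨br, hbr⟩ := V.exists_lift2 V (fun x y => U.p (cm x y))
    (fun x hx y hy z hz => by
      rw [cm_mul_left, U.p_mul (conj_mem' nU (cU x hx z hz) _) (cU y hy z hz),
        ← U.act_p _ (cU x hx z hz), aU y hy])
    (fun x hx y hy z hz => by
      rw [cm_mul_right, U.p_mul (cU x hx z hz) (conj_mem' nU (cU x hx y hy) _),
        ← U.act_p _ (cU x hx y hy), aU z hz, add_comm])
    (fun x hx h2 z hz => U.p_zero (cU x hx z hz) (F.C2_comm_K h2 hz))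
    (fun x hx z hz h2 => U.p_zero (cU x hx z hz) (cm_symm_mem (F.C2_comm_K h2 hx)))
  have hpr : ∀ k, ∃ f : U.M →+ M.M, k ∈ F.K → ∀ u ∈ F.K ⊓ F.C2, f (U.p u) = M.p (cm u k) := by
    intro k
    by_cases hk : k ∈ F.K
    · obtain ⟨f, hf⟩ := U.exists_lift (fun u => M.p (cm u k))
        (fun x hx y hy => by
          rw [cm_mul_left, conj_of_cm (F.C_comm_K (F.C2_comm_K hx.2 hk) hy.1),
            M.p_mul (F.cm_Kd hx.1 hk) (F.cm_Kd hy.1 hk)])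
        (fun x hx h2 => by rw [F.C_comm_K h2 hk, M.p_one])
      exact ⟨f, fun _ => hf⟩
    · exact ⟨0, fun h => absurd h hk⟩
  choose pr hpr using hpr
  have hT : ∀ a b : V.M, ∃ f : V.M →+ M.M, ∀ k ∈ F.K, f (V.p k) = pr k (br a b) := by
    intro a b
    obtain ⟨x, hx, rfl⟩ := V.surj a
    obtain ⟨y, hy, rfl⟩ := V.surj b
    apply V.exists_lift
    · intro k hk k' hk'
      rw [hbr x hx y hy, hpr _ (F.K.mul_mem hk hk') _ (cU x hx y hy), hpr _ hk _ (cU x hx y hy),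
        hpr _ hk' _ (cU x hx y hy), F.cm_C2_mul (hF.h3 hx hy) hk hk',
        M.p_mul (F.cm_Kd (F.cm_mem_K _ _) hk') (F.cm_Kd (F.cm_mem_K _ _) hk), add_comm]
    · intro k hk h2
      have := jacobi_K hF M hx hy hk
      rw [F.C_comm_K (cm_symm_mem (F.C2_comm_K h2 hx)) hy,
        F.C_comm_K (cm_symm_mem (F.C2_comm_K h2 hy)) hx, M.p_one, zero_add] at this
      rw [hbr x hx y hy, hpr _ hk _ (cU x hx y hy), ← this]
  choose T hT using hT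
  have T1 : ∀ a b b', T a (b + b') = T a b + T a b' := by
    intro a b b'
    ext m
    obtain ⟨k, hk, rfl⟩ := V.surj m
    rw [AddMonoidHom.add_apply, hT _ _ _ hk, hT _ _ _ hk, hT _ _ _ hk, map_add, map_add]
  refine ⟨⟨hF, V, U, M, br, hbr, pr, fun k hk u hu h2 => hpr k hk u ⟨hu, h2⟩,
    AddMonoidHom.mk' (fun a => AddMonoidHom.mk' (T a) (T1 a)) ?_, fun a b k hk => hT a b k hk⟩⟩
  intro a a'
  ext b m
  obtain ⟨k, hk, rfl⟩ := V.surj m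
  simp only [AddMonoidHom.mk'_apply, AddMonoidHom.add_apply]
  rw [hT _ _ _ hk, hT _ _ _ hk, hT _ _ _ hk, map_add, AddMonoidHom.add_apply, map_add]

end H324Z.A4
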