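import Pool.Agent.H324Z.A4.Sec

set_option autoImplicit false

namespace H324Z.A4

variable {G : Type} [Group G]

/-- group-theoretic data of a loop with abelian inner mapping group -/
structure Folder (G : Type) [Group G] where
  H : Subgroup G
  l : G → G
  r : G → G
  comm : ∀ {a b : G}, a ∈ H → b ∈ H → cm a b = 1
  lH : ∀ g, (l g)⁻¹ * g ∈ H
  rH : ∀ g, (r g)⁻¹ * g ∈ H
  l_congr : ∀ {g g' : G}, g⁻¹ * g' ∈ H → l g = l g'
  r_congr : ∀ {g g' : G}, g⁻¹ * g' ∈ H → r g = r g'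
  l_one : l 1 = 1
  r_one : r 1 = 1
  lr : ∀ g g', cm (l g) (r g') ∈ H
  gen : Subgroup.closure (Set.range l ∪ Set.range r) = ⊤
  cf : ∀ x, (∀ g, g⁻¹ * x * g ∈ H) → x = 1

namespace Folder

variable (F : Folder G)

def K : Subgroup G := Subgroup.normalClosure (F.H : Set G)

instance K_normal : F.K.Normal := Subgroup.normalClosure_normal

theorem H_le_K {h : G} (hh : h ∈ F.H) : h ∈ F.K := Subgroup.subset_normalClosure hh

theorem exists_l (g : G) : ∃ h ∈ F.H, g = F.l g * h := ⟨_, F.lH g, by group⟩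
theorem exists_r (g : G) : ∃ h ∈ F.H, g = F.r g * h := ⟨_, F.rH g, by group⟩

theorem conjH {a h : G} (ha : a ∈ F.H) (hh : h ∈ F.H) : h⁻¹ * a * h = a := conj_of_cm (F.comm ha hh)

theorem cf_r {x : G} (h : ∀ y, (F.r y)⁻¹ * x * F.r y ∈ F.H) : x = 1 := by
  apply F.cf
  intro g
  obtain ⟨k, hk, e⟩ := F.exists_r g
  have : g⁻¹ * x * g = k⁻¹ * ((F.r g)⁻¹ * x * F.r g) * k := by
    conv_lhs => rw [e]
    group
  rw [this, F.conjH (h g) hk]; exact h g

theorem cf_l {x : G} (h : ∀ y, (F.l y)⁻¹ * x * F.l y ∈ F.H) : x = 1 := by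
  apply F.cf
  intro g
  obtain ⟨k, hk, e⟩ := F.exists_l g
  have : g⁻¹ * x * g = k⁻¹ * ((F.l g)⁻¹ * x * F.l g) * k := by
    conv_lhs => rw [e]
    group
  rw [this, F.conjH (h g) hk]; exact h g

theorem central_of_cm {v : G} (h : ∀ x, cm v x ∈ F.H) (x : G) : cm v x = 1 := by
  apply F.cf
  intro g
  have : g⁻¹ * cm v x * g = (cm v g)⁻¹ * cm v (x * g) := by rw [cm_mul_right]; group
  rw [this]
  exact F.H.mul_mem (F.H.inv_mem (h g)) (h _)

theorem l_central {g : G} (hn : ∀ h ∈ F.H, cm (F.l g) h ∈ F.H) (x : G) : cm (F.l g) x = 1 := by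
  apply F.central_of_cm
  intro x
  obtain ⟨k, hk, e⟩ := F.exists_r x
  rw [e, cm_mul_right, F.conjH (F.lr _ _) hk]
  exact F.H.mul_mem (hn k hk) (F.lr _ _)

theorem r_central {g : G} (hn : ∀ h ∈ F.H, cm (F.r g) h ∈ F.H) (x : G) : cm (F.r g) x = 1 := by
  apply F.central_of_cm
  intro x
  obtain ⟨k, hk, e⟩ := F.exists_l x
  have h1 : cm (F.r g) (F.l x) ∈ F.H := by rw [← cm_inv]; exact F.H.inv_mem (F.lr _ _)
  rw [e, cm_mul_right, F.conjH h1 hk]
  exact F.H.mul_mem (hn k hk) h1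

theorem central_H {z : G} (hz : ∀ x, cm z x = 1) (hH : z ∈ F.H) : z = 1 :=
  F.cf z fun g => by rw [conj_of_cm (hz g)]; exact hH

theorem l_of_central {z : G} (hz : ∀ x, cm z x = 1) : F.l z = z := by
  obtain ⟨k, hk, e⟩ := F.exists_l z
  have e' : F.l z = z * k⁻¹ := by rw [eq_mul_inv_iff_mul_eq]; exact e.symm
  have h1 : ∀ x, cm (F.l z) x = 1 := F.l_central fun h hh => by
    rw [e', cm_mul_left, hz, F.comm (F.H.inv_mem hk) hh]; simp
  have h2 : k = 1 := by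
    apply F.central_H _ hk
    intro x
    have := hz x
    rw [e, cm_mul_left, h1] at this
    simpa using this
  rw [e', h2]; simp

theorem r_of_central {z : G} (hz : ∀ x, cm z x = 1) : F.r z = z := by
  obtain ⟨k, hk, e⟩ := F.exists_r z
  have e' : F.r z = z * k⁻¹ := by rw [eq_mul_inv_iff_mul_eq]; exact e.symm
  have h1 : ∀ x, cm (F.r z) x = 1 := F.r_central fun h hh => by
    rw [e', cm_mul_left, hz, F.comm (F.H.inv_mem hk) hh]; simp
  have h2 : k = 1 := by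
    apply F.central_H _ hk
    intro x
    have := hz x
    rw [e, cm_mul_left, h1] at this
    simpa using this
  rw [e', h2]; simp

theorem l_mul_central (g : G) {z : G} (hz : ∀ x, cm z x = 1) : F.l (g * z) = F.l g * z := by
  have hzc : ∀ x, z * x = x * z := fun x => cm_eq_one.mp (hz x)
  have hd : (F.l (g * z))⁻¹ * (F.l g * z) ∈ F.H := by
    have : (F.l (g * z))⁻¹ * (F.l g * z) = (F.l (g * z))⁻¹ * (g * z) * ((F.l g)⁻¹ * g)⁻¹ := by
      rw [mul_assoc _ (g * z), mul_assoc g z, hzc]; group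
    rw [this]; exact F.H.mul_mem (F.lH _) (F.H.inv_mem (F.lH _))
  have : (F.l (g * z))⁻¹ * (F.l g * z) = 1 := by
    apply F.cf_r
    intro y
    have e : (F.r y)⁻¹ * ((F.l (g * z))⁻¹ * (F.l g * z)) * F.r y =
        (cm (F.l (g * z)) (F.r y))⁻¹ * ((F.l (g * z))⁻¹ * (F.l g * z)) * cm (F.l g) (F.r y) := by
      have a1 : (F.r y)⁻¹ * ((F.l (g * z))⁻¹ * (F.l g * z)) * F.r y
        = (F.r y)⁻¹ * (F.l (g * z))⁻¹ * F.l g * (z * F.r y) := by group
      have a2 : (cm (F.l (g * z)) (F.r y))⁻¹ * ((F.l (g * z))⁻¹ * (F.l g * z)) * cm (F.l g) (F.r y)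
        = (cm (F.l (g * z)) (F.r y))⁻¹ * (F.l (g * z))⁻¹ * F.l g * (z * cm (F.l g) (F.r y)) := by
        group
      rw [a1, a2, hzc, hzc]; simp only [cm]; group
    rw [e]
    exact F.H.mul_mem (F.H.mul_mem (F.H.inv_mem (F.lr _ _)) hd) (F.lr _ _)
  exact inv_mul_eq_one.mp this

theorem r_mul_central (g : G) {z : G} (hz : ∀ x, cm z x = 1) : F.r (g * z) = F.r g * z := by
  have hzc : ∀ x, z * x = x * z := fun x => cm_eq_one.mp (hz x)
  have hd : (F.r (g * z))⁻¹ * (F.r g * z) ∈ F.H := by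
    have : (F.r (g * z))⁻¹ * (F.r g * z) = (F.r (g * z))⁻¹ * (g * z) * ((F.r g)⁻¹ * g)⁻¹ := by
      rw [mul_assoc _ (g * z), mul_assoc g z, hzc]; group
    rw [this]; exact F.H.mul_mem (F.rH _) (F.H.inv_mem (F.rH _))
  have : (F.r (g * z))⁻¹ * (F.r g * z) = 1 := by
    apply F.cf_l
    intro y
    have e : (F.l y)⁻¹ * ((F.r (g * z))⁻¹ * (F.r g * z)) * F.l y =
        cm (F.l y) (F.r (g * z)) * ((F.r (g * z))⁻¹ * (F.r g * z)) * (cm (F.l y) (F.r g))⁻¹ := by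
      have a1 : (F.l y)⁻¹ * ((F.r (g * z))⁻¹ * (F.r g * z)) * F.l y
        = (F.l y)⁻¹ * (F.r (g * z))⁻¹ * F.r g * (z * F.l y) := by group
      have a2 : cm (F.l y) (F.r (g * z)) * ((F.r (g * z))⁻¹ * (F.r g * z)) * (cm (F.l y) (F.r g))⁻¹
        = cm (F.l y) (F.r (g * z)) * (F.r (g * z))⁻¹ * F.r g * (z * (cm (F.l y) (F.r g))⁻¹) := by
        group
      rw [a1, a2, hzc, hzc]; simp only [cm]; group
    rw [e]
    exact F.H.mul_mem (F.H.mul_mem (F.lr _ _) hd) (F.H.inv_mem (F.lr _ _))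
  exact inv_mul_eq_one.mp this

/-- products of an element of `H` and a central element -/
def HZ : Subgroup G where
  carrier := {x | ∃ h ∈ F.H, ∃ z, (∀ y, cm z y = 1) ∧ x = h * z}
  one_mem' := ⟨1, F.H.one_mem, 1, by simp, by simp⟩
  mul_mem' := by
    rintro _ _ ⟨h, hh, z, hz, rfl⟩ ⟨h', hh', z', hz', rfl⟩
    refine ⟨h * h', F.H.mul_mem hh hh', z * z', fun y => ?_, ?_⟩
    · rw [cm_mul_left, hz, hz']; simp
    · rw [mul_assoc, ← mul_assoc z, cm_eq_one.mp (hz h')]; group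
  inv_mem' := by
    rintro _ ⟨h, hh, z, hz, rfl⟩
    refine ⟨h⁻¹, F.H.inv_mem hh, z⁻¹, fun y => ?_, ?_⟩
    · have := cm_eq_one.mp (hz y)
      apply cm_eq_one.mpr
      rw [inv_mul_eq_iff_eq_mul, ← mul_assoc, this]; group
    · rw [← cm_eq_one.mp (hz h)]; group

theorem mem_HZ {x : G} : x ∈ F.HZ ↔ ∃ h ∈ F.H, ∃ z, (∀ y, cm z y = 1) ∧ x = h * z := Iff.rfl

/-- the kernel of the action on the loop modulo its centre -/
def C : Subgroup G := F.HZ.normalCore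

instance C_normal : F.C.Normal := Subgroup.normalCore_normal _

theorem mem_C {x : G} : x ∈ F.C ↔ ∀ g, g⁻¹ * x * g ∈ F.HZ := by
  constructor
  · intro h g; simpa using h g⁻¹
  · intro h g; simpa using h g⁻¹

theorem C_le_HZ {x : G} (hx : x ∈ F.C) : x ∈ F.HZ := F.HZ.normalCore_le hx

theorem central_mem_C {z : G} (hz : ∀ y, cm z y = 1) : z ∈ F.C :=
  F.mem_C.mpr fun g => ⟨1, F.H.one_mem, z, hz, by rw [conj_of_cm (hz g), one_mul]⟩

theorem HZ_comm {x y : G} (hx : x ∈ F.HZ) (hy : y ∈ F.HZ) : cm x y = 1 := by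
  obtain ⟨h, hh, z, hz, rfl⟩ := hx
  obtain ⟨h', hh', z', hz', rfl⟩ := hy
  rw [cm_mul_left, hz, cm_mul_right, cm_one_symm (hz' h), F.comm hh hh']; simp

theorem H_le_HZ {h : G} (hh : h ∈ F.H) : h ∈ F.HZ := ⟨h, hh, 1, by simp, by simp⟩

theorem l_HZ {x : G} (hx : x ∈ F.HZ) : (∀ y, cm (F.l x) y = 1) ∧ F.r x = F.l x := by
  obtain ⟨h, hh, z, hz, rfl⟩ := hx
  have e : z⁻¹ * (h * z) ∈ F.H := by rw [← mul_assoc, conj_of_cm (cm_one_symm (hz h))]; exact hh
  rw [← F.l_congr e, ← F.r_congr e, F.l_of_central hz, F.r_of_central hz]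
  exact ⟨hz, rfl⟩

theorem K_induction {p : G → Prop} (hH : ∀ h ∈ F.H, ∀ g, p (g⁻¹ * h * g)) (h1 : p 1)
    (hmul : ∀ x ∈ F.K, ∀ y ∈ F.K, p x → p y → p (x * y)) (hinv : ∀ x ∈ F.K, p x → p x⁻¹) :
    ∀ k ∈ F.K, p k := by
  intro k hk
  induction hk using Subgroup.closure_induction with
  | mem x hx =>
    obtain ⟨h, hh, hc⟩ := Group.mem_conjugatesOfSet_iff.mp hx
    obtain ⟨c, rfl⟩ := isConj_iff.mp hc
    simpa using hH h hh c⁻¹
  | one => exact h1
  | mul x y hx hy a b => exact hmul x hx y hy a b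
  | inv x hx a => exact hinv x hx a

theorem C_comm_K {x k : G} (hx : x ∈ F.C) (hk : k ∈ F.K) : cm x k = 1 := by
  refine F.K_induction (p := fun k => cm x k = 1) ?_ ?_ ?_ ?_ k hk
  · intro h hh g
    have := F.HZ_comm (F.mem_C.mp hx g⁻¹) (F.H_le_HZ hh)
    have e : cm x (g⁻¹ * h * g) = g⁻¹ * cm (g⁻¹⁻¹ * x * g⁻¹) h * g := by simp only [cm]; group
    rw [e, this]; simp
  · simp
  · intro a _ b _ ha hb; rw [cm_mul_right, ha, hb]; simp
  · intro a _ ha
    have e : cm x a⁻¹ = a * (cm x a)⁻¹ * a⁻¹ := by simp only [cm]; group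
    rw [e, ha]; simp

theorem l_mem_K {k : G} (hk : k ∈ F.K) : F.l k ∈ F.K := by
  obtain ⟨h, hh, e⟩ := F.exists_l k
  have : F.l k = k * h⁻¹ := by rw [eq_mul_inv_iff_mul_eq]; exact e.symm
  rw [this]; exact F.K.mul_mem hk (F.K.inv_mem (F.H_le_K hh))

theorem mem_C_of_comm {k : G} (hc : ∀ k' ∈ F.K, cm k k' = 1) : k ∈ F.C := by
  apply F.mem_C.mpr
  intro g
  have h1 : ∀ h ∈ F.H, cm (g⁻¹ * k * g) h = 1 := by
    intro h hh
    have := hc _ (conj_mem' F.K_normal (F.H_le_K hh) g⁻¹)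
    have e : cm (g⁻¹ * k * g) h = g⁻¹ * cm k (g⁻¹⁻¹ * h * g⁻¹) * g := by simp only [cm]; group
    rw [e, this]; simp
  generalize g⁻¹ * k * g = x at h1
  obtain ⟨h, hh, e⟩ := F.exists_l x
  have e' : F.l x = x * h⁻¹ := by rw [eq_mul_inv_iff_mul_eq]; exact e.symm
  have h2 := F.l_central (g := x) fun h' hh' => by
    rw [e', cm_mul_left, h1 h' hh', F.comm (F.H.inv_mem hh) hh']; simp
  exact ⟨h, hh, F.l x, h2, by rw [← cm_eq_one.mp (h2 h)]; exact e⟩

theorem t_mem (g : G) : (F.r g)⁻¹ * F.l g ∈ F.H := by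
  have : (F.r g)⁻¹ * F.l g = (F.r g)⁻¹ * g * ((F.l g)⁻¹ * g)⁻¹ := by group
  rw [this]; exact F.H.mul_mem (F.rH _) (F.H.inv_mem (F.lH _))

theorem cm_mem_K (x y : G) : cm x y ∈ F.K := by
  rw [← QuotientGroup.eq_one_iff]
  change QuotientGroup.mk' F.K (cm x y) = 1
  obtain ⟨h, hh, e⟩ := F.exists_l x
  obtain ⟨h', hh', e'⟩ := F.exists_r y
  have a : QuotientGroup.mk' F.K h = 1 := (QuotientGroup.eq_one_iff _).mpr (F.H_le_K hh)
  have a' : QuotientGroup.mk' F.K h' = 1 := (QuotientGroup.eq_one_iff _).mpr (F.H_le_K hh')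
  rw [map_cm, e, e', map_mul, map_mul, a, a', mul_one, mul_one, ← map_cm]
  exact (QuotientGroup.eq_one_iff _).mpr (F.H_le_K (F.lr _ _))

/-- the projection to the quotient -/
abbrev π : G →* G ⧸ F.C := QuotientGroup.mk' F.C

theorem π_eq_one {x : G} : F.π x = 1 ↔ x ∈ F.C := QuotientGroup.eq_one_iff _

theorem mem_map_iff {x : G} : F.π x ∈ F.H.map F.π ↔ x ∈ F.HZ := by
  constructor
  · rintro ⟨h, hh, e⟩
    have : h⁻¹ * x ∈ F.C := QuotientGroup.eq.mp e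
    have := F.HZ.mul_mem (F.H_le_HZ hh) (F.C_le_HZ this)
    simpa using this
  · rintro ⟨h, hh, z, hz, rfl⟩
    refine ⟨h, hh, ?_⟩
    rw [map_mul, F.π_eq_one.mpr (F.central_mem_C hz), mul_one]

theorem l_congr' {g g' : G} (h : g⁻¹ * g' ∈ F.HZ) : F.π (F.l g) = F.π (F.l g') := by
  obtain ⟨h, hh, z, hz, e⟩ := h
  have e' : g' = g * h * z := by rw [mul_assoc, ← e]; group
  rw [e', F.l_mul_central _ hz, map_mul, F.π_eq_one.mpr (F.central_mem_C hz), mul_one,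
    F.l_congr (g := g) (g' := g * h) (by simpa using hh)]

theorem r_congr' {g g' : G} (h : g⁻¹ * g' ∈ F.HZ) : F.π (F.r g) = F.π (F.r g') := by
  obtain ⟨h, hh, z, hz, e⟩ := h
  have e' : g' = g * h * z := by rw [mul_assoc, ← e]; group
  rw [e', F.r_mul_central _ hz, map_mul, F.π_eq_one.mpr (F.central_mem_C hz), mul_one,
    F.r_congr (g := g) (g' := g * h) (by simpa using hh)]

theorem out_mem (g : G) : (F.π g).out⁻¹ * g ∈ F.HZ := by
  apply F.C_le_HZ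
  apply QuotientGroup.eq.mp
  exact QuotientGroup.out_eq' _

theorem π_surj (q : G ⧸ F.C) : ∃ g, F.π g = q := QuotientGroup.mk'_surjective _ q

/-- the folder of the loop modulo its centre -/
noncomputable def quot : Folder (G ⧸ F.C) where
  H := F.H.map F.π
  l := fun q => F.π (F.l q.out)
  r := fun q => F.π (F.r q.out)
  comm := by
    rintro _ _ ⟨a, ha, rfl⟩ ⟨b, hb, rfl⟩
    rw [← map_cm, F.comm ha hb, map_one]
  lH := by
    intro q
    obtain ⟨g, rfl⟩ := F.π_surj q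
    rw [F.l_congr' (F.out_mem g), ← map_inv, ← map_mul]
    exact ⟨_, F.lH g, rfl⟩
  rH := by
    intro q
    obtain ⟨g, rfl⟩ := F.π_surj q
    rw [F.r_congr' (F.out_mem g), ← map_inv, ← map_mul]
    exact ⟨_, F.rH g, rfl⟩
  l_congr := by
    intro q q' h
    obtain ⟨g, rfl⟩ := F.π_surj q
    obtain ⟨g', rfl⟩ := F.π_surj q'
    rw [← map_inv, ← map_mul, F.mem_map_iff] at h
    rw [F.l_congr' (F.out_mem g), F.l_congr' (F.out_mem g'), F.l_congr' h]
  r_congr := by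
    intro q q' h
    obtain ⟨g, rfl⟩ := F.π_surj q
    obtain ⟨g', rfl⟩ := F.π_surj q'
    rw [← map_inv, ← map_mul, F.mem_map_iff] at h
    rw [F.r_congr' (F.out_mem g), F.r_congr' (F.out_mem g'), F.r_congr' h]
  l_one := by
    have := F.l_congr' (F.out_mem 1)
    rwa [map_one, F.l_one, map_one] at this
  r_one := by
    have := F.r_congr' (F.out_mem 1)
    rwa [map_one, F.r_one, map_one] at this
  lr := fun q q' => ⟨_, F.lr _ _, by rw [map_cm]⟩
  gen := by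
    rw [eq_top_iff]
    intro q _
    obtain ⟨g, rfl⟩ := F.π_surj q
    have hg : g ∈ Subgroup.closure (Set.range F.l ∪ Set.range F.r) := by rw [F.gen]; trivial
    induction hg using Subgroup.closure_induction with
    | mem x hx =>
      apply Subgroup.subset_closure
      rcases hx with ⟨y, rfl⟩ | ⟨y, rfl⟩
      · exact Or.inl ⟨F.π y, F.l_congr' (F.out_mem y)⟩
      · exact Or.inr ⟨F.π y, F.r_congr' (F.out_mem y)⟩
    | one => rw [map_one]; exact Subgroup.one_mem _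
    | mul x y _ _ a b => rw [map_mul]; exact Subgroup.mul_mem _ (a trivial) (b trivial)
    | inv x _ a => rw [map_inv]; exact Subgroup.inv_mem _ (a trivial)
  cf := by
    intro q h
    obtain ⟨x, rfl⟩ := F.π_surj q
    rw [F.π_eq_one, F.mem_C]
    intro g
    rw [← F.mem_map_iff, map_mul, map_mul, map_inv]
    exact h _

theorem quot_l (g : G) : F.quot.l (F.π g) = F.π (F.l g) := F.l_congr' (F.out_mem g)
theorem quot_r (g : G) : F.quot.r (F.π g) = F.π (F.r g) := F.r_congr' (F.out_mem g)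
theorem quot_H {g : G} : F.π g ∈ F.quot.H ↔ g ∈ F.HZ := F.mem_map_iff
theorem quot_H' {g : G} (h : g ∈ F.H) : F.π g ∈ F.quot.H := ⟨g, h, rfl⟩

theorem quot_K {k : G} (hk : k ∈ F.K) : F.π k ∈ F.quot.K := by
  refine F.K_induction (p := fun k => F.π k ∈ F.quot.K) ?_ ?_ ?_ ?_ k hk
  · intro h hh g
    rw [map_mul, map_mul, map_inv]
    exact conj_mem' F.quot.K_normal (F.quot.H_le_K (F.quot_H' hh)) _
  · rw [map_one]; exact Subgroup.one_mem _
  · intro a _ b _ ha hb; rw [map_mul]; exact Subgroup.mul_mem _ ha hb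
  · intro a _ ha; rw [map_inv]; exact Subgroup.inv_mem _ ha

theorem quot_K_surj {q : G ⧸ F.C} (hq : q ∈ F.quot.K) : ∃ k ∈ F.K, F.π k = q := by
  refine F.quot.K_induction (p := fun q => ∃ k ∈ F.K, F.π k = q) ?_ ?_ ?_ ?_ q hq
  · rintro _ ⟨h, hh, rfl⟩ g
    obtain ⟨g, rfl⟩ := F.π_surj g
    exact ⟨_, conj_mem' F.K_normal (F.H_le_K hh) g, by simp⟩
  · exact ⟨1, F.K.one_mem, map_one _⟩
  · rintro _ _ _ _ ⟨a, ha, rfl⟩ ⟨b, hb, rfl⟩
    exact ⟨a * b, F.K.mul_mem ha hb, map_mul _ _ _⟩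
  · rintro _ _ ⟨a, ha, rfl⟩
    exact ⟨a⁻¹, F.K.inv_mem ha, map_inv _ _⟩

end Folder

end H324Z.A4
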