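import Pool.Agent.H324Z.A4.Folder

set_option autoImplicit false

namespace H324Z.A4

variable {G : Type} [Group G]

namespace Folder

variable (F : Folder G)

/-- the kernel of the action on the loop modulo its second centre -/
noncomputable def C2 : Subgroup G := F.quot.C.comap F.π

instance C2_normal : F.C2.Normal := Subgroup.Normal.comap F.quot.C_normal _

theorem mem_C2 {x : G} : x ∈ F.C2 ↔ F.π x ∈ F.quot.C := Iff.rfl

theorem C2_comm_K {x k : G} (hx : x ∈ F.C2) (hk : k ∈ F.K) : cm x k ∈ F.C := by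
  rw [← F.π_eq_one, map_cm]; exact F.quot.C_comm_K hx (F.quot_K hk)

theorem mem_C2_of {k : G} (h : ∀ k' ∈ F.K, cm k k' ∈ F.C) : k ∈ F.C2 := by
  apply F.quot.mem_C_of_comm
  intro q hq
  obtain ⟨k', hk', rfl⟩ := F.quot_K_surj hq
  rw [← map_cm, F.π_eq_one]; exact h k' hk'

theorem C_le_C2 {x : G} (hx : x ∈ F.C) : x ∈ F.C2 := by
  rw [mem_C2, F.π_eq_one.mpr hx]; exact Subgroup.one_mem _

theorem l_C2_central {x : G} (hx : x ∈ F.C2) (q : G ⧸ F.C) : cm (F.π (F.l x)) q = 1 := by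
  rw [← F.quot_l]; exact (F.quot.l_HZ (F.quot.C_le_HZ hx)).1 q

theorem l_C2 {x : G} (hx : x ∈ F.C2) (g : G) : cm (F.l x) g ∈ F.C := by
  rw [← F.π_eq_one, map_cm]; exact F.l_C2_central hx _

theorem r_eq_l_C2 {x : G} (hx : x ∈ F.C2) : F.π (F.r x) = F.π (F.l x) := by
  rw [← F.quot_l, ← F.quot_r]; exact (F.quot.l_HZ (F.quot.C_le_HZ hx)).2

theorem l_mul_C2 {x x' : G} (hx : x ∈ F.C2) (hx' : x' ∈ F.C2) :
    (F.l x * F.l x')⁻¹ * F.l (x * x') ∈ F.C := by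
  apply QuotientGroup.eq.mp
  change F.π _ = F.π _
  rw [map_mul, ← F.quot_l, ← F.quot_l, ← F.quot_l, map_mul]
  obtain ⟨h, hh, z, hz, e⟩ := F.quot.C_le_HZ hx
  obtain ⟨h', hh', z', hz', e'⟩ := F.quot.C_le_HZ hx'
  have a : ∀ h ∈ F.quot.H, ∀ z, (∀ y, cm z y = 1) → F.quot.l (h * z) = z := by
    intro h hh z hz
    rw [F.quot.l_mul_central _ hz, ← F.quot.l_congr (g := 1) (by simpa using hh), F.quot.l_one,
      one_mul]
  have b : h * z * (h' * z') = h * h' * (z * z') := by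
    rw [mul_assoc, ← mul_assoc z, cm_eq_one.mp (hz h')]; group
  rw [e, e', b, a h hh z hz, a h' hh' z' hz', a _ (F.quot.H.mul_mem hh hh')]
  intro y; rw [cm_mul_left, hz, hz']; simp

theorem l_comm_l {x k : G} (hx : x ∈ F.C2) (hk : k ∈ F.K) : cm (F.l x) (F.l k) = 1 := by
  have hb := F.l_mem_K hk
  set ν := F.l x with hν
  set β := F.l k with hβ
  set ν' := F.r x with hν'
  have ht : ν'⁻¹ * ν ∈ F.H := F.t_mem x
  have htC : ν'⁻¹ * ν ∈ F.C := QuotientGroup.eq.mp (F.r_eq_l_C2 hx)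
  have key : (ν * β)⁻¹ * (β * ν) = 1 := by
    apply F.cf_r
    intro y
    set ρ := F.r y with hρ
    have he : cm ν ρ ∈ F.H := F.lr _ _
    have heC : cm ν ρ ∈ F.C := F.l_C2 hx _
    have hd : (F.r (ρ * ν'))⁻¹ * (ρ * ν') ∈ F.H := F.rH _
    have hdC : (F.r (ρ * ν'))⁻¹ * (ρ * ν') ∈ F.C := by
      apply QuotientGroup.eq.mp
      change F.π _ = F.π _
      rw [← F.quot_r, map_mul, hν', F.r_eq_l_C2 hx, F.quot.r_mul_central _ (F.l_C2_central hx),
        F.quot_r]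
      congr 2
      apply F.r_congr
      exact F.rH y
    set ρ3 := F.r (ρ * ν') with hρ3
    set d := ρ3⁻¹ * (ρ * ν') with hdd
    set t := ν'⁻¹ * ν with htt
    have hc3 : cm β ρ3 ∈ F.H := F.lr _ _
    have hc1 : cm β ρ ∈ F.H := F.lr _ _
    have c1 := cm_eq_one.mp (F.C_comm_K heC hb)
    have c2 := cm_eq_one.mp (F.C_comm_K hdC hb)
    have c3 := cm_eq_one.mp (F.C_comm_K htC hb)
    have eν : ν = ν' * t := by rw [htt]; group
    have e3 : ρ * ν' = ρ3 * d := by rw [hdd]; group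
    have A : β * ν * ρ = ρ3 * β * (cm β ρ3 * d * t * cm ν ρ) := by
      calc β * ν * ρ = β * (ρ * ν * cm ν ρ) := by rw [mul_assoc, mul_eq_cm ν ρ]
        _ = β * (ρ * (ν' * t) * cm ν ρ) := by rw [← eν]
        _ = β * (ρ * ν') * t * cm ν ρ := by group
        _ = (β * ρ3) * d * t * cm ν ρ := by rw [e3]; group
        _ = _ := by rw [mul_eq_cm β ρ3]; group
    have B : ν * β * ρ = ρ3 * β * (d * t * cm ν ρ * cm β ρ) := by
      calc ν * β * ρ = (ν * ρ) * β * cm β ρ := by rw [mul_assoc, mul_eq_cm β ρ]; group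
        _ = ρ * ν * (cm ν ρ * β) * cm β ρ := by rw [mul_eq_cm ν ρ]; group
        _ = ρ * (ν' * t) * (β * cm ν ρ) * cm β ρ := by rw [c1, ← eν]
        _ = (ρ * ν') * (t * β) * cm ν ρ * cm β ρ := by group
        _ = ρ3 * (d * β) * t * cm ν ρ * cm β ρ := by rw [e3, c3]; group
        _ = _ := by rw [c2]; group
    have : ρ⁻¹ * ((ν * β)⁻¹ * (β * ν)) * ρ = (ν * β * ρ)⁻¹ * (β * ν * ρ) := by group
    rw [this, A, B]
    have : (ρ3 * β * (d * t * cm ν ρ * cm β ρ))⁻¹ * (ρ3 * β * (cm β ρ3 * d * t * cm ν ρ))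
      = (d * t * cm ν ρ * cm β ρ)⁻¹ * (cm β ρ3 * d * t * cm ν ρ) := by group
    rw [this]
    exact F.H.mul_mem (F.H.inv_mem (F.H.mul_mem (F.H.mul_mem (F.H.mul_mem hd ht) he) hc1))
      (F.H.mul_mem (F.H.mul_mem (F.H.mul_mem hc3 hd) ht) he)
  exact cm_eq_one.mpr (inv_mul_eq_one.mp key)

theorem key {x k : G} (hxK : x ∈ F.K) (hx : x ∈ F.C2) (hk : k ∈ F.K) (a b : G) :
    cm (cm x a) (cm k b) = 1 := by
  obtain ⟨Y⟩ := exists_sec F.C ⊥ F.C_normal inferInstance (fun x hx y hy => by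
    rw [F.HZ_comm (F.C_le_HZ hx) (F.C_le_HZ hy)]; exact Subgroup.one_mem _)
  have nK := F.K_normal
  have n2 := F.C2_normal
  let f : G → G → Y.M := fun x k => Y.p (cm x k)
  have fL : ∀ x ∈ F.C2, ∀ x' ∈ F.C2, x' ∈ F.K → ∀ k ∈ F.K, f (x * x') k = f x k + f x' k := by
    intro x hx x' hx' hx'K k hk
    simp only [f]
    rw [cm_mul_left, conj_of_cm (F.C_comm_K (F.C2_comm_K hx hk) hx'K),
      Y.p_mul (F.C2_comm_K hx hk) (F.C2_comm_K hx' hk)]
  have fR : ∀ x ∈ F.C2, ∀ k ∈ F.K, ∀ k' ∈ F.K, f x (k * k') = f x k + f x k' := by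
    intro x hx k hk k' hk'
    simp only [f]
    rw [cm_mul_right, conj_of_cm (F.C_comm_K (F.C2_comm_K hx hk) hk'),
      Y.p_mul (F.C2_comm_K hx hk') (F.C2_comm_K hx hk), add_comm]
  have f1 : ∀ x k, cm x k = 1 → f x k = 0 := by
    intro x k h; simp only [f]; rw [h, Y.p_one]
  have fRi : ∀ x ∈ F.C2, ∀ k ∈ F.K, f x k⁻¹ = - f x k := by
    intro x hx k hk
    have := fR x hx k hk k⁻¹ (F.K.inv_mem hk)
    rw [mul_inv_cancel, f1 x 1 (by simp)] at this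
    exact eq_neg_of_add_eq_zero_right this.symm
  have fc : ∀ x ∈ F.C2, ∀ k ∈ F.K, ∀ g, f x (cm k g) = f x (g⁻¹ * k * g) - f x k := by
    intro x hx k hk g
    rw [conj_eq, fR x hx k hk _ (cm_mem_left nK hk g)]; abel
  have fK : ∀ x ∈ F.C2, ∀ k ∈ F.K, ∀ g ∈ F.K, f x (g⁻¹ * k * g) = f x k := by
    intro x hx k hk g hg
    rw [fR x hx _ (F.K.mul_mem (F.K.inv_mem hg) hk) _ hg, fR x hx _ (F.K.inv_mem hg) _ hk,
      fRi x hx g hg]; abel
  have fA : ∀ x ∈ F.C2, ∀ k ∈ F.K, ∀ g, Y.act g (f x k) = f (g⁻¹ * x * g) (g⁻¹ * k * g) := by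
    intro x hx k hk g
    simp only [f]; rw [Y.act_p g (F.C2_comm_K hx hk), cm_conj]
  have lC2 : ∀ x ∈ F.C2, F.l x ∈ F.C2 := fun x hx =>
    F.mem_C2_of fun k _ => F.l_C2 hx k
  have fC : ∀ x ∈ F.C2, ∀ c ∈ F.C, c ∈ F.K → ∀ k ∈ F.K, f (x * c) k = f x k := by
    intro x hx c hc hcK k hk
    rw [fL x hx c (F.C_le_C2 hc) hcK k hk, f1 c k (F.C_comm_K hc hk), add_zero]
  have hα : ∀ x ∈ F.C2, x ∈ F.K → ∀ k ∈ F.K, ∀ g,
      Y.act g (f (F.l x) k) = f (F.l x) (g⁻¹ * k * g) := by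
    intro x hx hxK k hk g
    rw [fA _ (lC2 x hx) _ hk, conj_eq (F.l x), fC _ (lC2 x hx) _ (F.l_C2 hx g)
      (cm_mem_left nK (F.l_mem_K hxK) g) _ (conj_mem' nK hk g)]
  have split : ∀ x ∈ F.C2, x ∈ F.K → ∀ k ∈ F.K, f x k = f (F.l x) k + f ((F.l x)⁻¹ * x) k := by
    intro x hx hxK k hk
    rw [← fL _ (lC2 x hx) _ (F.C2.mul_mem (F.C2.inv_mem (lC2 x hx)) hx) (F.H_le_K (F.lH x)) k hk]
    simp
  have hdec : ∀ x ∈ F.C2, x ∈ F.K → ∀ k ∈ F.K, f x k = f (F.l x) k + f x (F.l k) := by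
    intro x hx hxK k hk
    have h0 : (F.l x)⁻¹ * x ∈ F.C2 := F.C2.mul_mem (F.C2.inv_mem (lC2 x hx)) hx
    rw [split x hx hxK k hk, split x hx hxK _ (F.l_mem_K hk), f1 _ _ (F.l_comm_l hx hk), zero_add]
    congr 1
    obtain ⟨h, hh, e⟩ := F.exists_l k
    conv_lhs => rw [e]
    rw [fR _ h0 _ (F.l_mem_K hk) _ (F.H_le_K hh), f1 _ _ (F.comm (F.lH x) hh), add_zero]
  have hβ0 : ∀ x ∈ F.C2, x ∈ F.K → ∀ k ∈ F.K, ∀ g, f x (g⁻¹ * F.l k * g) = f x (F.l k) := by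
    intro x hx hxK k hk g
    obtain ⟨h, hh, e⟩ := F.exists_r g
    have hl := F.l_mem_K hk
    have : g⁻¹ * F.l k * g = h⁻¹ * ((F.r g)⁻¹ * F.l k * F.r g) * h := by
      conv_lhs => rw [e]
      group
    rw [this, fK x hx _ (conj_mem' nK hl _) h (F.H_le_K hh), conj_eq,
      fR x hx _ hl _ (F.H_le_K (F.lr _ _)), split x hx hxK _ (F.H_le_K (F.lr _ _)),
      f1 _ _ (F.comm (F.lH x) (F.lr _ _)), fc _ (lC2 x hx) _ hl, ← hα x hx hxK _ hl,
      f1 _ _ (F.l_comm_l hx hk)]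
    simp
  have hβ : ∀ x ∈ F.C2, x ∈ F.K → ∀ k ∈ F.K, ∀ g,
      Y.act g (f x (F.l k)) = f (g⁻¹ * x * g) (F.l k) := by
    intro x hx hxK k hk g
    rw [fA x hx _ (F.l_mem_K hk), hβ0 _ (conj_mem' n2 hx g) (conj_mem' nK hxK g) k hk]
  -- dependence of the two parts on conjugation by elements of `K`
  have hαK : ∀ x ∈ F.C2, x ∈ F.K → ∀ k ∈ F.K, ∀ g ∈ F.K,
      f x (F.l (g⁻¹ * k * g)) = f x (F.l k) := by
    intro x hx hxK k hk g hg
    have a1 := hdec x hx hxK k hk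
    have a2 := hdec x hx hxK _ (conj_mem' nK hk g)
    rw [fK x hx k hk g hg, fK _ (lC2 x hx) k hk g hg] at a2
    exact add_left_cancel (a2.symm.trans a1)
  let A : G → Y.M := fun a => f (F.l (a⁻¹ * x * a)) k
  let B : G → Y.M := fun b => f x (F.l (b⁻¹ * k * b))
  have fab : ∀ a b, f (a⁻¹ * x * a) (b⁻¹ * k * b) = Y.act b (A a) + Y.act a (B b) := by
    intro a b
    rw [hdec _ (conj_mem' n2 hx a) (conj_mem' nK hxK a) _ (conj_mem' nK hk b)]
    simp only [A, B]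
    rw [hα _ (conj_mem' n2 hx a) (conj_mem' nK hxK a) k hk, hβ x hx hxK _ (conj_mem' nK hk b)]
  have comm : ∀ a b m, Y.act (a * b) m = Y.act a (Y.act b m) := by
    intro a b m
    rw [mul_eq_cm a b, Y.act_mul, Y.act_mul, Y.act_triv]
    intro c hc
    rw [F.C_comm_K hc (F.cm_mem_K a b)]; exact Subgroup.one_mem _
  have eqv : ∀ b g, Y.act b (A g) + B (b * g) = Y.act b (A 1) + B b := by
    intro b g
    apply Y.act_inj g
    have e1 := fab g (b * g)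
    have e2 := fab 1 b
    have e3 := fA _ (conj_mem' n2 hx 1) _ (conj_mem' nK hk b) g
    have e4 : g⁻¹ * (1⁻¹ * x * 1) * g = g⁻¹ * x * g := by group
    have e5 : g⁻¹ * (b⁻¹ * k * b) * g = (b * g)⁻¹ * k * (b * g) := by group
    rw [e4, e5, e1, e2, Y.act_one, Y.act_mul] at e3
    rw [map_add, ← e3]
  have Bsym : ∀ b g, B (b * g) = B (g * b) := by
    intro b g
    simp only [B]
    rw [← hαK x hx hxK _ (conj_mem' nK hk (g * b)) _ (F.cm_mem_K b g)]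
    congr 2
    rw [mul_eq_cm b g]; group
  have fin : f (cm x a) (cm k b) = 0 := by
    have hca : cm x a ∈ F.C2 := cm_mem_left n2 hx a
    have s1 : ∀ k' ∈ F.K, f (cm x a) k' = f (a⁻¹ * x * a) k' - f x k' := by
      intro k' hk'
      rw [conj_eq, fL x hx _ hca (cm_mem_left nK hxK a) _ hk']; abel
    rw [fc _ hca k hk, s1 _ (conj_mem' nK hk b), s1 _ hk]
    have e1 := fab a b
    have e2 := fab 1 b
    have e3 := fab a 1
    have e4 := fab 1 1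
    simp only [inv_one, one_mul, mul_one, Y.act_one] at e2 e3 e4
    have q1 := eqv 1 a
    have q2 := eqv 1 b
    have q3 := eqv b a
    have q4 := eqv a b
    rw [Bsym a b] at q4
    simp only [one_mul, Y.act_one] at q1 q2
    have r1 := congrArg (Y.act b) q1
    have r2 := congrArg (Y.act a) q2
    have r3 := congrArg (Y.act a) q1
    simp only [map_add] at r1 r2 r3
    rw [e1, e2, e3, e4]
    linear_combination (norm := abel) q3 - q4 + r2 - q1 + q2 - q2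
  exact Subgroup.mem_bot.mp ((Y.p_eq_zero (F.C2_comm_K (cm_mem_left n2 hx a)
    (cm_mem_left nK hk b))).mp fin)

end Folder

end H324Z.A4
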