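import Pool.Agent.H324Z.A4.StepG

set_option autoImplicit false

namespace H324Z.A4

variable {Q : Type} (mul : Q → Q → Q)

/-- one step of the upper central series -/
def nxt (S : Set Q) : Set Q := {a | ∀ x y,
  (∃ n ∈ S, mul x a = mul (mul a x) n) ∧
  (∃ n ∈ S, mul a (mul x y) = mul (mul (mul a x) y) n) ∧
  (∃ n ∈ S, mul x (mul a y) = mul (mul (mul x a) y) n) ∧
  (∃ n ∈ S, mul x (mul y a) = mul (mul (mul x y) a) n)}

/-- the folder describes a quotient of the loop -/
structure Pres {G : Type} [Group G] (F : Folder G) (p : Q → G) : Prop where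
  div : ∀ a b, ∃ n, b = mul a n
  surj : ∀ g, ∃ x, (p x)⁻¹ * g ∈ F.H
  hom : ∀ x y, (p (mul x y))⁻¹ * (F.l (p x) * p y) ∈ F.H

variable {mul} {G : Type} [Group G] {F : Folder G} {p : Q → G}

namespace Pres

theorem quot (h : Pres mul F p) : Pres mul F.quot (fun x => F.π (p x)) where
  div := h.div
  surj := by
    intro q
    obtain ⟨g, rfl⟩ := F.π_surj q
    obtain ⟨x, hx⟩ := h.surj g
    exact ⟨x, by rw [← map_inv, ← map_mul]; exact F.quot_H' hx⟩
  hom := by
    intro x y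
    rw [F.quot_l, ← map_inv, ← map_mul, ← map_mul]; exact F.quot_H' (h.hom x y)

theorem sm (g k : G) : g • (k : G ⧸ F.H) = ((g * k : G) : G ⧸ F.H) := rfl

theorem cl (g : G) : ((F.l g : G) : G ⧸ F.H) = g := QuotientGroup.eq.mpr (F.lH g)
theorem cr (g : G) : ((F.r g : G) : G ⧸ F.H) = g := QuotientGroup.eq.mpr (F.rH g)

theorem homl (h : Pres mul F p) (x y : Q) :
    ((p (mul x y) : G) : G ⧸ F.H) = F.l (p x) • ((p y : G) : G ⧸ F.H) :=
  QuotientGroup.eq.mpr (h.hom x y)

theorem homr (h : Pres mul F p) (x y : Q) :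
    ((p (mul x y) : G) : G ⧸ F.H) = F.r (p y) • ((p x : G) : G ⧸ F.H) := by
  rw [h.homl, ← cr (p y), ← cl (p x), sm, sm]
  symm
  apply QuotientGroup.eq.mpr
  have := F.lr (p x) (p y)
  simpa only [cm, mul_inv_rev, mul_assoc] using this

theorem rel (h : Pres mul F p) (a b : Q) :
    (∃ n ∈ {x | p x ∈ F.H}, b = mul a n) ↔ ((p b : G) : G ⧸ F.H) = p a := by
  have key : ∀ n, ((p (mul a n) : G) : G ⧸ F.H) = p a ↔ p n ∈ F.H := by
    intro n
    rw [h.homl, ← cl (p a), sm, eq_comm, QuotientGroup.eq]; simp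
  constructor
  · rintro ⟨n, hn, rfl⟩; exact (key n).mpr hn
  · intro e
    obtain ⟨n, rfl⟩ := h.div a b
    exact ⟨n, (key n).mp e, rfl⟩

theorem lc {g g' : G} (e : (g : G ⧸ F.H) = g') : F.l g = F.l g' := F.l_congr (QuotientGroup.eq.mp e)

theorem step (h : Pres mul F p) :
    nxt mul {x | p x ∈ F.H} = {x | F.π (p x) ∈ F.quot.H} := by
  ext a
  simp only [nxt, h.rel]
  simp only [Set.mem_ofPred_eq, F.quot_H]
  constructor
  · intro ha
    have fix : ∀ k ∈ F.H, k • ((p a : G) : G ⧸ F.H) = p a := by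
      refine F.H_induction (p := fun k => k • ((p a : G) : G ⧸ F.H) = p a) ?_ ?_ ?_ ?_ ?_ ?_
      · intro g
        obtain ⟨x, hx⟩ := h.surj g
        have := (ha x x).1
        rw [h.homl, h.homr, F.l_congr hx, F.r_congr hx] at this
        rw [Folder.t, mul_smul, this, inv_smul_smul]
      · intro g g'
        obtain ⟨x, hx⟩ := h.surj g
        obtain ⟨y, hy⟩ := h.surj g'
        have := (ha x y).2.2.1
        rw [h.homl, h.homr, h.homr, h.homl, F.l_congr hx, F.r_congr hy] at this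
        rw [Folder.c, cm, mul_smul, mul_smul, mul_smul, this, inv_smul_smul, inv_smul_smul]
      · intro g g'
        obtain ⟨x, hx⟩ := h.surj g
        obtain ⟨y, hy⟩ := h.surj g'
        have := (ha x y).2.2.2
        have e : F.l (p (mul x y)) = F.l (F.l g * F.l g') := by
          apply lc
          rw [h.homl, ← cl (p y), F.l_congr hx, F.l_congr hy, sm]
        rw [h.homl, h.homl, h.homl (mul x y), e, F.l_congr hx, F.l_congr hy] at this
        rw [Folder.d, mul_smul, mul_smul, this, inv_smul_smul]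
      · exact one_smul _ _
      · intro x _ y _ a b; rw [mul_smul, b, a]
      · intro x _ a; rw [inv_smul_eq_iff, a]
    have hc := F.l_central (g := p a) fun k hk => by
      have := fix k⁻¹ (F.H.inv_mem hk)
      rw [← cl (p a), sm, eq_comm, QuotientGroup.eq] at this
      have e : cm (F.l (p a)) k = (F.l (p a))⁻¹ * (k⁻¹ * F.l (p a)) * k := by simp only [cm]; group
      rw [e]; exact F.H.mul_mem this hk
    obtain ⟨k, hk, e⟩ := F.exists_l (p a)
    exact ⟨k, hk, _, hc, by rw [← cm_eq_one.mp (hc k)]; exact e⟩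
  · intro ha x y
    obtain ⟨hc, hr⟩ := F.l_HZ ha
    have hz : ∀ (g : G) (w : G ⧸ F.H), F.l (p a) • g • w = g • F.l (p a) • w := by
      intro g w; rw [← mul_smul, ← mul_smul, cm_eq_one.mp (hc g)]
    refine ⟨?_, ?_, ?_, ?_⟩
    · rw [h.homr, h.homl, hr]
    · rw [h.homl, h.homr, h.homr, h.homl, hz]
    · rw [h.homl, h.homl, h.homr (mul x a), h.homr x a, hr, ← hz, ← hz, ← h.homl, ← h.homr]
    · rw [h.homl, h.homr, h.homr, h.homl, hr, hz]

theorem H_triv (h : Pres mul F p) (hu : ∀ x, F.π (p x) ∈ F.quot.H) {k : G} (hk : k ∈ F.H) :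
    k = 1 := by
  have a1 : ∀ g, (∀ y, cm (F.l g) y = 1) ∧ F.r g = F.l g := by
    intro g
    obtain ⟨x, hx⟩ := h.surj g
    rw [← F.l_congr hx, ← F.r_congr hx]
    exact F.l_HZ (F.quot_H.mp (hu x))
  apply F.central_H _ hk
  intro g
  apply cm_one_symm
  have hg : g ∈ Subgroup.closure (Set.range F.l ∪ Set.range F.r) := by rw [F.gen]; trivial
  apply Subgroup.mem_bot.mp
  induction hg using Subgroup.closure_induction with
  | mem x hx =>
    rcases hx with ⟨y, rfl⟩ | ⟨y, rfl⟩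
    · exact Subgroup.mem_bot.mpr ((a1 y).1 k)
    · rw [(a1 y).2]; exact Subgroup.mem_bot.mpr ((a1 y).1 k)
  | one => simp
  | mul x y _ _ a b => exact cm_mul_mem inferInstance a b
  | inv x _ a => exact cm_inv_mem inferInstance a

end Pres

theorem K_triv (hH : ∀ k ∈ F.H, k = 1) {k : G} (hk : k ∈ F.K) : k = 1 := by
  refine F.K_induction (p := fun k => k = 1) ?_ rfl ?_ ?_ k hk
  · intro h hh g; rw [hH h hh]; simp
  · intro a _ b _ ha hb; rw [ha, hb, mul_one]
  · intro a _ ha; rw [ha, inv_one]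

theorem base (h : Pres mul F p) (Z : ℕ → Set Q) (h0 : Z 0 = {x | p x ∈ F.H})
    (hZ : ∀ k, Z (k + 1) = nxt mul (Z k)) (h4 : Z 4 = Set.univ) : Z 3 = Set.univ := by
  have z1 := hZ 0
  rw [h0, h.step] at z1
  have z2 := hZ 1
  rw [z1, h.quot.step] at z2
  have z3 := hZ 2
  rw [z2, h.quot.quot.step] at z3
  have z4 := hZ 3
  rw [z3, h.quot.quot.quot.step, h4] at z4
  have hF : F.Hyp := by
    intro k hk
    rw [Folder.mem_C2, ← F.quot.quot.π_eq_one]
    apply K_triv (fun k hk => h.quot.quot.quot.H_triv (fun x => ?_) hk)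
      (F.quot.quot.quot_K (F.quot.quot_K (F.quot_K hk)))
    exact (Set.ext_iff.mp z4 x).mp trivial
  have a1 : ∀ k ∈ F.quot.K, k ∈ F.quot.C := by
    intro k hk
    apply F.quot.mem_C_of_comm
    intro k' hk'
    obtain ⟨x, hx, rfl⟩ := F.quot_K_surj hk
    obtain ⟨y, hy, rfl⟩ := F.quot_K_surj hk'
    rw [← map_cm, F.π_eq_one]; exact hF.main hx hy
  have a2 : ∀ k ∈ F.quot.quot.H, k = 1 := by
    rintro _ ⟨k, hk, rfl⟩
    exact F.quot.π_eq_one.mpr (a1 k (F.quot.H_le_K hk))
  rw [z3]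
  apply Set.eq_univ_of_forall
  intro x
  apply F.quot.quot.quot_H.mpr
  exact ⟨1, Subgroup.one_mem _, _, fun y => K_triv a2 (F.quot.quot.cm_mem_K _ y), (one_mul _).symm⟩

theorem all_n (m : ℕ) : ∀ {G : Type} [Group G] {F : Folder G} {p : Q → G}, Pres mul F p →
    ∀ Z : ℕ → Set Q, Z 0 = {x | p x ∈ F.H} → (∀ k, Z (k + 1) = nxt mul (Z k)) →
    Z (m + 4) = Set.univ → Z 3 = Set.univ := by
  induction m with
  | zero => intro G _ F p h Z h0 hZ h4; exact base h Z h0 hZ h4
  | succ m ih =>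
    intro G _ F p h Z h0 hZ h4
    apply base h Z h0 hZ
    refine ih h.quot (fun k => Z (k + 1)) ?_ (fun k => hZ (k + 1)) ?_
    · rw [hZ 0, h0, h.step]
    · exact h4

theorem mono (hd : ∀ a b, ∃ n, b = mul a n) (Z : ℕ → Set Q) (hZ : ∀ k, Z (k + 1) = nxt mul (Z k))
    {n : ℕ} (h : Z n = Set.univ) (k : ℕ) : Z (n + k) = Set.univ := by
  induction k with
  | zero => exact h
  | succ k ih =>
    rw [← add_assoc, hZ, ih]
    apply Set.eq_univ_of_forall
    intro a x y
    simp only [Set.mem_univ, true_and]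
    exact ⟨hd _ _, hd _ _, hd _ _, hd _ _⟩

end H324Z.A4
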