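import Pool.Agent.H324Z.A4.Link

set_option autoImplicit false

namespace H324Z.A4

/-- a loop given by its three operations -/
structure Lp (Q : Type) where
  mul : Q → Q → Q
  e : Q
  ldiv : Q → Q → Q
  rdiv : Q → Q → Q
  hid : ∀ x, mul e x = x ∧ mul x e = x
  hdiv : ∀ a b, mul a (ldiv a b) = b ∧ ldiv a (mul a b) = b ∧
    mul (rdiv b a) a = b ∧ rdiv (mul b a) a = b

namespace Lp

variable {Q : Type} (A : Lp Q)

def L (a : Q) : Equiv.Perm Q :=
  ⟨A.mul a, A.ldiv a, fun b => (A.hdiv a b).2.1, fun b => (A.hdiv a b).1⟩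

def R (a : Q) : Equiv.Perm Q :=
  ⟨fun z => A.mul z a, fun z => A.rdiv z a, fun b => (A.hdiv a b).2.2.2, fun b => (A.hdiv a b).2.2.1⟩

theorem L_apply (a b : Q) : A.L a b = A.mul a b := rfl
theorem R_apply (a b : Q) : A.R a b = A.mul b a := rfl
theorem L_e (a : Q) : A.L a A.e = a := (A.hid a).2
theorem R_e (a : Q) : A.R a A.e = a := (A.hid a).1
theorem L_one : A.L A.e = 1 := Equiv.ext fun x => (A.hid x).1
theorem R_one : A.R A.e = 1 := Equiv.ext fun x => (A.hid x).2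

/-- the standard generators of the inner mapping group -/
def S : Set (Equiv.Perm Q) :=
  {f | (∃ x y, f = (A.L (A.mul x y))⁻¹ * A.L x * A.L y) ∨
    (∃ x y, f = (A.R (A.mul x y))⁻¹ * A.R y * A.R x) ∨ (∃ x, f = (A.R x)⁻¹ * A.L x)}

def gens : Set (Equiv.Perm Q) := Set.range A.L ∪ Set.range A.R

/-- the multiplication group -/
abbrev Mlt : Subgroup (Equiv.Perm Q) := Subgroup.closure A.gens

theorem S_fix {f : Equiv.Perm Q} (hf : f ∈ Subgroup.closure A.S) : f A.e = A.e := by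
  induction hf using Subgroup.closure_induction with
  | mem x hx =>
    rcases hx with ⟨x, y, rfl⟩ | ⟨x, y, rfl⟩ | ⟨x, rfl⟩
    · rw [mul_assoc, Equiv.Perm.mul_apply, Equiv.Perm.mul_apply, A.L_e, Equiv.Perm.inv_eq_iff_eq,
        A.L_e]; rfl
    · rw [mul_assoc, Equiv.Perm.mul_apply, Equiv.Perm.mul_apply, A.R_e, Equiv.Perm.inv_eq_iff_eq,
        A.R_e]; rfl
    · rw [Equiv.Perm.mul_apply, A.L_e, Equiv.Perm.inv_eq_iff_eq, A.R_e]
  | one => rfl
  | mul x y _ _ a b => rw [Equiv.Perm.mul_apply, b, a]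
  | inv x _ a => rw [Equiv.Perm.inv_eq_iff_eq, a]

theorem decomp {g : Equiv.Perm Q} (hg : g ∈ A.Mlt) :
    ∃ y, ∃ a ∈ Subgroup.closure A.S, g = A.L y * a := by
  have s1 : ∀ x y, (A.L (A.mul x y))⁻¹ * A.L x * A.L y ∈ Subgroup.closure A.S := fun x y =>
    Subgroup.subset_closure (Or.inl ⟨x, y, rfl⟩)
  have s2 : ∀ x y, (A.R (A.mul x y))⁻¹ * A.R y * A.R x ∈ Subgroup.closure A.S := fun x y =>
    Subgroup.subset_closure (Or.inr (Or.inl ⟨x, y, rfl⟩))
  have s3 : ∀ x, (A.R x)⁻¹ * A.L x ∈ Subgroup.closure A.S := fun x =>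
    Subgroup.subset_closure (Or.inr (Or.inr ⟨x, rfl⟩))
  have s4 : ∀ x y, (A.L (A.mul y x))⁻¹ * A.R x * A.L y ∈ Subgroup.closure A.S := by
    intro x y
    have := Subgroup.mul_mem _ (Subgroup.mul_mem _ (Subgroup.inv_mem _ (s3 (A.mul y x))) (s2 y x))
      (s3 y)
    convert this using 1
    group
  induction hg using Subgroup.closure_induction_left with
  | one => exact ⟨A.e, 1, Subgroup.one_mem _, by rw [A.L_one, mul_one]⟩
  | mul_left x hx g _ ih =>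
    obtain ⟨y, a, ha, rfl⟩ := ih
    rcases hx with ⟨x, rfl⟩ | ⟨x, rfl⟩
    · exact ⟨A.mul x y, _, Subgroup.mul_mem _ (s1 x y) ha, by group⟩
    · exact ⟨A.mul y x, _, Subgroup.mul_mem _ (s4 x y) ha, by group⟩
  | inv_mul_cancel x hx g _ ih =>
    obtain ⟨y, a, ha, rfl⟩ := ih
    rcases hx with ⟨x, rfl⟩ | ⟨x, rfl⟩
    · refine ⟨A.ldiv x y, _, Subgroup.mul_mem _ (Subgroup.inv_mem _ (s1 x (A.ldiv x y))) ha, ?_⟩
      rw [(A.hdiv x y).1]; group
    · refine ⟨A.rdiv y x, _, Subgroup.mul_mem _ (Subgroup.inv_mem _ (s4 x (A.rdiv y x))) ha, ?_⟩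
      rw [(A.hdiv x y).2.2.1]; group

theorem inn_mem {g : Equiv.Perm Q} (hg : g ∈ A.Mlt) (he : g A.e = A.e) :
    g ∈ Subgroup.closure A.S := by
  obtain ⟨y, a, ha, rfl⟩ := A.decomp hg
  rw [Equiv.Perm.mul_apply, A.S_fix ha, A.L_e] at he
  rw [he, A.L_one, one_mul]; exact ha

def Lm (a : Q) : A.Mlt := ⟨A.L a, Subgroup.subset_closure (Or.inl ⟨a, rfl⟩)⟩
def Rm (a : Q) : A.Mlt := ⟨A.R a, Subgroup.subset_closure (Or.inr ⟨a, rfl⟩)⟩

/-- the inner mapping group -/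
def Inn : Subgroup A.Mlt where
  carrier := {g | g.1 A.e = A.e}
  one_mem' := rfl
  mul_mem' := by
    intro a b ha hb
    change a.1 (b.1 A.e) = A.e
    rw [hb, ha]
  inv_mem' := by
    intro a ha
    change a.1⁻¹ A.e = A.e
    rw [Equiv.Perm.inv_eq_iff_eq, ha]

theorem mem_Inn {g g' : A.Mlt} : g⁻¹ * g' ∈ A.Inn ↔ g.1 A.e = g'.1 A.e := by
  change g.1⁻¹ (g'.1 A.e) = A.e ↔ _
  rw [Equiv.Perm.inv_eq_iff_eq, eq_comm]

/-- the folder of a loop whose standard inner mappings commute -/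
def folder (hc : ∀ f ∈ A.S, ∀ g ∈ A.S, f * g = g * f) : Folder A.Mlt where
  H := A.Inn
  l := fun g => A.Lm (g.1 A.e)
  r := fun g => A.Rm (g.1 A.e)
  comm := by
    intro a b ha hb
    apply cm_eq_one.mpr
    apply Subtype.ext
    have h1 := A.inn_mem a.2 ha
    have h2 := A.inn_mem b.2 hb
    exact Subgroup.closure_induction₂ (p := fun x y _ _ => Commute x y) (fun x y hx hy => hc x hx y hy)
      (fun _ _ => Commute.one_left _) (fun _ _ => Commute.one_right _)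
      (fun _ _ _ _ _ _ a b => a.mul_left b) (fun _ _ _ _ _ _ a b => a.mul_right b)
      (fun _ _ _ _ a => a.inv_left) (fun _ _ _ _ a => a.inv_right) h1 h2
  lH := fun g => A.mem_Inn.mpr (A.L_e _)
  rH := fun g => A.mem_Inn.mpr (A.R_e _)
  l_congr := fun h => by rw [A.mem_Inn.mp h]
  r_congr := fun h => by rw [A.mem_Inn.mp h]
  l_one := Subtype.ext A.L_one
  r_one := Subtype.ext A.R_one
  lr := by
    intro g g'
    have : cm (A.Lm (g.1 A.e)) (A.Rm (g'.1 A.e)) =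
        (A.Rm (g'.1 A.e) * A.Lm (g.1 A.e))⁻¹ * (A.Lm (g.1 A.e) * A.Rm (g'.1 A.e)) := by
      simp only [cm]; group
    rw [this, A.mem_Inn]
    change A.R _ (A.L _ A.e) = A.L _ (A.R _ A.e)
    rw [A.L_e, A.R_e]; rfl
  gen := by
    rw [← Subgroup.closure_closure_coe_preimage (k := A.gens)]
    congr 1
    ext g
    constructor
    · rintro (⟨x, rfl⟩ | ⟨x, rfl⟩)
      · exact Or.inl ⟨_, rfl⟩
      · exact Or.inr ⟨_, rfl⟩
    · rintro (⟨x, hx⟩ | ⟨x, hx⟩)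
      · exact Or.inl ⟨A.Lm x, Subtype.ext (by rw [← hx]; exact congrArg A.L (A.L_e x))⟩
      · exact Or.inr ⟨A.Lm x, Subtype.ext (by rw [← hx]; exact congrArg A.R (A.L_e x))⟩
  cf := by
    intro x h
    apply Subtype.ext
    ext a
    have := h (A.Lm a)
    rw [mul_assoc, A.mem_Inn] at this
    change A.L a A.e = x.1 (A.L a A.e) at this
    rw [A.L_e] at this
    exact this.symm

theorem pres (hc : ∀ f ∈ A.S, ∀ g ∈ A.S, f * g = g * f) : Pres A.mul (A.folder hc) A.Lm where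
  div := fun a b => ⟨A.ldiv a b, (A.hdiv a b).1.symm⟩
  surj := fun g => ⟨g.1 A.e, A.mem_Inn.mpr (A.L_e _)⟩
  hom := by
    intro x y
    apply A.mem_Inn.mpr
    change A.L _ A.e = A.L (A.L x A.e) (A.L y A.e)
    rw [A.L_e, A.L_e, A.L_e]; rfl

theorem final (hc : ∀ f ∈ A.S, ∀ g ∈ A.S, f * g = g * f) (Z : ℕ → Set Q) (h0 : Z 0 = {A.e})
    (hZ : ∀ k, Z (k + 1) = nxt A.mul (Z k)) {n : ℕ} (hn : Z n = Set.univ) : Z 3 = Set.univ := by
  refine all_n n (A.pres hc) Z ?_ hZ (mono (A.pres hc).div Z hZ hn 4)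
  rw [h0]
  ext x
  change x = A.e ↔ A.L x A.e = A.e
  rw [A.L_e]

end Lp

end H324Z.A4
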