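import Pool.Agent.H324Z.A4.Ctx

set_option autoImplicit false

namespace H324Z.A4

variable {G : Type} [Group G] {F : Folder G}

/-- elements centralising `H ⊓ C2` and `[K ⊓ C2, G]` -/
def N2 (F : Folder G) : Subgroup G where
  carrier := {k | (∀ h ∈ F.H, h ∈ F.C2 → cm k h = 1) ∧
    ∀ u ∈ F.K, u ∈ F.C2 → ∀ g, cm k (cm u g) = 1}
  one_mem' := by simp
  mul_mem' := by
    rintro a b ⟨a1, a2⟩ ⟨b1, b2⟩
    exact ⟨fun h hh h2 => by rw [cm_mul_left, a1 h hh h2, b1 h hh h2]; simp,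
      fun u hu h2 g => by rw [cm_mul_left, a2 u hu h2, b2 u hu h2]; simp⟩
  inv_mem' := by
    rintro a ⟨a1, a2⟩
    exact ⟨fun h hh h2 => Subgroup.mem_bot.mp (cm_inv_mem inferInstance
        (Subgroup.mem_bot.mpr (a1 h hh h2))),
      fun u hu h2 g => Subgroup.mem_bot.mp (cm_inv_mem inferInstance
        (Subgroup.mem_bot.mpr (a2 u hu h2 g)))⟩

theorem N2_normal (F : Folder G) : (N2 F).Normal := by
  apply Folder.normal_of_conj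
  rintro k ⟨a1, a2⟩ g
  have e : ∀ y, cm (g⁻¹ * k * g) y = g⁻¹ * cm k (g⁻¹⁻¹ * y * g⁻¹) * g := by
    intro y; simp only [cm]; group
  constructor
  · intro h hh h2
    rw [e, conj_eq h, cm_mul_right, a1 h hh h2, a2 h (F.H_le_K hh) h2]; simp
  · intro u hu h2 a
    rw [e, cm_conj u a, a2 _ (conj_mem' F.K_normal hu _) (conj_mem' F.C2_normal h2 _)]; simp

namespace Ctx

variable (X : Ctx F)

theorem good : Good F X.V := X.hF.good X.V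

include X in
theorem cU {x y : G} (hx : x ∈ F.K) (hy : y ∈ F.K) : cm x y ∈ F.K ⊓ F.C2 :=
  ⟨F.cm_mem_K _ _, X.hF.h3 hx hy⟩

theorem U_D_K {k : G} (hk : k ∈ F.K) (m : X.U.M) : X.U.D k m = 0 :=
  X.U.D_triv (fun _ hx => F.C2_comm_K hx.2 hk) m

theorem U_act_K {k : G} (hk : k ∈ F.K) (m : X.U.M) : X.U.act k m = m :=
  X.U.act_triv (fun _ hx => F.C2_comm_K hx.2 hk) m

theorem U_D_mul_K (g : G) {k : G} (hk : k ∈ F.K) (m : X.U.M) : X.U.D (g * k) m = X.U.D g m := by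
  rw [X.U.D_mul, X.U_D_K hk, X.U_D_K hk]; abel

theorem U_D_l (g : G) (m : X.U.M) : X.U.D (F.l g) m = X.U.D g m := by
  obtain ⟨h, hh, e⟩ := F.exists_l g
  conv_rhs => rw [e]
  rw [X.U_D_mul_K _ (F.H_le_K hh)]

theorem U_D_r (g : G) (m : X.U.M) : X.U.D (F.r g) m = X.U.D g m := by
  obtain ⟨h, hh, e⟩ := F.exists_r g
  conv_rhs => rw [e]
  rw [X.U_D_mul_K _ (F.H_le_K hh)]

theorem br_anti (a b : X.V.M) : X.br a b = - X.br b a := by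
  obtain ⟨x, hx, rfl⟩ := X.V.surj a
  obtain ⟨y, hy, rfl⟩ := X.V.surj b
  rw [X.br_p x hx y hy, X.br_p y hy x hx, ← X.U.p_inv (X.cU hy hx), cm_inv]

theorem br_H {h h' : G} (hh : h ∈ F.H) (hh' : h' ∈ F.H) : X.br (X.V.p h) (X.V.p h') = 0 := by
  rw [X.br_p _ (F.H_le_K hh) _ (F.H_le_K hh'), F.comm hh hh', X.U.p_one]

theorem br_P {p p' : G} (hp : p ∈ F.P) (hp' : p' ∈ F.P) : X.br (X.V.p p) (X.V.p p') = 0 := by
  rw [X.br_p _ (F.P_le_K hp) _ (F.P_le_K hp')]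
  exact X.U.p_zero (X.cU (F.P_le_K hp) (F.P_le_K hp')) (X.hF.PP hp hp')

theorem D_P (a : G) (m : X.V.M) : ∃ p ∈ F.P, X.V.D a m = X.V.p p := by
  obtain ⟨x, hx, rfl⟩ := X.V.surj m
  exact ⟨_, F.cm_P hx a, (X.V.p_cm hx a).symm⟩

theorem br_DD (a b : G) (m m' : X.V.M) : X.br (X.V.D a m) (X.V.D b m') = 0 := by
  obtain ⟨p, hp, e⟩ := X.D_P a m
  obtain ⟨p', hp', e'⟩ := X.D_P b m'
  rw [e, e', X.br_P hp hp']

theorem br_D (g : G) (a b : X.V.M) :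
    X.U.D g (X.br a b) = X.br (X.V.D g a) b + X.br a (X.V.D g b) := by
  have : X.U.act g (X.br a b) = X.br (X.V.act g a) (X.V.act g b) := by
    obtain ⟨x, hx, rfl⟩ := X.V.surj a
    obtain ⟨y, hy, rfl⟩ := X.V.surj b
    rw [X.V.act_p _ hx, X.V.act_p _ hy, X.br_p x hx y hy, X.br_p _ (conj_mem' F.K_normal hx _) _
      (conj_mem' F.K_normal hy _), X.U.act_p _ (X.cU hx hy), cm_conj]
  rw [Sec.D_apply, this, X.V.act_eq, X.V.act_eq]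
  simp only [map_add, AddMonoidHom.add_apply, X.br_DD]
  abel

theorem br_sym {h h' : G} (hh : h ∈ F.H) (hh' : h' ∈ F.H) (a : G) :
    X.br (X.V.p h) (X.V.D a (X.V.p h')) = X.br (X.V.p h') (X.V.D a (X.V.p h)) := by
  have := X.br_D a (X.V.p h) (X.V.p h')
  rw [X.br_H hh hh', map_zero, X.br_anti (X.V.D a (X.V.p h))] at this
  linear_combination (norm := abel) - this

theorem br_D' (g a : G) (m m' : X.V.M) :
    X.U.D g (X.br m (X.V.D a m')) = X.br m (X.V.D g (X.V.D a m')) := by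
  rw [X.br_D, X.br_DD, zero_add]

theorem br_sym2 {h h' : G} (hh : h ∈ F.H) (hh' : h' ∈ F.H) (a b : G) :
    X.br (X.V.p h) (X.V.D b (X.V.D a (X.V.p h'))) =
      X.br (X.V.p h') (X.V.D b (X.V.D a (X.V.p h))) := by
  rw [← X.br_D', ← X.br_D', X.br_sym hh hh']

theorem nondeg {p : G} (hp : p ∈ F.P) (ht : ∀ x, X.br (X.V.p (F.t x)) (X.V.p p) = 0)
    (hc : ∀ x y, X.br (X.V.p (F.c x y)) (X.V.p p) = 0)
    (hd : ∀ x y, X.br (X.V.p (F.d x y)) (X.V.p p) = 0) : X.V.p p = 0 := by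
  have hH : ∀ h ∈ F.H, X.br (X.V.p h) (X.V.p p) = 0 := by
    refine F.H_induction (p := fun h => X.br (X.V.p h) (X.V.p p) = 0) ht hc hd ?_ ?_ ?_
    · simp [X.V.p_one]
    · intro x hx y hy h1 h2
      rw [X.V.p_mul (F.H_le_K hx) (F.H_le_K hy), map_add, AddMonoidHom.add_apply, h1, h2, add_zero]
    · intro x hx h1
      rw [X.V.p_inv (F.H_le_K hx), map_neg, AddMonoidHom.neg_apply, h1, neg_zero]
  apply X.V.p_zero (F.P_le_K hp)
  apply Folder.mem_C2_of_HP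
  · intro h hh
    apply cm_symm_mem
    rw [← X.U.p_eq_zero (X.cU (F.H_le_K hh) (F.P_le_K hp)), ← X.br_p _ (F.H_le_K hh) _ (F.P_le_K hp)]
    exact hH h hh
  · intro p' hp'; exact X.hF.PP hp hp'

theorem nondeg2 (a b : G) (m m' : X.V.M)
    (ht : ∀ x, X.br (X.V.p (F.t x)) (X.V.D a m + X.V.D b m') = 0)
    (hc : ∀ x y, X.br (X.V.p (F.c x y)) (X.V.D a m + X.V.D b m') = 0)
    (hd : ∀ x y, X.br (X.V.p (F.d x y)) (X.V.D a m + X.V.D b m') = 0) :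
    X.V.D a m + X.V.D b m' = 0 := by
  obtain ⟨p, hp, e⟩ := X.D_P a m
  obtain ⟨p', hp', e'⟩ := X.D_P b m'
  rw [e, e', ← X.V.p_mul (F.P_le_K hp) (F.P_le_K hp')] at ht hc hd ⊢
  exact X.nondeg (F.P.mul_mem hp hp') ht hc hd

theorem inv_H {h : G} (hh : h ∈ F.H) (hg : ∀ g, X.V.D g (X.V.p h) = 0) : X.V.p h = 0 := by
  apply X.V.p_zero (F.H_le_K hh)
  apply Folder.h8 hh
  intro g
  rw [← X.V.p_eq_zero (F.cm_mem_K _ _), X.V.p_cm (F.H_le_K hh), hg]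

theorem D_lK {k : G} (hk : k ∈ F.K) (g : G) : X.V.D g (X.V.p (F.l k)) = 0 := by
  rw [← X.V.p_cm (F.l_mem_K hk)]; exact X.V.p_zero (F.cm_mem_K _ _) (X.hF.h7 hk g)

theorem inv_l {m : X.V.M} (hg : ∀ g, X.V.D g m = 0) : ∃ k ∈ F.K, m = X.V.p (F.l k) := by
  obtain ⟨k, hk, rfl⟩ := X.V.surj m
  obtain ⟨h, hh, e⟩ := F.exists_l k
  have e1 : X.V.p k = X.V.p (F.l k) + X.V.p h := by
    rw [← X.V.p_mul (F.l_mem_K hk) (F.H_le_K hh), ← e]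
  have := X.inv_H hh fun g => by
    have := hg g
    rwa [e1, map_add, X.D_lK hk, zero_add] at this
  exact ⟨k, hk, by rw [e1, this, add_zero]⟩

theorem pr_mul {k k' : G} (hk : k ∈ F.K) (hk' : k' ∈ F.K) (u : X.U.M) :
    X.pr (k * k') u = X.pr k u + X.pr k' u := by
  obtain ⟨x, hx, rfl⟩ := X.U.surj u
  rw [X.pr_p _ (F.K.mul_mem hk hk') _ hx.1 hx.2, X.pr_p _ hk _ hx.1 hx.2, X.pr_p _ hk' _ hx.1 hx.2,
    F.cm_C2_mul hx.2 hk hk', X.M.p_mul (F.cm_Kd hx.1 hk') (F.cm_Kd hx.1 hk), add_comm]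

theorem pr_one (u : X.U.M) : X.pr 1 u = 0 := by
  have := X.pr_mul F.K.one_mem F.K.one_mem u
  rw [mul_one] at this
  exact left_eq_add.mp this

theorem pr_inv {k : G} (hk : k ∈ F.K) (u : X.U.M) : X.pr k⁻¹ u = - X.pr k u := by
  have := X.pr_mul hk (F.K.inv_mem hk) u
  rw [mul_inv_cancel, X.pr_one] at this
  exact eq_neg_of_add_eq_zero_right this.symm

theorem pr_DP {p : G} (hp : p ∈ F.P) (g : G) (u : X.U.M) : X.pr p (X.U.D g u) = 0 := by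
  obtain ⟨x, hx, rfl⟩ := X.U.surj u
  have := cm_mem_left X.U.normal hx g
  rw [← X.U.p_cm hx, X.pr_p _ (F.P_le_K hp) _ this.1 this.2, F.key_P hx.1 hx.2 g hp, X.M.p_one]

theorem pr_D {k : G} (hk : k ∈ F.K) (g : G) (u : X.U.M) :
    X.M.D g (X.pr k u) = X.pr (cm k g) u + X.pr k (X.U.D g u) := by
  have : X.M.act g (X.pr k u) = X.pr (g⁻¹ * k * g) (X.U.act g u) := by
    obtain ⟨x, hx, rfl⟩ := X.U.surj u
    have := conj_mem' X.U.normal hx g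
    rw [X.U.act_p _ hx, X.pr_p _ hk _ hx.1 hx.2, X.pr_p _ (conj_mem' F.K_normal hk g) _ this.1 this.2,
      X.M.act_p _ (F.cm_Kd hx.1 hk), cm_conj]
  rw [Sec.D_apply, this, conj_eq, X.pr_mul hk (F.cm_mem_K _ _), X.U.act_eq, map_add, map_add,
    X.pr_DP (F.cm_P hk g)]
  abel

theorem pr_H {h u : G} (hh : h ∈ F.H) (hu : u ∈ F.H) (h2 : u ∈ F.C2) : X.pr h (X.U.p u) = 0 := by
  rw [X.pr_p _ (F.H_le_K hh) _ (F.H_le_K hu) h2, F.comm hu hh, X.M.p_one]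

theorem nondegU {u : X.U.M} (h1 : ∀ h ∈ F.H, X.pr h u = 0) (h2 : ∀ p ∈ F.P, X.pr p u = 0) :
    u = 0 := by
  obtain ⟨x, hx, rfl⟩ := X.U.surj u
  apply X.U.p_zero hx
  apply F.mem_C_of_comm
  intro k hk
  apply Subgroup.mem_bot.mp
  rw [← X.M.p_eq_zero (F.cm_Kd hx.1 hk), ← X.pr_p _ hk _ hx.1 hx.2]
  obtain ⟨h, hh, p, hp, rfl⟩ := F.K_eq hk
  rw [X.pr_mul (F.H_le_K hh) (F.P_le_K hp), h1 h hh, h2 p hp, add_zero]

theorem lU {u : G} (hu : u ∈ F.K ⊓ F.C2) : F.l u ∈ F.K ⊓ F.C2 :=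
  ⟨F.l_mem_K hu.1, F.mem_C2_of fun k _ => F.l_C2 hu.2 k⟩

theorem U_split {u : G} (hu : u ∈ F.K ⊓ F.C2) : ∃ h ∈ F.H, h ∈ F.C2 ∧
    X.U.p u = X.U.p (F.l u) + X.U.p h ∧ ∀ g, X.U.D g (X.U.p (F.l u)) = 0 := by
  have h2 : (F.l u)⁻¹ * u ∈ F.C2 := F.C2.mul_mem (F.C2.inv_mem (lU hu).2) hu.2
  refine ⟨_, F.lH u, h2, ?_, ?_⟩
  · rw [← X.U.p_mul (lU hu) ⟨F.H_le_K (F.lH u), h2⟩]; simp
  · intro g
    rw [← X.U.p_cm (lU hu)]
    exact X.U.p_zero (cm_mem_left X.U.normal (lU hu) g) (F.l_C2 hu.2 g)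

theorem two_DD_U (a b : G) (u : X.U.M) : 2 • X.U.D b (X.U.D a u) = 0 := by
  have hKN : ∀ x ∈ F.K, ∀ k ∈ F.K, cm x k ∈ N2 F := fun x hx k hk =>
    ⟨fun h _ h2 => cm_one_symm (F.cm_C2_Kd h2 (F.cm_Kd hx hk)),
      fun u _ h2 g => cm_one_symm (F.cm_C2_Kd (cm_mem_left F.C2_normal h2 g) (F.cm_Kd hx hk))⟩
  obtain ⟨W⟩ := exists_sec F.K (N2 F) F.K_normal (N2_normal F) hKN
  have hW : Good F W := by
    refine ⟨hKN, ?_⟩
    intro h hh p hp e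
    have hu := (W.p_eq_iff (F.H_le_K hh) (F.P_le_K hp)).mp e
    apply W.p_zero (F.H_le_K hh)
    refine ⟨fun h' hh' _ => F.comm hh hh', fun u hu1 hu2 g => ?_⟩
    have : h = p * (p⁻¹ * h) := by group
    rw [this, cm_mul_left, hu.2 u hu1 hu2 g, cm_one_symm (F.key_P hu1 hu2 g hp)]; simp
  obtain ⟨x, hx, rfl⟩ := X.U.surj u
  obtain ⟨w, hw, hw2, e, hl⟩ := X.U_split hx
  rw [e, map_add, hl, zero_add]
  obtain ⟨f, hf⟩ := W.exists_lift (fun k => X.pr k (X.U.p w))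
    (fun x hx y hy => X.pr_mul hx hy _)
    (fun k hk h2 => by
      rw [X.pr_p _ hk _ (F.H_le_K hw) hw2, cm_one_symm (h2.1 w hw hw2), X.M.p_one])
  apply X.nondegU
  · intro h hh
    have hK := F.H_le_K hh
    have e1 := X.pr_D hK a (X.U.p w)
    rw [X.pr_H hh hw hw2, map_zero] at e1
    have e2 := X.pr_D hK b (X.U.D a (X.U.p w))
    rw [X.pr_DP (F.cm_P hK b), zero_add] at e2
    have e3 := X.pr_D (F.cm_mem_K h a) b (X.U.p w)
    rw [X.pr_DP (F.cm_P hK a), add_zero] at e3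
    have e4 := hf _ (F.cm_mem_K (cm h a) b)
    rw [W.p_cm (F.cm_mem_K _ _), W.p_cm hK] at e4
    have e5 := congrArg f (hW.two_DD a b (W.p h))
    rw [map_nsmul, map_zero, e4] at e5
    have e6 := congrArg (X.M.D b) e1
    rw [map_zero, map_add] at e6
    rw [map_nsmul]
    linear_combination (norm := abel) - e5 - 2 • e2 - 2 • e6 - 2 • e3
  · intro p hp
    rw [map_nsmul, X.pr_DP hp, smul_zero]

end Ctx

end H324Z.A4
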