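import Pool.Agent.H324Z.A4.Key

set_option autoImplicit false

namespace H324Z.A4

variable {G : Type} [Group G]

namespace Folder

variable (F : Folder G)

def t (x : G) : G := (F.r x)⁻¹ * F.l x
def c (x y : G) : G := cm (F.l x) (F.r y)
def d (x y : G) : G := (F.l (F.l x * F.l y))⁻¹ * (F.l x * F.l y)
def e (x y : G) : G := (F.r (F.r x * F.r y))⁻¹ * (F.r x * F.r y)

theorem tH (x : G) : F.t x ∈ F.H := F.t_mem x
theorem cH (x y : G) : F.c x y ∈ F.H := F.lr x y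
theorem dH (x y : G) : F.d x y ∈ F.H := F.lH _
theorem eH (x y : G) : F.e x y ∈ F.H := F.rH _
theorem tK (x : G) : F.t x ∈ F.K := F.H_le_K (F.tH x)
theorem cK (x y : G) : F.c x y ∈ F.K := F.H_le_K (F.cH x y)
theorem dK (x y : G) : F.d x y ∈ F.K := F.H_le_K (F.dH x y)
theorem eK (x y : G) : F.e x y ∈ F.K := F.H_le_K (F.eH x y)

theorem ll (x y : G) : F.l x * F.l y = F.l (F.l x * F.l y) * F.d x y := by simp [d]
theorem rr (x y : G) : F.r x * F.r y = F.r (F.r x * F.r y) * F.e x y := by simp [e]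
theorem l_eq (x : G) : F.l x = F.r x * F.t x := by simp [t]
theorem l_l (x : G) : F.l (F.l x) = F.l x := F.l_congr (F.lH x)

theorem H_induction {p : G → Prop} (ht : ∀ x, p (F.t x)) (hc : ∀ x y, p (F.c x y))
    (hd : ∀ x y, p (F.d x y)) (h1 : p 1)
    (hmul : ∀ x ∈ F.H, ∀ y ∈ F.H, p x → p y → p (x * y)) (hinv : ∀ x ∈ F.H, p x → p x⁻¹) :
    ∀ h ∈ F.H, p h := by
  let q : G → Prop := fun h => h ∈ F.H ∧ p h
  have qm : ∀ {x y}, q x → q y → q (x * y) := fun a b =>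
    ⟨F.H.mul_mem a.1 b.1, hmul _ a.1 _ b.1 a.2 b.2⟩
  have qi : ∀ {x}, q x → q x⁻¹ := fun a => ⟨F.H.inv_mem a.1, hinv _ a.1 a.2⟩
  have qd : ∀ x y, q (F.d x y) := fun x y => ⟨F.dH x y, hd x y⟩
  have qc : ∀ x y, q (F.c x y) := fun x y => ⟨F.cH x y, hc x y⟩
  have qt : ∀ x, q (F.t x) := fun x => ⟨F.tH x, ht x⟩
  have rl : ∀ x y, ∃ h, q h ∧ F.r x * F.l y = F.l (F.r x * F.l y) * h := by
    intro x y
    have e1 : F.r x * F.l y = F.l (F.l y * F.l x) * (F.d y x * (F.t x)⁻¹ * (F.c y x)⁻¹) := by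
      simp only [d, t, c, cm]; group
    have hq := qm (qm (qd y x) (qi (qt x))) (qi (qc y x))
    refine ⟨_, hq, ?_⟩
    have : F.l (F.r x * F.l y) = F.l (F.l y * F.l x) := by
      rw [← F.l_l (F.l y * F.l x)]
      apply F.l_congr
      rw [e1]; simpa using F.H.inv_mem hq.1
    rw [this]; exact e1
  have key : ∀ g, ∃ y h, q h ∧ g = F.l y * h := by
    intro g
    have hg : g ∈ Subgroup.closure (Set.range F.l ∪ Set.range F.r) := by rw [F.gen]; trivial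
    induction hg using Subgroup.closure_induction_left with
    | one => exact ⟨1, 1, ⟨F.H.one_mem, h1⟩, by rw [F.l_one, mul_one]⟩
    | mul_left x hx g _ ih =>
      obtain ⟨y, h, hq, rfl⟩ := ih
      rcases hx with ⟨x, rfl⟩ | ⟨x, rfl⟩
      · exact ⟨F.l x * F.l y, _, qm (qd x y) hq, by rw [← mul_assoc, ← mul_assoc, ← F.ll]⟩
      · obtain ⟨h', hq', e⟩ := rl x y
        exact ⟨F.r x * F.l y, _, qm hq' hq, by rw [← mul_assoc, ← mul_assoc, ← e]⟩
    | inv_mul_cancel x hx g _ ih =>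
      obtain ⟨y, h, hq, rfl⟩ := ih
      rcases hx with ⟨x, rfl⟩ | ⟨x, rfl⟩
      · refine ⟨(F.l x)⁻¹ * F.l y, _, qm (qi (qd x ((F.l x)⁻¹ * F.l y))) hq, ?_⟩
        have : F.l (F.l x * F.l ((F.l x)⁻¹ * F.l y)) = F.l y := by
          rw [← F.l_l y]
          apply F.l_congr
          have := F.lH ((F.l x)⁻¹ * F.l (F.l y))
          rw [F.l_l] at this ⊢
          simpa [mul_assoc] using this
        simp only [d, this]; group
      · obtain ⟨h', hq', e⟩ := rl x ((F.r x)⁻¹ * F.l y)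
        refine ⟨(F.r x)⁻¹ * F.l y, _, qm (qi hq') hq, ?_⟩
        have : F.l (F.r x * F.l ((F.r x)⁻¹ * F.l y)) = F.l y := by
          rw [← F.l_l y]
          apply F.l_congr
          have := F.lH ((F.r x)⁻¹ * F.l (F.l y))
          rw [F.l_l] at this ⊢
          simpa [mul_assoc] using this
        rw [this] at e
        rw [← mul_assoc, ← mul_assoc, mul_left_inj, eq_mul_inv_iff_mul_eq, mul_assoc, ← e]; group
  intro h hh
  obtain ⟨y, h', hq, e⟩ := key h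
  have : F.l y = 1 := by
    rw [← F.l_one, ← F.l_l y]
    apply F.l_congr
    have : F.l y = h * h'⁻¹ := by rw [e]; group
    rw [mul_one, this]; exact F.H.inv_mem (F.H.mul_mem hh (F.H.inv_mem hq.1))
  rw [e, this, one_mul]; exact hq.2

/-- the commutator subgroup `[K, G]` -/
def P : Subgroup G := Subgroup.closure {x | ∃ k ∈ F.K, ∃ g, x = cm k g}

/-- the derived subgroup of `K` -/
def Kd : Subgroup G := Subgroup.closure {x | ∃ k ∈ F.K, ∃ g ∈ F.K, x = cm k g}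

theorem cm_P {k : G} (hk : k ∈ F.K) (g : G) : cm k g ∈ F.P := Subgroup.subset_closure ⟨k, hk, g, rfl⟩

theorem cm_Kd {k g : G} (hk : k ∈ F.K) (hg : g ∈ F.K) : cm k g ∈ F.Kd :=
  Subgroup.subset_closure ⟨k, hk, g, hg, rfl⟩

theorem P_induction {p : G → Prop} (hc : ∀ k ∈ F.K, ∀ g, p (cm k g)) (h1 : p 1)
    (hmul : ∀ x ∈ F.P, ∀ y ∈ F.P, p x → p y → p (x * y)) (hinv : ∀ x ∈ F.P, p x → p x⁻¹) :
    ∀ k ∈ F.P, p k := by
  intro k hk
  induction hk using Subgroup.closure_induction with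
  | mem x hx => obtain ⟨k, hk, g, rfl⟩ := hx; exact hc k hk g
  | one => exact h1
  | mul x y hx hy a b => exact hmul x hx y hy a b
  | inv x hx a => exact hinv x hx a

theorem Kd_induction {p : G → Prop} (hc : ∀ k ∈ F.K, ∀ g ∈ F.K, p (cm k g)) (h1 : p 1)
    (hmul : ∀ x ∈ F.Kd, ∀ y ∈ F.Kd, p x → p y → p (x * y)) (hinv : ∀ x ∈ F.Kd, p x → p x⁻¹) :
    ∀ k ∈ F.Kd, p k := by
  intro k hk
  induction hk using Subgroup.closure_induction with
  | mem x hx => obtain ⟨k, hk, g, hg, rfl⟩ := hx; exact hc k hk g hg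
  | one => exact h1
  | mul x y hx hy a b => exact hmul x hx y hy a b
  | inv x hx a => exact hinv x hx a

theorem P_le_K {x : G} (hx : x ∈ F.P) : x ∈ F.K :=
  F.P_induction (p := fun x => x ∈ F.K) (fun _ hk g => cm_mem_left F.K_normal hk g) F.K.one_mem
    (fun _ _ _ _ a b => F.K.mul_mem a b) (fun _ _ a => F.K.inv_mem a) x hx

theorem Kd_le_P {x : G} (hx : x ∈ F.Kd) : x ∈ F.P :=
  F.Kd_induction (p := fun x => x ∈ F.P) (fun _ hk g _ => F.cm_P hk g) F.P.one_mem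
    (fun _ _ _ _ a b => F.P.mul_mem a b) (fun _ _ a => F.P.inv_mem a) x hx

theorem Kd_le_K {x : G} (hx : x ∈ F.Kd) : x ∈ F.K := F.P_le_K (F.Kd_le_P hx)

theorem normal_of_conj {N : Subgroup G} (h : ∀ x ∈ N, ∀ g, g⁻¹ * x * g ∈ N) : N.Normal :=
  ⟨fun x hx g => by simpa using h x hx g⁻¹⟩

theorem P_normal : F.P.Normal := by
  apply normal_of_conj
  intro x hx g
  rw [conj_eq]; exact F.P.mul_mem hx (F.cm_P (F.P_le_K hx) g)

theorem Kd_normal : F.Kd.Normal := by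
  apply normal_of_conj
  intro x hx g
  refine F.Kd_induction (p := fun x => g⁻¹ * x * g ∈ F.Kd) ?_ ?_ ?_ ?_ x hx
  · intro k hk k' hk'
    rw [cm_conj]; exact F.cm_Kd (conj_mem' F.K_normal hk g) (conj_mem' F.K_normal hk' g)
  · simp
  · intro a _ b _ ha hb
    have : g⁻¹ * (a * b) * g = g⁻¹ * a * g * (g⁻¹ * b * g) := by group
    rw [this]; exact F.Kd.mul_mem ha hb
  · intro a _ ha
    have : g⁻¹ * a⁻¹ * g = (g⁻¹ * a * g)⁻¹ := by group
    rw [this]; exact F.Kd.inv_mem ha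

theorem K_eq {k : G} (hk : k ∈ F.K) : ∃ h ∈ F.H, ∃ p ∈ F.P, k = h * p := by
  refine F.K_induction (p := fun k => ∃ h ∈ F.H, ∃ p ∈ F.P, k = h * p) ?_ ?_ ?_ ?_ k hk
  · intro h hh g; exact ⟨h, hh, _, F.cm_P (F.H_le_K hh) g, conj_eq h g⟩
  · exact ⟨1, F.H.one_mem, 1, F.P.one_mem, by simp⟩
  · rintro _ _ _ _ ⟨h, hh, p, hp, rfl⟩ ⟨h', hh', p', hp', rfl⟩
    exact ⟨h * h', F.H.mul_mem hh hh', h'⁻¹ * p * h' * p',
      F.P.mul_mem (conj_mem' F.P_normal hp _) hp', by group⟩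
  · rintro _ _ ⟨h, hh, p, hp, rfl⟩
    exact ⟨h⁻¹, F.H.inv_mem hh, h⁻¹⁻¹ * p⁻¹ * h⁻¹, conj_mem' F.P_normal (F.P.inv_mem hp) _,
      by group⟩

theorem cm_t_l (x y : G) : cm (F.t x) (F.l y) = F.c y x * (cm (F.t y) (F.l x))⁻¹ * F.c x y := by
  have h1 := cm_eq_one.mp (F.comm (F.cH x y) (F.tH y))
  have h2 := cm_eq_one.mp (F.comm (F.cH y x) (F.tH x))
  have a1 : cm (F.l x) (F.l y) = (cm (F.t y) (F.l x))⁻¹ * ((F.t y)⁻¹ * (F.c x y * F.t y)) := by
    simp only [t, c, cm]; group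
  have a2 : cm (F.l y) (F.l x) = (cm (F.t x) (F.l y))⁻¹ * ((F.t x)⁻¹ * (F.c y x * F.t x)) := by
    simp only [t, c, cm]; group
  rw [h1, inv_mul_cancel_left] at a1
  rw [h2, inv_mul_cancel_left, ← cm_inv, a1] at a2
  have : cm (F.t x) (F.l y) = F.c y x * ((cm (F.t x) (F.l y))⁻¹ * F.c y x)⁻¹ := by group
  rw [this, ← a2]; group

theorem cm_l_l (x y : G) : cm (F.l x) (F.l y) = (cm (F.t y) (F.l x))⁻¹ * F.c x y := by
  have h1 := cm_eq_one.mp (F.comm (F.cH x y) (F.tH y))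
  have a1 : cm (F.l x) (F.l y) = (cm (F.t y) (F.l x))⁻¹ * ((F.t y)⁻¹ * (F.c x y * F.t y)) := by
    simp only [t, c, cm]; group
  rwa [h1, inv_mul_cancel_left] at a1

theorem cm_t_l_self (x : G) : cm (F.t x) (F.l x) = F.c x x := by
  have := F.cm_l_l x x
  rw [cm_self] at this
  exact inv_mul_eq_one.mp this.symm

end Folder

/-- a section of `K` in which the standard relations hold -/
structure Good (F : Folder G) {N : Subgroup G} (S : Sec F.K N) : Prop where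
  ab : ∀ x ∈ F.K, ∀ k ∈ F.K, cm x k ∈ N
  v0 : ∀ h ∈ F.H, ∀ p ∈ F.P, S.p h = S.p p → S.p h = 0

namespace Good

variable {F : Folder G} {N : Subgroup G} {S : Sec F.K N} (hS : Good F S)
include hS

theorem D_K {k : G} (hk : k ∈ F.K) (m : S.M) : S.D k m = 0 :=
  S.D_triv (fun x hx => hS.ab x hx k hk) m

theorem act_K {k : G} (hk : k ∈ F.K) (m : S.M) : S.act k m = m :=
  S.act_triv (fun x hx => hS.ab x hx k hk) m

theorem D_mul_K (g : G) {k : G} (hk : k ∈ F.K) (m : S.M) : S.D (g * k) m = S.D g m := by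
  rw [S.D_mul, hS.D_K hk, hS.D_K hk]; abel

theorem D_l (g : G) (m : S.M) : S.D (F.l g) m = S.D g m := by
  obtain ⟨h, hh, e⟩ := F.exists_l g
  conv_rhs => rw [e]
  rw [hS.D_mul_K _ (F.H_le_K hh)]

theorem D_r (g : G) (m : S.M) : S.D (F.r g) m = S.D g m := by
  obtain ⟨h, hh, e⟩ := F.exists_r g
  conv_rhs => rw [e]
  rw [hS.D_mul_K _ (F.H_le_K hh)]

theorem D_comm (a b : G) (m : S.M) : S.D a (S.D b m) = S.D b (S.D a m) := by
  have := S.D_mul a b m
  rw [mul_eq_cm a b, hS.D_mul_K _ (F.cm_mem_K a b), S.D_mul] at this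
  linear_combination (norm := abel) this

theorem zero_of {h : G} (hh : h ∈ F.H) (a b : G) (m m' : S.M)
    (e : S.p h = S.D a m + S.D b m') : S.p h = 0 := by
  obtain ⟨x, hx, rfl⟩ := S.surj m
  obtain ⟨y, hy, rfl⟩ := S.surj m'
  apply hS.v0 h hh _ (F.P.mul_mem (F.cm_P hx a) (F.cm_P hy b))
  rw [S.p_mul (cm_mem_left F.K_normal hx a) (cm_mem_left F.K_normal hy b), S.p_cm hx, S.p_cm hy, e]

omit hS in
theorem p_cm_left (x y z : G) :
    S.p (cm (x * y) z) = S.p (cm x z) + S.D y (S.p (cm x z)) + S.p (cm y z) := by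
  rw [cm_mul_left, S.p_mul (conj_mem' F.K_normal (F.cm_mem_K _ _) _) (F.cm_mem_K _ _),
    ← S.act_p _ (F.cm_mem_K _ _), S.act_eq]

omit hS in
theorem p_cm_right (x y z : G) :
    S.p (cm x (y * z)) = S.p (cm x y) + S.D z (S.p (cm x y)) + S.p (cm x z) := by
  rw [cm_mul_right, S.p_mul (F.cm_mem_K _ _) (conj_mem' F.K_normal (F.cm_mem_K _ _) _),
    ← S.act_p _ (F.cm_mem_K _ _), S.act_eq]; abel

omit hS in
theorem p3 {a b c : G} (ha : a ∈ F.H) (hb : b ∈ F.H) (hc : c ∈ F.H) :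
    S.p (a * b⁻¹ * c⁻¹) = S.p a - S.p b - S.p c := by
  have ha := F.H_le_K ha
  have hb := F.H_le_K hb
  have hc := F.H_le_K hc
  rw [S.p_mul (F.K.mul_mem ha (F.K.inv_mem hb)) (F.K.inv_mem hc), S.p_mul ha (F.K.inv_mem hb),
    S.p_inv hb, S.p_inv hc]; abel

theorem R1 (x y a : G) : S.D a (S.p (F.d x y)) = S.D y (S.p (F.c x a)) := by
  have e1 := p_cm_left (S := S) (F.l x) (F.l y) (F.r a)
  rw [F.ll, p_cm_left, hS.D_K (F.dK _ _), S.p_cm (F.dK _ _), hS.D_r, hS.D_l] at e1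
  have h0 := hS.zero_of (F.H.mul_mem (F.H.mul_mem (F.cH (F.l x * F.l y) a) (F.H.inv_mem (F.cH x a)))
    (F.H.inv_mem (F.cH y a))) y a (S.p (F.c x a)) (- S.p (F.d x y)) (by
      rw [p3 (F.cH _ _) (F.cH _ _) (F.cH _ _), map_neg]
      simp only [Folder.c]
      linear_combination (norm := abel) e1)
  rw [p3 (F.cH _ _) (F.cH _ _) (F.cH _ _)] at h0
  simp only [Folder.c] at h0 ⊢
  linear_combination (norm := abel) e1 - h0

theorem R2 (x y z : G) : S.D z (S.p (F.c x y)) = - S.D x (S.p (F.e y z)) ∧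
    S.p (F.c x (F.r y * F.r z)) = S.p (F.c x y) + S.p (F.c x z) := by
  have e1 := p_cm_right (S := S) (F.l x) (F.r y) (F.r z)
  rw [F.rr, p_cm_right, hS.D_K (F.eK _ _), ← cm_inv (F.e y z), S.p_inv (F.cm_mem_K _ _),
    S.p_cm (F.eK _ _), hS.D_r, hS.D_l] at e1
  have h0 := hS.zero_of (F.H.mul_mem (F.H.mul_mem (F.cH x (F.r y * F.r z)) (F.H.inv_mem (F.cH x y)))
    (F.H.inv_mem (F.cH x z))) z x (S.p (F.c x y)) (S.p (F.e y z)) (by
      rw [p3 (F.cH _ _) (F.cH _ _) (F.cH _ _)]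
      simp only [Folder.c]
      linear_combination (norm := abel) e1)
  rw [p3 (F.cH _ _) (F.cH _ _) (F.cH _ _)] at h0
  simp only [Folder.c] at h0 ⊢
  constructor
  · linear_combination (norm := abel) h0 - e1
  · linear_combination (norm := abel) h0

theorem R3 (x : G) : S.D x (S.p (F.t x)) = 0 ∧ S.p (F.c x x) = 0 := by
  have e1 : S.p (F.c x x) = S.D x (S.p (F.t x)) := by
    rw [← F.cm_t_l_self, S.p_cm (F.tK x), hS.D_l]
  have := hS.zero_of (F.cH x x) x x (S.p (F.t x)) 0 (by rw [e1, map_zero, add_zero])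
  exact ⟨e1 ▸ this, this⟩

theorem R4 (x y : G) : S.D y (S.p (F.t x)) = - S.D x (S.p (F.t y)) ∧
    S.p (F.c x y) = - S.p (F.c y x) := by
  have e1 := congrArg S.p (F.cm_t_l x y)
  rw [S.p_mul (F.K.mul_mem (F.cK _ _) (F.K.inv_mem (F.cm_mem_K _ _))) (F.cK _ _),
    S.p_mul (F.cK _ _) (F.K.inv_mem (F.cm_mem_K _ _)), S.p_inv (F.cm_mem_K _ _), S.p_cm (F.tK _),
    S.p_cm (F.tK _), hS.D_l, hS.D_l] at e1
  have h0 := hS.zero_of (F.H.mul_mem (F.cH x y) (F.cH y x)) y x (S.p (F.t x)) (S.p (F.t y)) (by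
    rw [S.p_mul (F.cK _ _) (F.cK _ _)]
    linear_combination (norm := abel) - e1)
  rw [S.p_mul (F.cK _ _) (F.cK _ _)] at h0
  constructor
  · linear_combination (norm := abel) e1 + h0
  · linear_combination (norm := abel) h0

theorem DD_d (x y a b : G) : S.D b (S.D a (S.p (F.d x y))) = 0 := by
  have e1 := hS.R1 x y (F.r a * F.r b)
  rw [(hS.R2 x a b).2, map_add, ← hS.R1, ← hS.R1, S.D_mul, hS.D_r, hS.D_r, hS.D_r] at e1
  linear_combination (norm := abel) e1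

theorem DD_c (x y a b : G) : S.D b (S.D a (S.p (F.c x y))) = 0 := by
  rw [← hS.R1, hS.DD_d]

theorem DD_e (x y a b : G) : S.D b (S.D a (S.p (F.e x y))) = 0 := by
  have := congrArg (S.D b) (hS.R2 a x y).1
  rw [hS.DD_c, map_neg] at this
  exact neg_eq_zero.mp this.symm

theorem J_swap (x a b : G) : S.D b (S.D a (S.p (F.t x))) = - S.D b (S.D x (S.p (F.t a))) := by
  rw [(hS.R4 x a).1, map_neg]

theorem J_two (x a b : G) : 2 • S.D b (S.D a (S.p (F.t x))) = 0 := by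
  have e1 := hS.J_swap x a b
  have e2 := hS.D_comm b x (S.p (F.t a))
  have e3 := hS.J_swap a b x
  have e4 := hS.D_comm x a (S.p (F.t b))
  have e5 := hS.J_swap b x a
  have e6 := hS.D_comm a b (S.p (F.t x))
  linear_combination (norm := abel) e1 - e2 - e3 + e4 + e5 - e6

theorem J_sym (x a b : G) : S.D b (S.D a (S.p (F.t x))) = S.D b (S.D x (S.p (F.t a))) := by
  have e1 := hS.J_swap x a b
  have e2 := hS.J_two a x b
  linear_combination (norm := abel) e1 - e2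

theorem p_ll (x y : G) : S.p (cm (F.l x) (F.l y)) = S.p (F.c x y) - S.D x (S.p (F.t y)) := by
  rw [F.cm_l_l, S.p_mul (F.K.inv_mem (F.cm_mem_K _ _)) (F.cK _ _), S.p_inv (F.cm_mem_K _ _),
    S.p_cm (F.tK _), hS.D_l]; abel

theorem R5 (x y z : G) : S.D z (S.p (F.c x y)) + S.D x (S.p (F.c y z)) + S.D y (S.p (F.c z x)) =
    S.D z (S.D y (S.p (F.t x))) := by
  have e1 := S.jacobi (F.l x) (F.l y) (F.l z) (F.cm_mem_K _ _) (F.cm_mem_K _ _) (F.cm_mem_K _ _)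
    (hS.act_K (F.cm_mem_K _ _))
  rw [S.p_cm (F.cm_mem_K _ _), hS.p_ll, hS.p_ll, hS.p_ll, hS.D_l, hS.D_l, hS.D_l, (hS.R4 x z).2] at e1
  simp only [map_sub, map_neg] at e1
  have a3 := hS.D_comm x y (S.p (F.t z))
  have a4 := hS.J_sym y x z
  linear_combination (norm := abel) - e1 + a4 + a3

theorem two_DD (a b : G) (m : S.M) : 2 • S.D b (S.D a m) = 0 := by
  have hH : ∀ h ∈ F.H, ∀ a b, 2 • S.D b (S.D a (S.p h)) = 0 := by
    refine F.H_induction (p := fun h => ∀ a b, 2 • S.D b (S.D a (S.p h)) = 0) ?_ ?_ ?_ ?_ ?_ ?_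
    · intro x a b; exact hS.J_two x a b
    · intro x y a b; rw [hS.DD_c, smul_zero]
    · intro x y a b; rw [hS.DD_d, smul_zero]
    · intro a b; simp [S.p_one]
    · intro x hx y hy h1 h2 a b
      rw [S.p_mul (F.H_le_K hx) (F.H_le_K hy), map_add, map_add, smul_add, h1, h2, add_zero]
    · intro x hx h1 a b
      rw [S.p_inv (F.H_le_K hx), map_neg, map_neg, smul_neg, h1, neg_zero]
  obtain ⟨k, hk, rfl⟩ := S.surj m
  refine F.K_induction (p := fun k => 2 • S.D b (S.D a (S.p k)) = 0) ?_ ?_ ?_ ?_ k hk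
  · intro h hh g
    rw [← S.act_p _ (F.H_le_K hh), S.act_eq, map_add, map_add, smul_add, hH h hh, zero_add,
      ← map_nsmul, hH h hh, map_zero]
  · simp [S.p_one]
  · intro x hx y hy h1 h2
    rw [S.p_mul hx hy, map_add, map_add, smul_add, h1, h2, add_zero]
  · intro x hx h1
    rw [S.p_inv hx, map_neg, map_neg, smul_neg, h1, neg_zero]

end Good

end H324Z.A4
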