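import Mathlib

set_option autoImplicit false

namespace H324Z.A4

variable {G : Type} [Group G]

/-- commutator with the right-handed convention -/
def cm (x y : G) : G := x⁻¹ * y⁻¹ * x * y

theorem cm_mul_left (x y z : G) : cm (x * y) z = y⁻¹ * cm x z * y * cm y z := by
  simp only [cm]; group

theorem cm_mul_right (x y z : G) : cm x (y * z) = cm x z * (z⁻¹ * cm x y * z) := by
  simp only [cm]; group

theorem cm_inv (x y : G) : (cm x y)⁻¹ = cm y x := by
  simp only [cm]; group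

theorem conj_eq (x g : G) : g⁻¹ * x * g = x * cm x g := by
  simp only [cm]; group

theorem cm_conj (x y g : G) : g⁻¹ * cm x y * g = cm (g⁻¹ * x * g) (g⁻¹ * y * g) := by
  simp only [cm]; group

theorem mul_eq_cm (x y : G) : x * y = y * x * cm x y := by
  simp only [cm]; group

theorem cm_eq_one {x y : G} : cm x y = 1 ↔ x * y = y * x := by
  constructor
  · intro h; rw [mul_eq_cm x y, h, mul_one]
  · intro h
    have : cm x y = x⁻¹ * y⁻¹ * (x * y) := by simp only [cm]; group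
    rw [this, h]; group

theorem cm_one_symm {x y : G} (h : cm x y = 1) : cm y x = 1 := by
  rw [← cm_inv, h, inv_one]

theorem conj_of_cm {x y : G} (h : cm x y = 1) : y⁻¹ * x * y = x := by
  rw [conj_eq, h, mul_one]

@[simp] theorem cm_one_left (x : G) : cm 1 x = 1 := by simp [cm]
@[simp] theorem cm_one_right (x : G) : cm x 1 = 1 := by simp [cm]
@[simp] theorem cm_self (x : G) : cm x x = 1 := by simp [cm]

theorem conj_mem' {N : Subgroup G} (hN : N.Normal) {x : G} (hx : x ∈ N) (g : G) :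
    g⁻¹ * x * g ∈ N := hN.conj_mem' x hx g

theorem cm_mem_left {N : Subgroup G} (hN : N.Normal) {x : G} (hx : x ∈ N) (g : G) :
    cm x g ∈ N := by
  have : cm x g = x⁻¹ * (g⁻¹ * x * g) := by simp only [cm]; group
  rw [this]; exact N.mul_mem (N.inv_mem hx) (conj_mem' hN hx g)

theorem cm_mem_right {N : Subgroup G} (hN : N.Normal) {x : G} (hx : x ∈ N) (g : G) :
    cm g x ∈ N := by
  rw [← cm_inv]; exact N.inv_mem (cm_mem_left hN hx g)

theorem map_cm {G' : Type} [Group G'] (f : G →* G') (x y : G) : f (cm x y) = cm (f x) (f y) := by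
  simp [cm]

/-- an abelian section `N1 / (N1 ⊓ N2)` of `G`, written additively, with the action of `G` -/
structure Sec (N1 N2 : Subgroup G) where
  M : Type
  [inst : AddCommGroup M]
  p : G → M
  act : G → M →+ M
  normal : N1.Normal
  p_mul : ∀ {x y : G}, x ∈ N1 → y ∈ N1 → p (x * y) = p x + p y
  p_eq_zero : ∀ {x : G}, x ∈ N1 → (p x = 0 ↔ x ∈ N2)
  surj : ∀ m, ∃ x ∈ N1, p x = m
  act_p : ∀ (g : G) {x : G}, x ∈ N1 → act g (p x) = p (g⁻¹ * x * g)

attribute [instance] Sec.inst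

theorem exists_sec (N1 N2 : Subgroup G) (h1 : N1.Normal) (h2 : N2.Normal)
    (hc : ∀ x ∈ N1, ∀ y ∈ N1, cm x y ∈ N2) : Nonempty (Sec N1 N2) := by
  classical
  let S : Subgroup (G ⧸ N2) := N1.map (QuotientGroup.mk' N2)
  have hS : S.Normal := h1.map _ (QuotientGroup.mk'_surjective N2)
  have hcomm : ∀ a b : S, a * b = b * a := by
    rintro ⟨_, x, hx, rfl⟩ ⟨_, y, hy, rfl⟩
    apply Subtype.ext
    apply cm_eq_one.mp
    change cm (QuotientGroup.mk' N2 x) (QuotientGroup.mk' N2 y) = 1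
    rw [← map_cm]
    exact (QuotientGroup.eq_one_iff _).mpr (hc x hx y hy)
  let _ : CommGroup S := { (inferInstance : Group S) with mul_comm := hcomm }
  let p : G → Additive S := fun x =>
    if h : x ∈ N1 then Additive.ofMul ⟨QuotientGroup.mk' N2 x, x, h, rfl⟩ else 0
  have hp : ∀ x (h : x ∈ N1), p x = Additive.ofMul ⟨QuotientGroup.mk' N2 x, x, h, rfl⟩ :=
    fun x h => dif_pos h
  refine ⟨{ M := Additive S
            p := p
            act := fun g => MonoidHom.toAdditive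
              (MulAut.conjNormal (H := S) (QuotientGroup.mk' N2 g)⁻¹).toMonoidHom
            normal := h1
            p_mul := ?_, p_eq_zero := ?_, surj := ?_, act_p := ?_ }⟩
  · intro x y hx hy
    rw [hp _ (N1.mul_mem hx hy), hp _ hx, hp _ hy, ← ofMul_mul]
    congr 1
  · intro x hx
    rw [hp _ hx, ofMul_eq_zero, Subtype.ext_iff]
    exact QuotientGroup.eq_one_iff _
  · rintro ⟨_, x, hx, rfl⟩
    exact ⟨x, hx, hp _ hx⟩
  · intro g x hx
    rw [hp _ hx, hp _ (conj_mem' h1 hx g)]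
    apply Additive.toMul.injective
    apply Subtype.ext
    simp

namespace Sec

variable {N1 N2 : Subgroup G} (S : Sec N1 N2)

theorem p_one : S.p 1 = 0 := by
  have := S.p_mul N1.one_mem N1.one_mem
  rw [mul_one] at this
  exact left_eq_add.mp this

theorem p_inv {x : G} (hx : x ∈ N1) : S.p x⁻¹ = - S.p x := by
  have := S.p_mul hx (N1.inv_mem hx)
  rw [mul_inv_cancel, S.p_one] at this
  exact eq_neg_of_add_eq_zero_right this.symm

theorem p_zero {x : G} (hx : x ∈ N1) (h2 : x ∈ N2) : S.p x = 0 := (S.p_eq_zero hx).mpr h2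

theorem p_eq_iff {x y : G} (hx : x ∈ N1) (hy : y ∈ N1) : S.p x = S.p y ↔ y⁻¹ * x ∈ N2 := by
  rw [← S.p_eq_zero (N1.mul_mem (N1.inv_mem hy) hx), S.p_mul (N1.inv_mem hy) hx, S.p_inv hy,
    neg_add_eq_zero, eq_comm]

/-- the operator `g - 1` -/
def D (g : G) : S.M →+ S.M := S.act g - AddMonoidHom.id _

theorem D_apply (g : G) (m : S.M) : S.D g m = S.act g m - m := rfl

theorem act_eq (g : G) (m : S.M) : S.act g m = m + S.D g m := by rw [D_apply]; abel

theorem p_cm {x : G} (hx : x ∈ N1) (g : G) : S.p (cm x g) = S.D g (S.p x) := by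
  have : cm x g = x⁻¹ * (g⁻¹ * x * g) := by simp only [cm]; group
  rw [this, S.p_mul (N1.inv_mem hx) (conj_mem' S.normal hx g), S.p_inv hx, D_apply, S.act_p g hx]
  abel

theorem act_mul (g g' : G) (m : S.M) : S.act (g * g') m = S.act g' (S.act g m) := by
  obtain ⟨x, hx, rfl⟩ := S.surj m
  rw [S.act_p _ hx, S.act_p _ hx, S.act_p _ (conj_mem' S.normal hx g)]
  congr 1; group

theorem act_one (m : S.M) : S.act 1 m = m := by
  obtain ⟨x, hx, rfl⟩ := S.surj m
  rw [S.act_p _ hx]; simp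

theorem act_inj (g : G) {m m' : S.M} (h : S.act g m = S.act g m') : m = m' := by
  have := congrArg (S.act g⁻¹) h
  rwa [← act_mul, ← act_mul, mul_inv_cancel, act_one, act_one] at this

theorem D_mul (g g' : G) (m : S.M) : S.D (g * g') m = S.D g m + S.D g' m + S.D g' (S.D g m) := by
  simp only [D_apply, act_mul, map_sub]; abel

theorem D_one (m : S.M) : S.D 1 m = 0 := by rw [D_apply, act_one, sub_self]

theorem D_triv {k : G} (h : ∀ x ∈ N1, cm x k ∈ N2) (m : S.M) : S.D k m = 0 := by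
  obtain ⟨x, hx, rfl⟩ := S.surj m
  rw [← S.p_cm hx]; exact S.p_zero (cm_mem_left S.normal hx k) (h x hx)

theorem act_triv {k : G} (h : ∀ x ∈ N1, cm x k ∈ N2) (m : S.M) : S.act k m = m := by
  rw [act_eq, S.D_triv h, add_zero]

theorem exists_lift {A : Type} [AddCommGroup A] (f : G → A)
    (hadd : ∀ x ∈ N1, ∀ y ∈ N1, f (x * y) = f x + f y)
    (hz : ∀ x ∈ N1, x ∈ N2 → f x = 0) : ∃ F : S.M →+ A, ∀ x ∈ N1, F (S.p x) = f x := by
  choose s hs hs' using S.surj
  have key : ∀ x ∈ N1, ∀ y ∈ N1, S.p x = S.p y → f x = f y := by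
    intro x hx y hy h
    have h2 := (S.p_eq_iff hx hy).mp h
    have h1 : y⁻¹ * x ∈ N1 := N1.mul_mem (N1.inv_mem hy) hx
    have := hadd y hy _ h1
    rw [hz _ h1 h2, add_zero, mul_inv_cancel_left] at this
    exact this
  refine ⟨AddMonoidHom.mk' (fun m => f (s m)) ?_, ?_⟩
  · intro a b
    rw [← hadd _ (hs a) _ (hs b)]
    apply key _ (hs _) _ (N1.mul_mem (hs a) (hs b))
    rw [S.p_mul (hs a) (hs b), hs', hs', hs']
  · intro x hx
    exact key _ (hs _) _ hx (hs' _)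

theorem exists_lift2 {N3 N4 : Subgroup G} (S' : Sec N3 N4) {A : Type} [AddCommGroup A]
    (f : G → G → A)
    (hadd : ∀ x ∈ N1, ∀ y ∈ N1, ∀ z ∈ N3, f (x * y) z = f x z + f y z)
    (hadd' : ∀ x ∈ N1, ∀ y ∈ N3, ∀ z ∈ N3, f x (y * z) = f x y + f x z)
    (hz : ∀ x ∈ N1, x ∈ N2 → ∀ z ∈ N3, f x z = 0)
    (hz' : ∀ x ∈ N1, ∀ z ∈ N3, z ∈ N4 → f x z = 0) :
    ∃ F : S.M →+ S'.M →+ A, ∀ x ∈ N1, ∀ z ∈ N3, F (S.p x) (S'.p z) = f x z := by
  classical
  have h1 : ∀ x, ∃ F : S'.M →+ A, x ∈ N1 → ∀ z ∈ N3, F (S'.p z) = f x z := by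
    intro x
    by_cases hx : x ∈ N1
    · obtain ⟨F, hF⟩ := S'.exists_lift (f x) (hadd' x hx) (hz' x hx)
      exact ⟨F, fun _ => hF⟩
    · exact ⟨0, fun h => absurd h hx⟩
  choose F hF using h1
  obtain ⟨F2, hF2⟩ := S.exists_lift F (by
      intro x hx y hy
      ext m
      obtain ⟨z, hz, rfl⟩ := S'.surj m
      rw [AddMonoidHom.add_apply, hF _ (N1.mul_mem hx hy) _ hz, hF _ hx _ hz, hF _ hy _ hz,
        hadd x hx y hy z hz]) (by
      intro x hx hx2
      ext m
      obtain ⟨z, hz3, rfl⟩ := S'.surj m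
      rw [hF _ hx _ hz3, hz x hx hx2 z hz3]; rfl)
  exact ⟨F2, fun x hx z hz => by rw [hF2 x hx, hF x hx z hz]⟩

/-- Jacobi identity in a section -/
theorem jacobi (g1 g2 g3 : G) (h13 : cm g1 g3 ∈ N1) (h23 : cm g2 g3 ∈ N1)
    (hc : cm (cm g1 g2) g3 ∈ N1) (htr : ∀ m, S.act (cm g1 g2) m = m) :
    S.D g2 (S.p (cm g1 g3)) = S.D g1 (S.p (cm g2 g3)) + S.p (cm (cm g1 g2) g3) := by
  have e1 : S.p (cm (g1 * g2) g3) = S.act g2 (S.p (cm g1 g3)) + S.p (cm g2 g3) := by
    rw [cm_mul_left, S.p_mul (conj_mem' S.normal h13 _) h23, S.act_p _ h13]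
  have h21 : cm (g2 * g1) g3 ∈ N1 := by
    rw [cm_mul_left]; exact N1.mul_mem (conj_mem' S.normal h23 _) h13
  have e2 : S.p (cm (g2 * g1) g3) = S.act g1 (S.p (cm g2 g3)) + S.p (cm g1 g3) := by
    rw [cm_mul_left, S.p_mul (conj_mem' S.normal h23 _) h13, S.act_p _ h23]
  rw [mul_eq_cm g1 g2, cm_mul_left, S.p_mul (conj_mem' S.normal h21 _) hc, ← S.act_p _ h21, htr,
    e2] at e1
  rw [D_apply, D_apply]
  linear_combination (norm := abel) - e1

end Sec

end H324Z.A4
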