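import Pool.Agent.H324Z.A4.Pair

set_option autoImplicit false

namespace H324Z.A4

variable {G : Type} [Group G] {F : Folder G}

namespace Ctx

variable (X : Ctx F)

noncomputable def S4 (z x y w : G) : X.U.M := X.br (X.V.p (F.t w)) (X.V.D z (X.V.p (F.c x y)))

noncomputable def T5 (z x y u v : G) : X.U.M := X.br (X.V.p (F.c u v)) (X.V.D z (X.V.p (F.c x y)))

theorem S4_a (z x y w : G) : X.S4 z x y w = - X.S4 z y x w := by
  simp only [S4]; rw [(X.good.R4 x y).2, map_neg, map_neg]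

theorem S4_b (z x y w : G) : X.S4 z x y w = - X.S4 w x y z := by
  simp only [S4]
  rw [X.br_sym (F.tH _) (F.cH _ _), (X.good.R4 w z).1, map_neg, X.br_sym (F.cH _ _) (F.tH _)]

theorem S4_c (z x y w : G) : X.S4 z x y w = - X.S4 z x w y := by
  simp only [S4]
  rw [← X.good.R1, X.br_sym (F.tH _) (F.dH _ _), (X.good.R4 w y).1, map_neg,
    X.br_sym (F.dH _ _) (F.tH _), X.good.R1]

theorem S4_d (z x y w : G) : X.S4 z x y w = - X.S4 x z y w := by
  rw [X.S4_b z x y w, X.S4_c w x y z, X.S4_a w x z y, X.S4_c w z x y, X.S4_b w z y x]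
  simp

theorem T5_a (z x y u v : G) : X.T5 z x y u v = - X.T5 z y x u v := by
  simp only [T5]; rw [(X.good.R4 x y).2, map_neg, map_neg]

theorem T5_s (z x y u v : G) : X.T5 z x y u v = X.T5 z u v x y := by
  simp only [T5]; rw [X.br_sym (F.cH _ _) (F.cH _ _)]

theorem T5_σ (z x y u v : G) : X.T5 z x y u v = X.T5 y u z x v := by
  simp only [T5]
  rw [← X.good.R1 x z y, X.br_sym (F.cH _ _) (F.dH _ _), ← X.good.R1 u y v,
    X.br_sym (F.dH _ _) (F.dH _ _), X.good.R1 x z v, X.br_sym (F.dH _ _) (F.cH _ _), X.good.R1 u y z]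

theorem T5_14 (a b c d e : G) : X.T5 a b c d e = - X.T5 d b c a e := by
  rw [X.T5_σ a b c d e, X.T5_a c d a b e, X.T5_σ c a d b e]

theorem T5_12 (a b c d e : G) : X.T5 a b c d e = - X.T5 b a c d e := by
  rw [X.T5_s a b c d e, X.T5_14 a d e b c, X.T5_s b d e a c]

theorem T5_34 (a b c d e : G) : X.T5 a b c d e = - X.T5 a b d c e := by
  rw [X.T5_a a b c d e, X.T5_12 a c b d e, X.T5_14 c a b d e, X.T5_12 d a b c e, X.T5_a a d b c e]
  simp

theorem br_d_c (z x y u v : G) :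
    X.br (X.V.p (F.d u v)) (X.V.D z (X.V.p (F.c x y))) = X.T5 v u z x y := by
  simp only [T5]; rw [X.br_sym (F.dH _ _) (F.cH _ _), X.good.R1]

theorem gam_anti (z x y : G) : X.V.D z (X.V.p (F.c x y)) = - X.V.D x (X.V.p (F.c z y)) := by
  apply eq_neg_of_add_eq_zero_left
  apply X.nondeg2
  · intro w; rw [map_add]; exact add_eq_zero_iff_eq_neg.mpr (X.S4_d z x y w)
  · intro u v; rw [map_add]; exact add_eq_zero_iff_eq_neg.mpr (X.T5_12 z x y u v)
  · intro u v; rw [map_add, X.br_d_c, X.br_d_c]; exact add_eq_zero_iff_eq_neg.mpr (X.T5_34 v u z x y)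

theorem three_gam (z x y : G) :
    3 • X.V.D z (X.V.p (F.c x y)) = X.V.D z (X.V.D y (X.V.p (F.t x))) := by
  have e := X.good.R5 x y z
  rw [(X.good.R4 y z).2, map_neg, X.gam_anti x z y, X.gam_anti y z x, (X.good.R4 y x).2,
    map_neg] at e
  linear_combination (norm := abel) e

theorem br_c_J (u v x a b : G) :
    X.br (X.V.p (F.c u v)) (X.V.D b (X.V.D a (X.V.p (F.t x)))) = 0 := by
  rw [X.br_sym2 (F.cH _ _) (F.tH _), X.good.DD_c, map_zero]

theorem br_d_J (u v x a b : G) :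
    X.br (X.V.p (F.d u v)) (X.V.D b (X.V.D a (X.V.p (F.t x)))) = 0 := by
  rw [X.br_sym2 (F.dH _ _) (F.tH _), X.good.DD_d, map_zero]

theorem br_e_J (u v x a b : G) :
    X.br (X.V.p (F.e u v)) (X.V.D b (X.V.D a (X.V.p (F.t x)))) = 0 := by
  rw [X.br_sym2 (F.eH _ _) (F.tH _), X.good.DD_e, map_zero]

theorem cmU {k : G} (hk : k ∈ F.K) (hi : ∀ g, X.V.D g (X.V.p k) = 0) (g : G) :
    cm k g ∈ F.K ⊓ F.C2 :=
  ⟨F.cm_mem_K _ _, (X.V.p_eq_zero (F.cm_mem_K _ _)).mp (by rw [X.V.p_cm hk, hi])⟩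

theorem psi_mul {k : G} (hk : k ∈ F.K) (hi : ∀ g, X.V.D g (X.V.p k) = 0) (g g' : G) :
    X.U.p (cm k (g * g')) = X.U.p (cm k g) + X.U.D g' (X.U.p (cm k g)) + X.U.p (cm k g') := by
  rw [cm_mul_right, X.U.p_mul (X.cmU hk hi _) (conj_mem' X.U.normal (X.cmU hk hi _) _),
    ← X.U.act_p _ (X.cmU hk hi _), X.U.act_eq]; abel

theorem psi_cm {k : G} (hk : k ∈ F.K) (hi : ∀ g, X.V.D g (X.V.p k) = 0) (g g' : G) :
    X.U.p (cm k (cm g g')) = X.U.D g' (X.U.p (cm k g)) - X.U.D g (X.U.p (cm k g')) := by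
  have e := X.psi_mul hk hi g g'
  rw [mul_eq_cm g g', X.psi_mul hk hi, X.psi_mul hk hi g' g, X.U_D_K (F.cm_mem_K _ _)] at e
  linear_combination (norm := abel) e

theorem psi_add {k k' : G} (hk : k ∈ F.K) (hi : ∀ g, X.V.D g (X.V.p k) = 0) (hk' : k' ∈ F.K)
    (hi' : ∀ g, X.V.D g (X.V.p k') = 0) (e : X.V.p k + X.V.p k' = 0) (g z : G) :
    (2 : ℕ) • X.U.D z (X.U.p (cm k g)) = - ((2 : ℕ) • X.U.D z (X.U.p (cm k' g))) := by
  have hu : k * k' ∈ F.K ⊓ F.C2 := ⟨F.K.mul_mem hk hk',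
    (X.V.p_eq_zero (F.K.mul_mem hk hk')).mp (by rw [X.V.p_mul hk hk', e])⟩
  have e1 := X.U.p_cm hu g
  rw [cm_mul_left, X.U.p_mul (conj_mem' X.U.normal (X.cmU hk hi _) _) (X.cmU hk' hi' _),
    ← X.U.act_p _ (X.cmU hk hi _), X.U_act_K hk'] at e1
  have e2 := X.two_DD_U g z (X.U.p (k * k'))
  rw [← e1, map_add] at e2
  linear_combination (norm := abel) e2

theorem stepC (h0 : G → G) (hH : ∀ u, h0 u ∈ F.H)
    (hDD : ∀ u a b, X.V.D b (X.V.D a (X.V.p (h0 u))) = 0)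
    (hanti : ∀ u a, X.V.D a (X.V.p (h0 u)) = - X.V.D u (X.V.p (h0 a))) (a u y z : G) :
    4 • X.br (X.V.D a (X.V.p (h0 u))) (X.V.p (F.c y z)) = 0 := by
  have hK : ∀ u, h0 u ∈ F.K := fun u => F.H_le_K (hH u)
  have hi : ∀ u g g', X.V.D g' (X.V.p (cm (h0 u) g)) = 0 := fun u g g' => by
    rw [X.V.p_cm (hK u), hDD]
  have c1 : ∀ u g y z, X.U.D z (X.U.p (cm (cm (h0 u) g) (F.l y))) =
      X.U.D z (X.U.p (cm (cm (h0 u) g) (F.r y))) := by
    intro u g y z
    rw [F.l_eq y, X.psi_mul (F.cm_mem_K _ _) (hi u g), X.U_D_K (F.tK _), add_zero, map_add,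
      ← X.br_p _ (F.cm_mem_K _ _) _ (F.tK _), X.br_D, hi, X.V.p_cm (hK u), X.br_DD]
    simp
  let ψ : G → G → G → G → X.U.M := fun z a u y =>
    2 • X.U.D z (X.U.p (cm (cm (h0 u) (F.l a)) (F.r y)))
  have s1 : ∀ z a u y, ψ z a u y = - ψ z u a y := by
    intro z a u y
    simp only [ψ]
    rw [X.psi_add (F.cm_mem_K _ _) (hi u (F.l a)) (F.cm_mem_K _ _) (hi a (F.l u))]
    rw [X.V.p_cm (hK _), X.V.p_cm (hK _), X.good.D_l, X.good.D_l, hanti]; simp
  have s2 : ∀ z a u y, ψ z a u y = ψ z y u a := by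
    intro z a u y
    have g1 : cm (cm (h0 u) (F.l a)) (F.r y) = cm (cm (h0 u) (F.l a)) (cm (h0 u) (F.r y)) *
        cm (cm (h0 u) (F.r y)) (F.l a) * cm (cm (h0 u) (F.r y * F.l a)) (F.c a y) := by
      have a1 : cm (h0 u) (F.l a * F.r y) = cm (h0 u) (F.r y * F.l a) *
          cm (cm (h0 u) (F.r y * F.l a)) (F.c a y) := by
        rw [mul_eq_cm (F.l a) (F.r y), cm_mul_right]
        change cm (h0 u) (F.c a y) * ((F.c a y)⁻¹ * _ * F.c a y) = _
        rw [F.comm (hH u) (F.cH a y), one_mul, conj_eq]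
      have a2 : cm (cm (h0 u) (F.l a)) (F.r y) = (cm (h0 u) (F.r y) * cm (h0 u) (F.l a))⁻¹ *
          cm (h0 u) (F.l a * F.r y) := by simp only [cm]; group
      rw [a2, a1]
      generalize cm (cm (h0 u) (F.r y * F.l a)) (F.c a y) = E
      simp only [cm]; group
    have m1 : cm (cm (h0 u) (F.l a)) (cm (h0 u) (F.r y)) ∈ F.K ⊓ F.C2 :=
      X.cU (F.cm_mem_K _ _) (F.cm_mem_K _ _)
    have m2 := X.cmU (F.cm_mem_K _ _) (hi u (F.r y)) (F.l a)
    have m3 := X.cmU (F.cm_mem_K _ _) (hi u (F.r y * F.l a)) (F.c a y)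
    simp only [ψ]
    rw [g1, X.U.p_mul (Subgroup.mul_mem _ m1 m2) m3, X.U.p_mul m1 m2,
      X.U.p_zero m1 (X.hF.PP (F.cm_P (hK u) _) (F.cm_P (hK u) _)), zero_add, map_add,
      ← X.br_p _ (F.cm_mem_K _ _) _ (F.cK _ _), X.br_D, hi, X.V.p_cm (hK u), X.br_DD, map_zero,
      AddMonoidHom.zero_apply, add_zero, add_zero, c1]
    have k1 := X.psi_add (F.cm_mem_K _ _) (hi u (F.r y)) (F.K.inv_mem (F.cm_mem_K (h0 u) (F.l y)))
      (fun g => by rw [X.V.p_inv (F.cm_mem_K _ _), map_neg, hi, neg_zero])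
      (by rw [X.V.p_inv (F.cm_mem_K _ _), X.V.p_cm (hK u), X.V.p_cm (hK u), X.good.D_l, X.good.D_r,
        add_neg_cancel]) (F.r a) z
    have k2 := X.psi_add (F.cm_mem_K _ _) (hi u (F.l y)) (F.K.inv_mem (F.cm_mem_K (h0 u) (F.l y)))
      (fun g => by rw [X.V.p_inv (F.cm_mem_K _ _), map_neg, hi, neg_zero])
      (by rw [X.V.p_inv (F.cm_mem_K _ _), add_neg_cancel]) (F.r a) z
    rw [k1, k2]
  have s3 : ∀ z a u y, 2 • ψ z a u y = 0 := by
    intro z a u y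
    linear_combination (norm := abel) s1 z a u y - s2 z u a y - s1 z y a u + s2 z a y u
      + s1 z u y a - s2 z y u a
  have e := X.psi_cm (F.cm_mem_K _ _) (hi u (F.l a)) (F.l y) (F.r z)
  change X.U.p (cm _ (F.c y z)) = _ at e
  rw [← X.br_p _ (F.cm_mem_K _ _) _ (F.cK _ _), X.V.p_cm (hK u), X.good.D_l, X.U_D_l, X.U_D_r,
    c1] at e
  have t1 := s3 z a u y
  have t2 := s3 y a u z
  simp only [ψ] at t1 t2
  rw [e]
  linear_combination (norm := abel) t1 - t2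

theorem T5_zero (z x y u v : G) : X.T5 z x y u v = 0 := by
  have e1 := X.stepC (fun x => F.c x y) (fun x => F.cH x y) (fun x a b => X.good.DD_c x y a b)
    (fun x a => X.gam_anti a x y) z x u v
  have e2 := congrArg (X.br (X.V.p (F.c u v))) (X.three_gam z x y)
  rw [X.br_c_J, map_nsmul] at e2
  rw [X.br_anti] at e1
  simp only [T5]
  linear_combination (norm := abel) - e1 - e2

theorem two_S4 (z x y w : G) : 2 • X.S4 z x y w = 0 := by
  have p2 : ∀ x, X.V.p (F.t x * F.t x) = 2 • X.V.p (F.t x) := fun x => by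
    rw [X.V.p_mul (F.tK _) (F.tK _), two_nsmul]
  have e1 := X.stepC (fun x => F.t x * F.t x) (fun x => F.H.mul_mem (F.tH x) (F.tH x))
    (fun x a b => by rw [p2, map_nsmul, map_nsmul, X.good.J_two])
    (fun x a => by rw [p2, p2, map_nsmul, map_nsmul, (X.good.R4 x a).1, smul_neg]) z w x y
  rw [p2, map_nsmul, X.br_anti, map_nsmul, X.br_sym (F.cH _ _) (F.tH _)] at e1
  have e2 := congrArg (fun m => X.br (X.V.p (F.t w)) (2 • m)) (X.three_gam z x y)
  simp only [X.good.J_two, map_zero, map_nsmul] at e2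
  simp only [S4]
  linear_combination (norm := abel) - e1 - e2

theorem gam_eq (z x y : G) : X.V.D z (X.V.p (F.c x y)) = X.V.D z (X.V.D y (X.V.p (F.t x))) := by
  have e : X.V.D z (X.V.p (F.c x y)) + X.V.D z (X.V.p (F.c x y)) = 0 := by
    apply X.nondeg2
    · intro w; rw [map_add, ← two_nsmul]; exact X.two_S4 z x y w
    · intro u v; rw [map_add]; change X.T5 z x y u v + X.T5 z x y u v = 0; rw [X.T5_zero, add_zero]
    · intro u v; rw [map_add, X.br_d_c, X.T5_zero, add_zero]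
  linear_combination (norm := abel) X.three_gam z x y - e

theorem d_eq (x y : G) : X.V.p (F.d x y) = - X.V.p (F.c x y) := by
  apply eq_neg_of_add_eq_zero_left
  rw [← X.V.p_mul (F.dK _ _) (F.cK _ _)]
  apply X.inv_H (F.H.mul_mem (F.dH _ _) (F.cH _ _))
  intro g
  rw [X.V.p_mul (F.dK _ _) (F.cK _ _), map_add, X.good.R1, (X.good.R4 x g).2, map_neg,
    X.gam_anti y g x, (X.good.R4 y x).2, map_neg]
  simp

theorem e_eq (x y : G) : X.V.p (F.e x y) = - X.V.p (F.c x y) := by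
  apply eq_neg_of_add_eq_zero_left
  rw [← X.V.p_mul (F.eK _ _) (F.cK _ _)]
  apply X.inv_H (F.H.mul_mem (F.eH _ _) (F.cH _ _))
  intro g
  have e1 := (X.good.R2 g x y).1
  rw [X.gam_anti y g x, (X.good.R4 y x).2, map_neg, neg_neg] at e1
  rw [X.V.p_mul (F.eK _ _) (F.cK _ _), map_add, e1, add_neg_cancel]

end Ctx

end H324Z.A4
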