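import Pool.Agent.H324Z.A4.StepB

set_option autoImplicit false

namespace H324Z.A4

variable {G : Type} [Group G] {F : Folder G}

namespace Ctx

variable (X : Ctx F)

theorem T_pp {x y z : G} (hx : x ∈ F.K) (hy : y ∈ F.K) (hz : z ∈ F.K) :
    X.T (X.V.p x) (X.V.p y) (X.V.p z) = X.M.p (cm (cm x y) z) := by
  rw [X.T_p _ _ _ hz, X.br_p _ hx _ hy, X.pr_p _ hz _ (F.cm_mem_K _ _) (X.hF.h3 hx hy)]

theorem T_congr {a b a' b' : X.V.M} (h : X.br a b = X.br a' b') (c : X.V.M) :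
    X.T a b c = X.T a' b' c := by
  obtain ⟨z, hz, rfl⟩ := X.V.surj c
  rw [X.T_p _ _ _ hz, X.T_p _ _ _ hz, h]

theorem T_zero {a b : X.V.M} (h : X.br a b = 0) (c : X.V.M) : X.T a b c = 0 := by
  obtain ⟨z, hz, rfl⟩ := X.V.surj c
  rw [X.T_p _ _ _ hz, h, map_zero]

theorem T_anti (a b c : X.V.M) : X.T a b c = - X.T b a c := by
  obtain ⟨z, hz, rfl⟩ := X.V.surj c
  rw [X.T_p _ _ _ hz, X.T_p _ _ _ hz, X.br_anti a b, map_neg]

theorem T_jac (a b c : X.V.M) : X.T a c b = X.T b c a + X.T a b c := by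
  obtain ⟨x, hx, rfl⟩ := X.V.surj a
  obtain ⟨y, hy, rfl⟩ := X.V.surj b
  obtain ⟨z, hz, rfl⟩ := X.V.surj c
  rw [X.T_pp hx hz hy, X.T_pp hy hz hx, X.T_pp hx hy hz]
  exact jacobi_K X.hF X.M hx hy hz

theorem T_13 {h h' : G} (hh : h ∈ F.H) (hh' : h' ∈ F.H) (m : X.V.M) :
    X.T (X.V.p h) m (X.V.p h') = X.T (X.V.p h') m (X.V.p h) := by
  rw [X.T_jac, X.T_zero (X.br_H hh hh'), add_zero]

theorem T_D (g : G) (a b c : X.V.M) : X.M.D g (X.T a b c) =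
    X.T a b (X.V.D g c) + X.T (X.V.D g a) b c + X.T a (X.V.D g b) c := by
  obtain ⟨z, hz, rfl⟩ := X.V.surj c
  rw [← X.V.p_cm hz, X.T_p _ _ _ hz, X.T_p _ _ _ hz, X.T_p _ _ _ hz, X.T_p _ _ _ (F.cm_mem_K _ _),
    X.pr_D hz, X.br_D, map_add, add_assoc]

theorem exists_lam (m m' : X.V.M) : ∃ lam : X.V.M →+ X.M.M,
    (∀ h ∈ F.H, lam (X.V.p h) = X.T m m' (X.V.p h)) ∧
    (∀ g w, X.M.D g (lam w) = lam (X.V.D g w)) ∧ ∀ w, (∀ g, X.V.D g w = 0) → lam w = 0 := by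
  obtain ⟨x, hx, rfl⟩ := X.V.surj m
  obtain ⟨y, hy, rfl⟩ := X.V.surj m'
  have hu := X.cU hx hy
  obtain ⟨w, hw, hw2, e, hl⟩ := X.U_split hu
  have a1 : ∀ h ∈ F.H, X.pr h (X.U.p (F.l (cm x y))) = X.T (X.V.p x) (X.V.p y) (X.V.p h) := by
    intro h hh
    rw [X.T_p _ _ _ (F.H_le_K hh), X.br_p _ hx _ hy, e, map_add, X.pr_H hh hw hw2, add_zero]
  have a2 : ∀ k ∈ F.K, X.pr (F.l k) (X.U.p (F.l (cm x y))) = 0 := by
    intro k hk
    rw [X.pr_p _ (F.l_mem_K hk) _ (lU hu).1 (lU hu).2, F.l_comm_l hu.2 hk, X.M.p_one]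
  obtain ⟨f, hf⟩ := X.V.exists_lift (fun k => X.pr k (X.U.p (F.l (cm x y))))
    (fun a ha b hb => X.pr_mul ha hb _) (by
      intro k hk h2
      obtain ⟨h, hh, e1⟩ := F.exists_l k
      have h3 : h ∈ F.C2 := by
        have : h = (F.l k)⁻¹ * k := by rw [eq_inv_mul_iff_mul_eq]; exact e1.symm
        rw [this]; exact F.C2.mul_mem (F.C2.inv_mem (lU ⟨hk, h2⟩).2) h2
      rw [e1, X.pr_mul (F.l_mem_K hk) (F.H_le_K hh), a2 k hk, a1 h hh, X.V.p_zero (F.H_le_K hh) h3]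
      simp)
  refine ⟨f, fun h hh => by rw [hf _ (F.H_le_K hh), a1 h hh], ?_, ?_⟩
  · intro g m
    obtain ⟨k, hk, rfl⟩ := X.V.surj m
    rw [← X.V.p_cm hk, hf _ hk, hf _ (F.cm_mem_K _ _), X.pr_D hk, hl, map_zero, add_zero]
  · intro m hm
    obtain ⟨k, hk, rfl⟩ := X.inv_l hm
    rw [hf _ (F.l_mem_K hk), a2 k hk]

theorem N_eq (m m' m'' : X.V.M) (a b : G) : X.T m (X.V.D a m') (X.V.D b m'') =
    X.M.D b (X.T m (X.V.D a m') m'') - X.T m (X.V.D b (X.V.D a m')) m'' := by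
  rw [X.T_D, X.T_zero (X.br_DD _ _ _ _)]; abel

theorem N_12 {h h' : G} (hh : h ∈ F.H) (hh' : h' ∈ F.H) (m : X.V.M) (a : G) :
    X.T (X.V.p h) (X.V.D a (X.V.p h')) m = X.T (X.V.p h') (X.V.D a (X.V.p h)) m :=
  X.T_congr (X.br_sym hh hh' a) _

theorem N_13 {h h' : G} (hh : h ∈ F.H) (hh' : h' ∈ F.H) (m : X.V.M) (a b : G) :
    X.T (X.V.p h) (X.V.D a m) (X.V.D b (X.V.p h')) =
      X.T (X.V.p h') (X.V.D a m) (X.V.D b (X.V.p h)) := by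
  rw [X.N_eq, X.N_eq, X.T_13 hh hh', X.T_13 hh hh']

theorem N_c {h h' : G} (hh : h ∈ F.H) (hh' : h' ∈ F.H) (a b x y : G) :
    X.T (X.V.p h) (X.V.D a (X.V.p h')) (X.V.D b (X.V.p (F.c x y))) = 0 := by
  obtain ⟨lam, l1, l2, l3⟩ := X.exists_lam (X.V.p h) (X.V.D a (X.V.p h'))
  rw [X.N_eq, ← l1 _ (F.cH _ _), l2, l3 _ (X.good.DD_c x y b), X.T_13 hh (F.cH _ _),
    X.T_congr (X.br_sym2 (F.cH _ _) hh' a b), X.good.DD_c]
  simp

theorem N_t (w x y a b : G) :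
    X.T (X.V.p (F.t w)) (X.V.D a (X.V.p (F.t x))) (X.V.D b (X.V.p (F.t y))) = 0 := by
  obtain ⟨lam, l1, l2, l3⟩ := X.exists_lam (X.V.p (F.t w)) (X.V.D a (X.V.p (F.t x)))
  have e1 := l3 (X.V.p (F.c b y) - X.V.D b (X.V.p (F.t y))) (fun g => by
    rw [map_sub, X.gam_eq, X.good.J_sym b y g, sub_self])
  rw [map_sub, l1 _ (F.cH _ _), X.T_13 (F.tH _) (F.cH _ _), X.N_12 (F.cH _ _) (F.tH _), X.gam_eq,
    X.good.J_sym b y a, X.good.D_comm a b] at e1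
  rw [X.N_eq, ← l1 _ (F.tH _), l2, X.T_13 (F.tH w) (F.tH y),
    X.T_congr (X.br_sym2 (F.tH y) (F.tH x) a b)]
  linear_combination (norm := abel) - e1

theorem H_ind {q : X.V.M → Prop} (ht : ∀ x, q (X.V.p (F.t x))) (hc : ∀ x y, q (X.V.p (F.c x y)))
    (h0 : q 0) (hadd : ∀ a b, q a → q b → q (a + b)) (hneg : ∀ a, q a → q (- a)) :
    ∀ h ∈ F.H, q (X.V.p h) := by
  refine F.H_induction (p := fun h => q (X.V.p h)) ht hc ?_ ?_ ?_ ?_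
  · intro x y; rw [X.d_eq]; exact hneg _ (hc x y)
  · rw [X.V.p_one]; exact h0
  · intro x hx y hy a b; rw [X.V.p_mul (F.H_le_K hx) (F.H_le_K hy)]; exact hadd _ _ a b
  · intro x hx a; rw [X.V.p_inv (F.H_le_K hx)]; exact hneg _ a

theorem N_H {h h' h'' : G} (hh : h ∈ F.H) (hh' : h' ∈ F.H) (hh'' : h'' ∈ F.H) (a b : G) :
    X.T (X.V.p h) (X.V.D a (X.V.p h')) (X.V.D b (X.V.p h'')) = 0 := by
  have gen : ∀ m m' : X.V.M, (∀ x, X.T m m' (X.V.D b (X.V.p (F.t x))) = 0) →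
      (∀ x y, X.T m m' (X.V.D b (X.V.p (F.c x y))) = 0) →
      ∀ h ∈ F.H, X.T m m' (X.V.D b (X.V.p h)) = 0 := by
    intro m m' h1 h2
    refine X.H_ind (q := fun w => X.T m m' (X.V.D b w) = 0) h1 h2 (by simp) ?_ ?_
    · intro a b ha hb; rw [map_add, map_add, ha, hb, add_zero]
    · intro a ha; rw [map_neg, map_neg, ha, neg_zero]
  refine gen _ _ (fun y => ?_) (fun x y => X.N_c hh hh' a b x y) _ hh''
  rw [X.N_13 hh (F.tH y)]
  refine gen _ _ (fun w => ?_) (fun x y => X.N_c (F.tH _) hh' a b x y) _ hh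
  rw [X.N_12 (F.tH y) hh', X.N_13 hh' (F.tH w)]
  exact gen _ _ (fun x => X.N_t _ _ _ _ _) (fun x y => X.N_c (F.tH _) (F.tH _) a b x y) _ hh'

end Ctx

theorem IV_ind {N : Subgroup G} (S : Sec F.K N) {q : S.M → Prop}
    (h1 : ∀ h ∈ F.H, ∀ a, q (S.D a (S.p h)))
    (h0 : q 0) (hadd : ∀ a b, q a → q b → q (a + b)) (hneg : ∀ a, q a → q (- a)) :
    ∀ p ∈ F.P, q (S.p p) := by
  refine F.P_induction (p := fun h => q (S.p h)) ?_ ?_ ?_ ?_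
  · intro k hk g
    rw [S.p_cm hk]
    refine F.K_induction (p := fun k => q (S.D g (S.p k))) ?_ ?_ ?_ ?_ k hk
    · intro h hh g'
      have : S.D g (S.p (g'⁻¹ * h * g')) = S.D (g' * g) (S.p h) + - S.D g' (S.p h) := by
        rw [← S.act_p _ (F.H_le_K hh), S.act_eq, map_add, S.D_mul]; abel
      rw [this]; exact hadd _ _ (h1 h hh _) (hneg _ (h1 h hh _))
    · rw [S.p_one, map_zero]; exact h0
    · intro x hx y hy a b; rw [S.p_mul hx hy, map_add]; exact hadd _ _ a b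
    · intro x hx a; rw [S.p_inv hx, map_neg]; exact hneg _ a
  · rw [S.p_one]; exact h0
  · intro x hx y hy a b; rw [S.p_mul (F.P_le_K hx) (F.P_le_K hy)]; exact hadd _ _ a b
  · intro x hx a; rw [S.p_inv (F.P_le_K hx)]; exact hneg _ a

namespace Ctx

variable (X : Ctx F)

theorem V_split (m : X.V.M) : ∃ h ∈ F.H, ∃ p ∈ F.P, m = X.V.p h + X.V.p p := by
  obtain ⟨k, hk, rfl⟩ := X.V.surj m
  obtain ⟨h, hh, p, hp, rfl⟩ := F.K_eq hk
  exact ⟨h, hh, p, hp, X.V.p_mul (F.H_le_K hh) (F.P_le_K hp)⟩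

theorem T_reduce (c : X.V.M) (hc : ∀ h ∈ F.H, ∀ h' ∈ F.H, ∀ a,
    X.T (X.V.p h) (X.V.D a (X.V.p h')) c = 0) (m m' : X.V.M) : X.T m m' c = 0 := by
  have a1 : ∀ h ∈ F.H, ∀ p ∈ F.P, X.T (X.V.p h) (X.V.p p) c = 0 := by
    intro h hh
    refine IV_ind X.V (q := fun w => X.T (X.V.p h) w c = 0) (hc h hh) (by simp) ?_ ?_
    · intro a b ha hb; rw [map_add, AddMonoidHom.add_apply, ha, hb, add_zero]
    · intro a ha; rw [map_neg, AddMonoidHom.neg_apply, ha, neg_zero]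
  obtain ⟨h, hh, p, hp, rfl⟩ := X.V_split m
  obtain ⟨h', hh', p', hp', rfl⟩ := X.V_split m'
  simp only [map_add, AddMonoidHom.add_apply]
  rw [X.T_zero (X.br_H hh hh'), a1 h hh p' hp', X.T_anti (X.V.p p), a1 h' hh' p hp,
    X.T_zero (X.br_P hp hp')]
  simp

theorem T_P (m m' : X.V.M) {p : G} (hp : p ∈ F.P) : X.T m m' (X.V.p p) = 0 := by
  apply X.T_reduce
  intro h hh h' hh' a
  refine IV_ind X.V (q := fun w => X.T (X.V.p h) (X.V.D a (X.V.p h')) w = 0)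
    (fun h'' hh'' b => X.N_H hh hh' hh'' a b) (by simp) ?_ ?_ p hp
  · intro a b ha hb; rw [map_add, ha, hb, add_zero]
  · intro a ha; rw [map_neg, ha, neg_zero]

include X in
theorem Kd_P {x p : G} (hx : x ∈ F.Kd) (hp : p ∈ F.P) : cm x p = 1 := by
  apply Subgroup.mem_bot.mp
  refine F.Kd_induction (p := fun k => cm k p ∈ (⊥ : Subgroup G)) ?_ (by simp)
    (fun _ _ _ _ a b => cm_mul_mem inferInstance a b) (fun _ _ a => cm_inv_mem inferInstance a) x hx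
  intro a ha b hb
  rw [← X.M.p_eq_zero (F.cm_Kd (F.cm_mem_K _ _) (F.P_le_K hp)), ← X.T_pp ha hb (F.P_le_K hp),
    X.T_P _ _ hp]

end Ctx

end H324Z.A4
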