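import Pool.Agent.H324Z.A4.StepD

set_option autoImplicit false

namespace H324Z.A4

variable {G : Type} [Group G] {F : Folder G}

/-- the centraliser of `P` -/
def CP (F : Folder G) : Subgroup G where
  carrier := {k | ∀ p ∈ F.P, cm k p = 1}
  one_mem' := by simp
  mul_mem' := by
    intro a b ha hb p hp
    rw [cm_mul_left, ha p hp, hb p hp]; simp
  inv_mem' := by
    intro a ha p hp
    exact Subgroup.mem_bot.mp (cm_inv_mem inferInstance (Subgroup.mem_bot.mpr (ha p hp)))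

theorem CP_normal (F : Folder G) : (CP F).Normal := by
  apply Folder.normal_of_conj
  intro k hk g p hp
  have e : cm (g⁻¹ * k * g) p = g⁻¹ * cm k (g⁻¹⁻¹ * p * g⁻¹) * g := by simp only [cm]; group
  rw [e, hk _ (conj_mem' F.P_normal hp _)]; simp

/-- one more section and two more pairings -/
structure Ctx2 (F : Folder G) extends Ctx F where
  Q : Sec F.P (CP F)
  om : Q.M →+ Q.M →+ M.M
  om_p : ∀ p ∈ F.P, ∀ p' ∈ F.P, om (Q.p p) (Q.p p') = M.p (cm p p')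
  ph : G → V.M →+ Q.M
  ph_p : ∀ g, ∀ k ∈ F.K, ph g (V.p k) = Q.p (cm k g)

theorem Ctx.Kd_CP (X : Ctx F) {x : G} (hx : x ∈ F.Kd) : x ∈ CP F := fun _ hp => X.Kd_P hx hp

theorem Ctx.del_mul (X : Ctx F) {s p p' : G} (hs : s ∈ F.K) (hp : p ∈ F.P) (hp' : p' ∈ F.P) :
    X.M.p (cm s (p * p')) = X.M.p (cm s p) + X.M.p (cm s p') := by
  have a := F.cm_Kd hs (F.P_le_K hp)
  have b := F.cm_Kd hs (F.P_le_K hp')
  rw [cm_mul_right, conj_of_cm (X.Kd_P a hp'), X.M.p_mul b a, add_comm]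

theorem Ctx.del_mul' (X : Ctx F) {s p p' : G} (hs : s ∈ F.K) (hp : p ∈ F.K) (hp' : p' ∈ F.P) :
    X.M.p (cm (p * p') s) = X.M.p (cm p s) + X.M.p (cm p' s) := by
  have a := F.cm_Kd hp hs
  have b := F.cm_Kd (F.P_le_K hp') hs
  rw [cm_mul_left, conj_of_cm (X.Kd_P a hp'), X.M.p_mul a b]

theorem exists_ctx2 (hF : F.Hyp) : Nonempty (Ctx2 F) := by
  classical
  obtain ⟨X⟩ := exists_ctx hF
  obtain ⟨Q⟩ := exists_sec F.P (CP F) F.P_normal (CP_normal F)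
    (fun x hx y hy => X.Kd_CP (F.cm_Kd (F.P_le_K hx) (F.P_le_K hy)))
  obtain ⟨om, hom⟩ := Q.exists_lift2 Q (fun x y => X.M.p (cm x y))
    (fun x hx y hy z hz => X.del_mul' (F.P_le_K hz) (F.P_le_K hx) hy)
    (fun x hx y hy z hz => X.del_mul (F.P_le_K hx) hy hz)
    (fun x _ h2 z hz => by rw [h2 z hz, X.M.p_one])
    (fun x hx z _ h2 => by rw [cm_one_symm (h2 x hx), X.M.p_one])
  have hph : ∀ g, ∃ f : X.V.M →+ Q.M, ∀ k ∈ F.K, f (X.V.p k) = Q.p (cm k g) := by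
    intro g
    apply X.V.exists_lift
    · intro x hx y hy
      rw [cm_mul_left, Q.p_mul (conj_mem' F.P_normal (F.cm_P hx g) _) (F.cm_P hy g),
        ← Q.act_p _ (F.cm_P hx g),
        Q.act_triv (fun p hp => X.Kd_CP (F.cm_Kd (F.P_le_K hp) hy))]
    · intro x hx h2
      exact Q.p_zero (F.cm_P hx g) (fun p hp => F.key_P hx h2 g hp)
  choose ph hph using hph
  exact ⟨{ X with Q := Q, om := om, om_p := hom, ph := ph, ph_p := hph }⟩

namespace Ctx2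

variable (X : Ctx2 F)

theorem Q_D (g g' : G) (m : X.V.M) : X.Q.D g' (X.ph g m) = X.ph g' (X.V.D g m) := by
  obtain ⟨k, hk, rfl⟩ := X.V.surj m
  rw [← X.V.p_cm hk, X.ph_p _ _ hk, X.ph_p _ _ (F.cm_mem_K _ _), X.Q.p_cm (F.cm_P hk g)]

theorem ph_mul (g g' : G) (m : X.V.M) :
    X.ph (g * g') m = X.ph g m + X.ph g' m + X.ph g' (X.V.D g m) := by
  rw [← X.Q_D]
  obtain ⟨k, hk, rfl⟩ := X.V.surj m
  rw [X.ph_p _ _ hk, X.ph_p _ _ hk, X.ph_p _ _ hk, cm_mul_right,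
    X.Q.p_mul (F.cm_P hk _) (conj_mem' F.P_normal (F.cm_P hk g) _), ← X.Q.act_p _ (F.cm_P hk g),
    X.Q.act_eq]
  abel

theorem ph_K {k : G} (hk : k ∈ F.K) (m : X.V.M) : X.ph k m = 0 := by
  obtain ⟨x, hx, rfl⟩ := X.V.surj m
  rw [X.ph_p _ _ hx]; exact X.Q.p_zero (F.cm_P hx k) (X.Kd_CP (F.cm_Kd hx hk))

theorem ph_mul_K (g : G) {k : G} (hk : k ∈ F.K) (m : X.V.M) : X.ph (g * k) m = X.ph g m := by
  rw [X.ph_mul, X.ph_K hk, X.ph_K hk]; abel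

theorem ph_l (g : G) (m : X.V.M) : X.ph (F.l g) m = X.ph g m := by
  obtain ⟨h, hh, e⟩ := F.exists_l g
  conv_rhs => rw [e]
  rw [X.ph_mul_K _ (F.H_le_K hh)]

theorem ph_r (g : G) (m : X.V.M) : X.ph (F.r g) m = X.ph g m := by
  obtain ⟨h, hh, e⟩ := F.exists_r g
  conv_rhs => rw [e]
  rw [X.ph_mul_K _ (F.H_le_K hh)]

theorem ph_sym (a b : G) (m : X.V.M) : X.ph b (X.V.D a m) = X.ph a (X.V.D b m) := by
  have := X.ph_mul a b m
  rw [mul_eq_cm a b, X.ph_mul_K _ (F.cm_mem_K a b), X.ph_mul] at this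
  linear_combination (norm := abel) - this

theorem om_anti (a b : X.Q.M) : X.om a b = - X.om b a := by
  obtain ⟨x, hx, rfl⟩ := X.Q.surj a
  obtain ⟨y, hy, rfl⟩ := X.Q.surj b
  rw [X.om_p x hx y hy, X.om_p y hy x hx, ← X.M.p_inv (F.cm_Kd (F.P_le_K hy) (F.P_le_K hx)), cm_inv]

theorem om_D (g : G) (a b : X.Q.M) : X.M.D g (X.om a b) =
    X.om (X.Q.D g a) b + X.om a (X.Q.D g b) + X.om (X.Q.D g a) (X.Q.D g b) := by
  have : X.M.act g (X.om a b) = X.om (X.Q.act g a) (X.Q.act g b) := by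
    obtain ⟨x, hx, rfl⟩ := X.Q.surj a
    obtain ⟨y, hy, rfl⟩ := X.Q.surj b
    rw [X.Q.act_p _ hx, X.Q.act_p _ hy, X.om_p x hx y hy, X.om_p _ (conj_mem' F.P_normal hx _) _
      (conj_mem' F.P_normal hy _), X.M.act_p _ (F.cm_Kd (F.P_le_K hx) (F.P_le_K hy)), cm_conj]
  rw [Sec.D_apply, this, X.Q.act_eq, X.Q.act_eq]
  simp only [map_add, AddMonoidHom.add_apply]
  abel

theorem om_nondeg {q : X.Q.M} (hq : ∀ h ∈ F.H, ∀ z, X.om q (X.ph z (X.V.p h)) = 0) : q = 0 := by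
  have a1 : ∀ p ∈ F.P, ∀ z, X.om q (X.ph z (X.V.p p)) = 0 := by
    refine IV_ind X.V (q := fun w => ∀ z, X.om q (X.ph z w) = 0) ?_ (by simp) ?_ ?_
    · intro h hh a z
      have := hq h hh (a * z)
      rwa [X.ph_mul, map_add, map_add, hq h hh, hq h hh, zero_add, zero_add] at this
    · intro a b ha hb z; rw [map_add, map_add, ha, hb, add_zero]
    · intro a ha z; rw [map_neg, map_neg, ha, neg_zero]
  have a2 : ∀ p ∈ F.P, X.om q (X.Q.p p) = 0 := by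
    refine F.P_induction (p := fun p => X.om q (X.Q.p p) = 0) ?_ ?_ ?_ ?_
    · intro k hk g
      obtain ⟨h, hh, p, hp, e⟩ := X.V_split (X.V.p k)
      rw [← X.ph_p _ _ hk, e, map_add, map_add, hq h hh, a1 p hp, add_zero]
    · rw [X.Q.p_one, map_zero]
    · intro x hx y hy a b; rw [X.Q.p_mul hx hy, map_add, a, b, add_zero]
    · intro x hx a; rw [X.Q.p_inv hx, map_neg, a, neg_zero]
  obtain ⟨x, hx, rfl⟩ := X.Q.surj q
  apply X.Q.p_zero hx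
  intro p hp
  apply Subgroup.mem_bot.mp
  rw [← X.M.p_eq_zero (F.cm_Kd (F.P_le_K hx) (F.P_le_K hp)), ← X.om_p _ hx _ hp, a2 p hp]

theorem Phi {m : X.V.M} (hm : ∀ g, X.V.D g m = 0) {h : G} (hh : h ∈ F.H) (y z : G) :
    X.om (X.ph y m) (X.ph z (X.V.p h)) = - X.T m (X.V.p (F.e y z)) (X.V.p h) := by
  obtain ⟨k, hk, rfl⟩ := X.inv_l hm
  have hl := F.l_mem_K hk
  have hK := F.H_le_K hh
  have c2 : ∀ y, F.c k y ∈ F.C2 := fun y => X.hF.h7 hk _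
  have e0 : ∀ y, X.pr h (X.U.p (cm (F.l k) (F.r y))) = 0 := fun y => X.pr_H hh (F.cH k y) (c2 y)
  have e1 := X.pr_D hK (F.r z) (X.U.p (cm (F.l k) (F.r y)))
  have e2 := X.psi_mul hl hm (F.r y) (F.r z)
  rw [F.rr, X.psi_mul hl hm, X.U_D_K (F.eK _ _), ← X.br_p _ hl _ (F.eK _ _)] at e2
  have e3 := congrArg (X.pr h) e2
  simp only [map_add, e0, map_zero] at e3 e1
  rw [X.pr_p _ (F.cm_mem_K _ _) _ (F.cm_mem_K _ _) (c2 y)] at e1
  rw [← X.ph_r y, ← X.ph_r z, X.ph_p _ _ hl, X.ph_p _ _ hK, X.om_p _ (F.cm_P hl _) _ (F.cm_P hK _),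
    X.T_p _ _ _ hK]
  linear_combination (norm := abel) - e1 + e3

theorem J_inv (x a b g : G) : X.V.D g (X.V.D b (X.V.D a (X.V.p (F.t x)))) = 0 := by
  rw [← X.gam_eq, X.good.DD_c]

theorem ph_J (x a b y : G) : X.ph y (X.V.D b (X.V.D a (X.V.p (F.t x)))) = 0 := by
  apply X.om_nondeg
  intro h hh z
  rw [X.Phi (X.J_inv x a b) hh, X.T_anti, X.T_zero (X.br_e_J _ _ _ _ _)]; simp

end Ctx2

end H324Z.A4
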