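import Pool.Agent.H324Z.A4.StepE

set_option autoImplicit false

namespace H324Z.A4

variable {G : Type} [Group G] {F : Folder G}

namespace Ctx2

variable (X : Ctx2 F)

noncomputable def tau (x a : G) : X.Q.M := X.ph a (X.V.p (F.t x))
noncomputable def uu (x a b : G) : X.Q.M := X.ph b (X.V.D a (X.V.p (F.t x)))
noncomputable def EE (w x y : G) : X.M.M := X.M.p (cm (F.t w) (cm (F.t x) (F.l y)))
noncomputable def ee (w x a b : G) : X.M.M :=
  X.M.p (cm (F.t w) (cm (cm (F.t x) (F.l a)) (F.l b)))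
noncomputable def P4 (x a b w : G) : X.M.M :=
  X.T (X.V.p (F.t x)) (X.V.D a (X.V.p (F.t b))) (X.V.p (F.t w))

theorem tau_p (x a : G) : X.Q.p (cm (F.t x) (F.l a)) = X.tau x a := by
  rw [← X.ph_p _ _ (F.tK x), X.ph_l]; rfl

theorem D_tau (x a z : G) : X.Q.D z (X.tau x a) = X.uu x a z := X.Q_D _ _ _

theorem D_uu (x a b z : G) : X.Q.D z (X.uu x a b) = 0 := by
  simp only [uu]; rw [X.Q_D, X.ph_J]

theorem u_anti (x a b : G) : X.uu x a b = - X.uu a x b := by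
  simp only [uu]; rw [(X.good.R4 x a).1, map_neg]

theorem u_p2 (x a b : G) : X.uu x b a = X.uu x a b := X.ph_sym _ _ _

theorem u_two (x a b : G) : 2 • X.uu x a b = 0 := by
  linear_combination (norm := abel) X.u_anti x a b - X.u_p2 a b x - X.u_anti a b x + X.u_p2 b x a
    + X.u_anti b x a - X.u_p2 x a b

theorem u_p1 (x a b : G) : X.uu a x b = X.uu x a b := by
  linear_combination (norm := abel) X.u_anti a x b - X.u_two x a b

theorem u_p3 (x a b : G) : X.uu a b x = X.uu x a b := by rw [X.u_p2 a x b, X.u_p1]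
theorem u_p4 (x a b : G) : X.uu b x a = X.uu x a b := by rw [X.u_p1 x b a, X.u_p2]
theorem u_p5 (x a b : G) : X.uu b a x = X.uu x a b := by rw [X.u_p2 b x a, X.u_p4]

theorem om_two (x a b : G) (q : X.Q.M) : 2 • X.om (X.uu x a b) q = 0 := by
  rw [← AddMonoidHom.nsmul_apply, ← map_nsmul, X.u_two]; simp

theorem P4_13 (x a b w : G) : X.P4 x a b w = X.P4 b a x w := X.N_12 (F.tH _) (F.tH _) _ _
theorem P4_14 (x a b w : G) : X.P4 x a b w = X.P4 w a b x := X.T_13 (F.tH _) (F.tH _) _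
theorem P4_anti (x a b w : G) : X.P4 x a b w = - X.P4 x b a w := by
  simp only [P4]; rw [(X.good.R4 b a).1, map_neg, AddMonoidHom.neg_apply]

theorem P4_two (x a b w : G) : 2 • X.P4 x a b w = 0 := by
  linear_combination (norm := abel) X.P4_anti x a b w - X.P4_13 x b a w - X.P4_anti a b x w
    + X.P4_13 a x b w + X.P4_anti b x a w - X.P4_13 b a x w

theorem P4_s2 (x a b w : G) : X.P4 x a b w = X.P4 x b a w := by
  linear_combination (norm := abel) X.P4_anti x a b w - X.P4_two x b a w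

theorem P4_s1 (x a b w : G) : X.P4 x a b w = X.P4 a x b w := by
  rw [X.P4_s2, X.P4_13, X.P4_s2]

theorem P4_s3 (x a b w : G) : X.P4 x a b w = X.P4 x a w b := by
  rw [X.P4_13, X.P4_14, X.P4_13]

theorem Dc1 (a b : G) : X.V.D a (X.V.p (F.c a b)) = 0 := by
  rw [X.gam_eq, X.good.D_comm, (X.good.R3 a).1, map_zero]

theorem Dc2 (a b : G) : X.V.D b (X.V.p (F.c a b)) = 0 := by
  rw [(X.good.R4 a b).2, map_neg, X.Dc1, neg_zero]

theorem Dc3 (a b : G) : X.V.D (F.l a * F.l b) (X.V.p (F.c a b)) = 0 := by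
  rw [X.V.D_mul, X.good.DD_c, X.good.D_l, X.good.D_l, X.Dc1, X.Dc2]; simp

theorem Dc4 (a b : G) : X.V.D (F.l b * F.l a) (X.V.p (F.c a b)) = 0 := by
  rw [X.V.D_mul, X.good.DD_c, X.good.D_l, X.good.D_l, X.Dc1, X.Dc2]; simp

theorem Tc {h h' : G} (hh : h ∈ F.H) (hh' : h' ∈ F.H) {w a b : G}
    (hw : X.V.D w (X.V.p (F.c a b)) = 0) :
    X.T (X.V.p h) (X.V.D w (X.V.p h')) (X.V.p (F.c a b)) = 0 := by
  rw [X.T_13 hh (F.cH _ _), X.N_12 (F.cH _ _) hh', hw]; simp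

theorem del_conj {s p k : G} (hs : s ∈ F.H) (hp : p ∈ F.K) (hk : k ∈ F.H) :
    X.M.p (cm s (p * k)) = X.M.p (cm s p) + X.T (X.V.p s) (X.V.p p) (X.V.p k) := by
  have a := F.cm_Kd (F.H_le_K hs) hp
  rw [cm_mul_right, F.comm hs hk, one_mul, ← X.M.act_p _ a, X.M.act_eq, ← X.M.p_cm a,
    X.T_pp (F.H_le_K hs) hp (F.H_le_K hk)]

theorem del_inv {s p : G} (hs : s ∈ F.K) (hp : p ∈ F.P) :
    X.M.p (cm s p⁻¹) = - X.M.p (cm s p) := by
  have := X.del_mul hs hp (F.P.inv_mem hp)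
  rw [mul_inv_cancel, cm_one_right, X.M.p_one] at this
  exact eq_neg_of_add_eq_zero_right this.symm

theorem del_H {s h p : G} (hs : s ∈ F.H) (hh : h ∈ F.H) : cm s (h * p) = cm s p := by
  rw [cm_mul_right, F.comm hs hh]; simp

theorem del_T {s x y : G} (hs : s ∈ F.K) (hx : x ∈ F.K) (hy : y ∈ F.K) :
    X.M.p (cm s (cm x y)) = - X.T (X.V.p x) (X.V.p y) (X.V.p s) := by
  rw [X.T_pp hx hy hs, ← X.M.p_inv (F.cm_Kd (F.cm_mem_K _ _) hs), cm_inv]

theorem E1 (w x y : G) : X.EE w x y = - X.EE w y x := by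
  have hb := F.cm_P (F.tK y) (F.l x)
  simp only [EE]
  rw [F.cm_t_l x y, X.del_conj (F.tH w) (F.K.mul_mem (F.cK _ _) (F.K.inv_mem (F.P_le_K hb)))
    (F.cH _ _), del_H (F.tH w) (F.cH _ _), X.del_inv (F.tK w) hb,
    X.V.p_mul (F.cK _ _) (F.K.inv_mem (F.P_le_K hb)), X.V.p_inv (F.P_le_K hb), X.V.p_cm (F.tK y),
    X.good.D_l]
  simp only [map_add, map_neg, AddMonoidHom.add_apply, AddMonoidHom.neg_apply]
  rw [X.T_zero (X.br_H (F.tH _) (F.cH _ _)), X.Tc (F.tH _) (F.tH _) (X.Dc1 x y)]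
  simp

theorem E2 (w x y : G) : X.EE w x y - X.EE x w y = - X.om (X.tau w y) (X.tau x y) := by
  have ha := F.cm_P (F.tK w) (F.l y)
  have hb := F.cm_P (F.tK x) (F.l y)
  have e : cm (F.t w * cm (F.t w) (F.l y)) (F.t x * cm (F.t x) (F.l y)) = 1 := by
    rw [← conj_eq, ← conj_eq, ← cm_conj, F.comm (F.tH w) (F.tH x)]; simp
  have e1 := X.del_mul' (F.K.mul_mem (F.tK x) (F.P_le_K hb)) (F.tK w) ha
  rw [e, X.M.p_one, del_H (F.tH w) (F.tH x), ← cm_inv (F.t x * _),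
    X.M.p_inv (F.cm_Kd (F.K.mul_mem (F.tK x) (F.P_le_K hb)) (F.P_le_K ha)),
    X.del_mul' (F.P_le_K ha) (F.tK x) hb, ← X.om_p _ hb _ ha, X.tau_p, X.tau_p, X.om_anti] at e1
  simp only [EE]
  linear_combination (norm := abel) - e1

theorem del_ll (w x a b : G) : X.M.p (cm (F.t w) (cm (F.t x) (F.l a * F.l b))) =
    X.EE w x a + X.EE w x b + X.ee w x a b := by
  have ha := F.cm_P (F.tK x) (F.l a)
  have hb := F.cm_P (F.tK x) (F.l b)
  rw [cm_mul_right (F.t x), conj_eq, X.del_mul (F.tK w) hb (F.P.mul_mem ha (F.cm_P (F.P_le_K ha) _)),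
    X.del_mul (F.tK w) ha (F.cm_P (F.P_le_K ha) _)]
  simp only [EE, ee]; abel

theorem E3 (w x a b : G) : X.EE w x (F.l a * F.l b) = X.EE w x a + X.EE w x b + X.ee w x a b := by
  rw [← X.del_ll]
  have hb := F.cm_P (F.tK x) (F.l (F.l a * F.l b))
  conv_rhs => rw [F.ll, cm_mul_right (F.t x), F.comm (F.tH x) (F.dH _ _), one_mul]
  rw [X.del_conj (F.tH w) (F.K.mul_mem (F.K.inv_mem (F.dK _ _)) (F.P_le_K hb)) (F.dH _ _),
    del_H (F.tH w) (F.H.inv_mem (F.dH _ _)), X.V.p_mul (F.K.inv_mem (F.dK _ _)) (F.P_le_K hb),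
    X.V.p_cm (F.tK x), X.good.D_l, X.d_eq]
  simp only [map_add, map_neg, AddMonoidHom.add_apply]
  rw [X.T_zero (X.br_H (F.tH _) (F.H.inv_mem (F.dH _ _))), X.Tc (F.tH _) (F.tH _) (X.Dc3 a b)]
  simp [EE]

theorem del_D {s p : G} (hs : s ∈ F.K) (hp : p ∈ F.P) (g : G) :
    X.M.D g (X.M.p (cm s p)) = X.M.p (cm s (cm p g)) +
      X.om (X.ph g (X.V.p s)) (X.Q.p p + X.Q.D g (X.Q.p p)) := by
  have a := F.cm_P hs g
  have b := F.cm_P (F.P_le_K hp) g
  rw [Sec.D_apply, X.M.act_p _ (F.cm_Kd hs (F.P_le_K hp)), cm_conj, conj_eq, conj_eq,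
    X.del_mul' (F.P_le_K (F.P.mul_mem hp b)) hs a, X.del_mul hs hp b,
    ← X.om_p _ a _ (F.P.mul_mem hp b), X.Q.p_mul hp b, X.Q.p_cm hp, X.ph_p _ _ hs]
  abel

theorem vt_ll (a b : G) : X.V.p (F.t (F.l a * F.l b)) =
    X.V.p (F.t a) + X.V.p (F.t b) - X.V.p (F.c a b) := by
  have e : X.V.p (F.t (F.l a * F.l b) * F.c a b * (F.t a)⁻¹ * (F.t b)⁻¹) =
      X.V.p (F.t (F.l a * F.l b)) + X.V.p (F.c a b) - X.V.p (F.t a) - X.V.p (F.t b) := by
    rw [Good.p3 (F.H.mul_mem (F.tH _) (F.cH _ _)) (F.tH _) (F.tH _), X.V.p_mul (F.tK _) (F.cK _ _)]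
  have := X.inv_H (F.H.mul_mem (F.H.mul_mem (F.H.mul_mem (F.tH (F.l a * F.l b)) (F.cH a b))
    (F.H.inv_mem (F.tH a))) (F.H.inv_mem (F.tH b))) (fun g => by
      rw [e, map_sub, map_sub, map_add, (X.good.R4 _ g).1, X.V.D_mul, X.good.D_l, X.good.D_l,
        X.good.D_l, X.gam_eq, X.good.J_sym g a b, X.good.D_comm b g, (X.good.R4 g a).1,
        (X.good.R4 g b).1]
      abel)
  rw [e] at this
  linear_combination (norm := abel) this

theorem ph_c (a b x w : G) :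
    X.om (X.ph x (X.V.p (F.c a b))) (X.tau w x) = X.om (X.uu b a x) (X.tau w x) := by
  have := X.Phi (m := X.V.p (F.c a b) - X.V.D a (X.V.p (F.t b))) (fun g => by
    rw [map_sub, X.gam_eq, X.good.J_sym a b g, sub_self]) (F.tH w) x x
  rw [X.e_eq, (X.good.R3 x).2] at this
  simp only [map_sub, AddMonoidHom.sub_apply, neg_zero, map_zero, AddMonoidHom.zero_apply] at this
  exact sub_eq_zero.mp this

theorem E4 (w x y : G) : X.EE w x y + X.EE x w y =
    X.om (X.tau w x) (X.tau y x) + X.om (X.tau x w) (X.tau y w) := by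
  linear_combination (norm := abel) X.E1 w x y - X.E2 w y x + X.E1 x w y - X.E2 x y w - X.E1 y w x

theorem tau_ll (a b x w : G) : X.om (X.tau w x) (X.tau (F.l a * F.l b) x) =
    X.om (X.tau w x) (X.tau a x) + X.om (X.tau w x) (X.tau b x) + X.om (X.uu b a x) (X.tau w x) := by
  rw [← X.ph_c, X.om_anti (X.ph _ _)]
  simp only [tau]
  rw [X.vt_ll, map_sub, map_add, map_sub, map_add]; abel

theorem r1 (w x a b : G) : X.ee w x a b + X.ee x w a b =
    X.om (X.uu b a x) (X.tau w x) + X.om (X.uu b a w) (X.tau x w) := by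
  have e := X.E4 w x (F.l a * F.l b)
  rw [X.E3, X.E3, X.tau_ll, X.tau_ll] at e
  linear_combination (norm := abel) e - X.E4 w x a - X.E4 w x b

theorem r2 (w x a b : G) : X.ee w x a b - X.ee w x b a = X.P4 x a b w := by
  have e1 := X.del_ll w x a b
  have e2 := X.del_ll w x b a
  have hκ := F.cm_mem_K (F.l a) (F.l b)
  have h1 := F.cm_P (F.tK x) (F.l b * F.l a)
  rw [mul_eq_cm (F.l a) (F.l b), cm_mul_right (F.t x), conj_eq,
    X.del_mul (F.tK w) (F.cm_P (F.tK x) _) (F.P.mul_mem h1 (F.cm_P (F.P_le_K h1) _)),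
    X.del_mul (F.tK w) h1 (F.cm_P (F.P_le_K h1) _), e2, X.del_T (F.tK w) (F.tK x) hκ,
    X.del_T (F.tK w) (F.P_le_K h1) hκ, X.good.p_ll, X.V.p_cm (F.tK x)] at e1
  simp only [map_sub, AddMonoidHom.sub_apply] at e1
  rw [X.T_zero (X.br_H (F.tH _) (F.cH _ _)), X.T_zero (X.br_DD _ _ _ _), X.T_anti (X.V.D _ _),
    X.N_12 (F.cH _ _) (F.tH _), X.Dc4] at e1
  simp only [map_zero, AddMonoidHom.zero_apply] at e1
  simp only [P4]
  linear_combination (norm := abel) - e1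

theorem r3 (w x a b : G) : X.ee w x a b + X.ee w a x b + X.om (X.tau w b) (X.tau x a)
    + X.om (X.tau w b) (X.tau a x) = 0 := by
  have D_EE : ∀ x a, X.M.D (F.l b) (X.EE w x a) =
      X.ee w x a b + X.om (X.tau w b) (X.tau x a + X.uu x a b) := by
    intro x a
    simp only [EE, ee]
    rw [X.del_D (F.tK w) (F.cm_P (F.tK x) _), X.tau_p, X.D_tau, X.ph_l]
    simp only [uu, tau]
    rw [X.ph_l]
  have e := congrArg (X.M.D (F.l b)) (X.E1 w x a)
  rw [map_neg, D_EE, D_EE, X.u_anti x a b] at e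
  simp only [map_add, map_neg] at e
  linear_combination (norm := abel) e

theorem tau_ll' (w a b : G) : X.tau w (F.l a * F.l b) = X.tau w a + X.tau w b + X.uu w a b := by
  simp only [tau, uu]
  rw [X.ph_mul, X.ph_l, X.ph_l, X.ph_l, X.good.D_l]

theorem r4 (w x a b : G) : X.ee w x a b - X.ee x w a b + X.om (X.tau w a) (X.tau x b)
    + X.om (X.tau w b) (X.tau x a) + X.om (X.uu w a b) (X.tau x a) + X.om (X.uu w a b) (X.tau x b)
    - X.om (X.uu x a b) (X.tau w a) - X.om (X.uu x a b) (X.tau w b)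
    + X.om (X.uu w a b) (X.uu x a b) = 0 := by
  have e := X.E2 w x (F.l a * F.l b)
  rw [X.E3, X.E3, X.tau_ll', X.tau_ll'] at e
  simp only [map_add, AddMonoidHom.add_apply] at e
  linear_combination (norm := abel) e - X.E2 w x a - X.E2 w x b
    - X.om_anti (X.tau w a) (X.uu x a b) - X.om_anti (X.tau w b) (X.uu x a b)

theorem D_tt (z w a x b : G) : X.M.D z (X.om (X.tau w a) (X.tau x b)) =
    X.om (X.uu w a z) (X.tau x b) - X.om (X.uu x b z) (X.tau w a)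
      + X.om (X.uu w a z) (X.uu x b z) := by
  rw [X.om_D, X.D_tau, X.D_tau, X.om_anti (X.tau w a)]; abel

theorem D_ut (z w a c x b : G) : X.M.D z (X.om (X.uu w a c) (X.tau x b)) =
    X.om (X.uu w a c) (X.uu x b z) := by
  rw [X.om_D, X.D_tau, X.D_uu]; simp

theorem D_uu' (z w a c x b d : G) : X.M.D z (X.om (X.uu w a c) (X.uu x b d)) = 0 := by
  rw [X.om_D, X.D_uu, X.D_uu]; simp

theorem b1 (w x a b z : G) : X.M.D z (X.ee w x a b) + X.M.D z (X.ee x w a b) =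
    X.om (X.uu b a x) (X.uu w x z) + X.om (X.uu b a w) (X.uu x w z) := by
  rw [← map_add, X.r1, map_add, X.D_ut, X.D_ut]

theorem b2 (w x a b z : G) : X.M.D z (X.ee w x a b) - X.M.D z (X.ee w x b a) =
    X.M.D z (X.P4 x a b w) := by
  rw [← map_sub, X.r2]

theorem b3 (w x a b z : G) : X.M.D z (X.ee w x a b) + X.M.D z (X.ee w a x b)
    + X.om (X.uu w b z) (X.tau x a) + X.om (X.uu w b z) (X.tau a x) = 0 := by
  have e := congrArg (X.M.D z) (X.r3 w x a b)
  rw [map_add, map_add, map_add, X.D_tt, X.D_tt, X.u_anti x a z, map_zero] at e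
  simp only [map_neg, AddMonoidHom.neg_apply] at e
  linear_combination (norm := abel) e

theorem b4 (w x a b z : G) : X.M.D z (X.ee w x a b) - X.M.D z (X.ee x w a b)
    + (X.om (X.uu w a z) (X.tau x b) - X.om (X.uu x b z) (X.tau w a)
      + X.om (X.uu w a z) (X.uu x b z))
    + (X.om (X.uu w b z) (X.tau x a) - X.om (X.uu x a z) (X.tau w b)
      + X.om (X.uu w b z) (X.uu x a z))
    + X.om (X.uu w a b) (X.uu x a z) + X.om (X.uu w a b) (X.uu x b z)
    - X.om (X.uu x a b) (X.uu w a z) - X.om (X.uu x a b) (X.uu w b z) = 0 := by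
  have e := congrArg (X.M.D z) (X.r4 w x a b)
  simp only [map_add, map_sub, X.D_tt, X.D_ut, X.D_uu', map_zero, add_zero] at e
  exact e

end Ctx2

end H324Z.A4
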