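import Pool.Agent.H324Z.A4.StepF

set_option autoImplicit false
set_option linter.unusedSimpArgs false

namespace H324Z.A4

variable {G : Type} [Group G] {F : Folder G}

namespace Ctx2

variable (X : Ctx2 F)

theorem P5_zero (a b c d e : G) : X.M.D e (X.P4 a b c d) = 0 := by
  have h1 := X.b2 c d a b e
  rw [((X.P4_s1 d a b c).trans ((X.P4_s2 a d b c).trans (X.P4_s3 a b d c)))] at h1
  have h2 := X.b4 c a d b e
  have h3 := X.b1 c b a d e
  have h4 := X.b4 a b d c e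
  have h5 := X.b4 c b d a e
  have h6 := X.b1 c a b d e
  have h7 := X.b1 a b c d e
  have h8 := X.b3 a c b d e
  have h9 := X.b3 a d b c e
  have h10 := X.b3 a d c b e
  have h11 := X.b2 a d c b e
  rw [((X.P4_s1 d c b a).trans ((X.P4_s2 c d b a).trans ((X.P4_s1 c b d a).trans ((X.P4_s3 b c d a).trans ((X.P4_s2 b c a d).trans (X.P4_s1 b a c d))))))] at h11
  have h12 := X.b3 b c a d e
  have h13 := X.b3 b a d c e
  have h14 := X.b3 b d c a e
  have h15 := X.b2 b d a c e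
  rw [((X.P4_s1 d a c b).trans ((X.P4_s2 a d c b).trans ((X.P4_s3 a c d b).trans (X.P4_s2 a c b d))))] at h15
  have h16 := X.b3 c b a d e
  have h17 := X.b3 c a d b e
  have h18 := X.b3 c b d a e
  simp only [X.u_p1 a b c, X.u_p2 a b c, X.u_p3 a b c, X.u_p4 a b c, X.u_p5 a b c, X.u_p1 a b d, 
    X.u_p2 a b d, X.u_p3 a b d, X.u_p4 a b d, X.u_p5 a b d, X.u_p1 a b e, X.u_p2 a b e, 
    X.u_p3 a b e, X.u_p4 a b e, X.u_p5 a b e, X.u_p1 a c d, X.u_p2 a c d, X.u_p3 a c d, 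
    X.u_p4 a c d, X.u_p5 a c d, X.u_p1 a c e, X.u_p2 a c e, X.u_p3 a c e, X.u_p4 a c e, 
    X.u_p5 a c e, X.u_p1 a d e, X.u_p2 a d e, X.u_p3 a d e, X.u_p4 a d e, X.u_p5 a d e, 
    X.u_p1 b c d, X.u_p2 b c d, X.u_p3 b c d, X.u_p4 b c d, X.u_p5 b c d, X.u_p1 b c e, 
    X.u_p2 b c e, X.u_p3 b c e, X.u_p4 b c e, X.u_p5 b c e, X.u_p1 b d e, X.u_p2 b d e, 
    X.u_p3 b d e, X.u_p4 b d e, X.u_p5 b d e, X.u_p1 c d e, X.u_p2 c d e, X.u_p3 c d e, 
    X.u_p4 c d e, X.u_p5 c d e]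
    at h2 h3 h4 h5 h6 h7 h8 h9 h10 h12 h13 h14 h16 h17 h18
  linear_combination (norm := abel) h1 + h2 + h3 + h4 - X.om_anti (X.uu a d e) (X.uu b c e) - h5
    + h6 + h7 - h8 - h9 + h10 - h11 + X.om_two b c d (X.uu a c e) - h12 + h13
    + X.om_two a b d (X.uu b c e) - h14 - h15 + X.om_two a c d (X.uu a b e) - h16 - h17 + h18
    + X.om_two a d e (X.tau c b) + X.om_two b d e (X.tau a c) + X.om_two c d e (X.tau b a)

theorem P4_zero (hu : ∀ x a b, X.uu x a b = 0) (a b c d : G) : X.P4 a b c d = 0 := by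
  have h1 := X.r2 d c b a
  rw [((X.P4_s1 c b a d).trans ((X.P4_s2 b c a d).trans (X.P4_s1 b a c d)))] at h1
  have h2 := X.r2 d a b c
  have h3 := X.r3 d a b c
  have h4 := X.r3 d c a b
  have h5 := X.r2 d b c a
  rw [((X.P4_s2 b c a d).trans (X.P4_s1 b a c d))] at h5
  have h6 := X.r3 d c b a
  have h7 := X.r1 d b c a
  have h8 := X.r4 b d c a
  have h9 := X.r1 d a c b
  have h10 := X.r4 a d c b
  have h11 := X.r1 c d b a
  have h12 := X.r4 d c b a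
  simp only [hu, map_zero, AddMonoidHom.zero_apply, add_zero, sub_zero] at h7 h8 h9 h10 h11 h12
  linear_combination (norm := abel) - h1 + h2 - h3 - h4 - h5 - h6 + h7 - h8
    + X.om_anti (X.tau b a) (X.tau d c) + X.om_anti (X.tau b c) (X.tau d a) + h9 - h10 + h11 + h12
    + X.om_anti (X.tau a b) (X.tau d c) + X.om_anti (X.tau a c) (X.tau d b)

theorem T_J (x a b z w : G) :
    X.T (X.V.p (F.t x)) (X.V.D z (X.V.D a (X.V.p (F.t b)))) (X.V.p (F.t w)) = 0 := by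
  have e := X.P5_zero x a b w z
  simp only [P4] at e
  obtain ⟨p, hp, e1⟩ := X.D_P z (X.V.p (F.t w))
  rw [X.T_D, e1, X.T_P _ _ hp, X.T_zero (X.br_DD _ _ _ _)] at e
  simpa using e

theorem J_zero (a b z : G) : X.V.D z (X.V.D a (X.V.p (F.t b))) = 0 := by
  obtain ⟨p, hp, e1⟩ := X.D_P z (X.V.D a (X.V.p (F.t b)))
  rw [e1]
  apply X.nondeg hp
  · intro x
    rw [← e1]
    apply X.nondegU
    · intro h hh
      rw [← X.T_p _ _ _ (F.H_le_K hh)]
      refine X.H_ind (q := fun m => X.T (X.V.p (F.t x)) (X.V.D z (X.V.D a (X.V.p (F.t b)))) m = 0)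
        (fun w => X.T_J x a b z w) (fun u v => ?_) (by simp) ?_ ?_ h hh
      · rw [X.T_13 (F.tH _) (F.cH _ _), X.T_zero (X.br_c_J _ _ _ _ _)]
      · intro m m' h1 h2; rw [map_add, h1, h2, add_zero]
      · intro m h1; rw [map_neg, h1, neg_zero]
    · intro q hq
      rw [← X.T_p _ _ _ (F.P_le_K hq), X.T_P _ _ hq]
  · intro x y; rw [← e1, X.br_c_J]
  · intro x y; rw [← e1, X.br_d_J]

theorem c_zero (x y : G) : X.V.p (F.c x y) = 0 :=
  X.inv_H (F.cH x y) fun g => by rw [X.gam_eq, X.J_zero]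

theorem u_zero (x a b : G) : X.uu x a b = 0 := by
  obtain ⟨W⟩ := exists_sec F.K (CP F) F.K_normal (CP_normal F)
    (fun x hx y hy => X.Kd_CP (F.cm_Kd hx hy))
  have e := W.jacobi (F.l a) (F.l x) (F.l b) (F.cm_mem_K _ _) (F.cm_mem_K _ _) (F.cm_mem_K _ _)
    (W.act_triv fun k hk => X.Kd_CP (F.cm_Kd hk (F.cm_mem_K _ _)))
  have m : ∀ g1 g2 g3, cm (cm g1 g2) g3 ∈ F.P := fun _ _ _ => F.cm_P (F.cm_mem_K _ _) _
  rw [← W.p_cm (F.cm_mem_K _ _), ← W.p_cm (F.cm_mem_K _ _),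
    ← W.p_mul (F.cm_mem_K _ _) (F.cm_mem_K _ _),
    W.p_eq_iff (F.cm_mem_K _ _) (F.K.mul_mem (F.cm_mem_K _ _) (F.cm_mem_K _ _)),
    ← X.Q.p_eq_iff (m _ _ _) (F.P.mul_mem (m _ _ _) (m _ _ _)), X.Q.p_mul (m _ _ _) (m _ _ _),
    ← X.ph_p _ _ (F.cm_mem_K _ _), ← X.ph_p _ _ (F.cm_mem_K _ _), ← X.ph_p _ _ (F.cm_mem_K _ _),
    X.good.p_ll, X.good.p_ll, X.good.p_ll, X.c_zero, X.c_zero, X.c_zero, X.ph_l, X.ph_l,
    X.ph_l] at e
  simp only [zero_sub, map_neg] at e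
  have e2 := X.u_p2 b a x
  simp only [uu] at e2 ⊢
  linear_combination (norm := abel) e - e2

theorem T_all (m m' m'' : X.V.M) : X.T m m' m'' = 0 := by
  have a0 : ∀ w, X.T m m' (X.V.p (F.t w)) = 0 := by
    intro w
    apply X.T_reduce
    intro h hh h' hh' a
    refine X.H_ind (q := fun v => X.T v (X.V.D a (X.V.p h')) (X.V.p (F.t w)) = 0) (fun x => ?_)
      (fun u v => by simp [X.c_zero]) (by simp) ?_ ?_ h hh
    · refine X.H_ind (q := fun v => X.T (X.V.p (F.t x)) (X.V.D a v) (X.V.p (F.t w)) = 0)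
        (fun b => X.P4_zero X.u_zero x a b w) (fun u v => by simp [X.c_zero]) (by simp) ?_ ?_ h' hh'
      · intro v v' h1 h2; rw [map_add, map_add, AddMonoidHom.add_apply, h1, h2, add_zero]
      · intro v h1; rw [map_neg, map_neg, AddMonoidHom.neg_apply, h1, neg_zero]
    · intro v v' h1 h2
      rw [map_add, AddMonoidHom.add_apply, AddMonoidHom.add_apply, h1, h2, add_zero]
    · intro v h1; rw [map_neg, AddMonoidHom.neg_apply, AddMonoidHom.neg_apply, h1, neg_zero]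
  obtain ⟨h, hh, p, hp, rfl⟩ := X.V_split m''
  rw [map_add, X.T_P _ _ hp, add_zero]
  refine X.H_ind (q := fun v => X.T m m' v = 0) a0 (fun u v => by simp [X.c_zero]) (by simp)
    ?_ ?_ h hh
  · intro v v' h1 h2; rw [map_add, h1, h2, add_zero]
  · intro v h1; rw [map_neg, h1, neg_zero]

end Ctx2

/-- main group-theoretic theorem -/
theorem Folder.Hyp.main (hF : F.Hyp) {x y : G} (hx : x ∈ F.K) (hy : y ∈ F.K) : cm x y ∈ F.C := by
  obtain ⟨X⟩ := exists_ctx2 hF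
  apply F.mem_C_of_comm
  intro k hk
  apply Subgroup.mem_bot.mp
  rw [← X.M.p_eq_zero (F.cm_Kd (F.cm_mem_K _ _) hk), ← X.T_pp hx hy hk, X.T_all]

end H324Z.A4
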